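import Pool.Agent.Helper34.OrthGroup

/-!
# Matrices indexed by bit strings
-/

set_option linter.unusedSectionVars false

namespace Helper34.TraceClass

open Finset

section General

variable {Λ : Type} [Fintype Λ] [DecidableEq Λ]

/-- Orthogonal conjugacy. -/
def Cnj (x y : Mat Λ) : Prop := ∃ r : OG Λ, x = lr (r, r) y

lemma Cnj.trans {x y z : Mat Λ} (h : Cnj x y) (h' : Cnj y z) : Cnj x z := by
  obtain ⟨r, hr⟩ := h
  obtain ⟨r', hr'⟩ := h'
  refine ⟨r * r', ?_⟩
  rw [hr, hr', ← lr_mul]
  rfl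

lemma Cnj.smul {x y : Mat Λ} (h : Cnj x y) (t : ℝ) : Cnj (t • x) (t • y) := by
  obtain ⟨r, hr⟩ := h
  exact ⟨r, by rw [hr, lr_smul]⟩

/-- Normalised diagonal matrix. -/
noncomputable def nd (d : Λ → ℝ) : Mat Λ := (1 / (Fintype.card Λ : ℝ)) • (Matrix.diagonal d : Mat Λ)

/-- Normalised `L¹` norm. -/
noncomputable def L1 (d : Λ → ℝ) : ℝ := (1 / (Fintype.card Λ : ℝ)) * ∑ x, |d x|

lemma L1_nonneg (d : Λ → ℝ) : 0 ≤ L1 d := by
  unfold L1
  have : 0 ≤ ∑ x, |d x| := Finset.sum_nonneg fun _ _ => abs_nonneg _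
  positivity

lemma L1_add_le (d e : Λ → ℝ) : L1 (fun x => d x + e x) ≤ L1 d + L1 e := by
  unfold L1
  rw [← mul_add, ← Finset.sum_add_distrib]
  exact mul_le_mul_of_nonneg_left (Finset.sum_le_sum fun x _ => abs_add_le _ _) (by positivity)

lemma L1_mono {d e : Λ → ℝ} (h : ∀ x, |d x| ≤ |e x|) : L1 d ≤ L1 e := by
  unfold L1
  exact mul_le_mul_of_nonneg_left (Finset.sum_le_sum fun x _ => h x) (by positivity)

lemma L1_smul (t : ℝ) (d : Λ → ℝ) : L1 (fun x => t * d x) = |t| * L1 d := by
  unfold L1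
  simp only [abs_mul, ← Finset.mul_sum]
  ring

lemma L1_const [Nonempty Λ] (t : ℝ) : L1 (fun _ : Λ => t) = |t| := by
  unfold L1
  have : (Fintype.card Λ : ℝ) ≠ 0 := by exact_mod_cast Fintype.card_ne_zero
  simp only [Finset.sum_const, Finset.card_univ, nsmul_eq_mul]
  field_simp

lemma nd_sub (d e : Λ → ℝ) : nd d - nd e = nd (fun x => d x - e x) := by
  funext x y
  change (1 / (Fintype.card Λ : ℝ)) * Matrix.diagonal d x y
    - (1 / (Fintype.card Λ : ℝ)) * Matrix.diagonal e x y
    = (1 / (Fintype.card Λ : ℝ)) * Matrix.diagonal (fun x => d x - e x) x y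
  by_cases h : x = y
  · subst h; simp [mul_sub]
  · simp [Matrix.diagonal_apply_ne _ h]

/-- The properties of the norm on matrices that are used. -/
structure SNorm (ν : Mat Λ → ℝ) : Prop where
  nonneg : ∀ x, 0 ≤ ν x
  inv : ∀ k x, ν (lr k x) = ν x
  diag_le : ∀ d : Λ → ℝ, ν (Matrix.diagonal d : Mat Λ) ≤ ∑ x, |d x|
  scal : ∀ c : ℝ, 0 ≤ c → ν (nd fun _ => c) = c

lemma SNorm.nd_le {ν : Mat Λ → ℝ} (h : SNorm ν) (d : Λ → ℝ) : ν (nd d) ≤ L1 d := by
  have h1 : nd d = (Matrix.diagonal (fun x => 1 / (Fintype.card Λ : ℝ) * d x) : Mat Λ) := by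
    unfold nd
    funext x y
    change _ * Matrix.diagonal d x y = _
    by_cases h : x = y
    · subst h; simp
    · simp [Matrix.diagonal_apply_ne _ h]
  rw [h1]
  refine (h.diag_le _).trans (le_of_eq ?_)
  unfold L1
  rw [Finset.mul_sum]
  refine Finset.sum_congr rfl fun x _ => ?_
  rw [abs_mul, abs_of_nonneg (by positivity : (0 : ℝ) ≤ 1 / (Fintype.card Λ : ℝ))]

/-- Permutation matrices are orthogonal. -/
lemma perm_orth (σ : Equiv.Perm Λ) :
    (Matrix.of fun x y => if y = σ x then (1 : ℝ) else 0) *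
      (Matrix.of fun x y => if y = σ x then (1 : ℝ) else 0).transpose = 1 := by
  ext x y
  rw [Matrix.mul_apply]
  simp only [Matrix.of_apply, Matrix.transpose_apply, ite_mul, one_mul, zero_mul,
    Finset.sum_ite_eq', Finset.mem_univ, if_true, Matrix.one_apply, σ.injective.eq_iff]

lemma Cnj_perm (σ : Equiv.Perm Λ) (d : Λ → ℝ) : Cnj (nd (fun x => d (σ x))) (nd d) := by
  refine Cnj.smul ⟨OG.mk' _ (perm_orth σ), ?_⟩ _
  apply Matrix.of.injective
  rw [of_lr]
  ext x y
  simp only [OG.mk'_mat]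
  rw [Matrix.mul_apply]
  simp only [Matrix.mul_apply, Matrix.of_apply, Matrix.transpose_apply, ite_mul, one_mul,
    zero_mul, Finset.sum_ite_eq', Finset.mem_univ, if_true, mul_ite, mul_one, mul_zero]
  by_cases h : x = y
  · subst h
    simp
  · rw [Matrix.diagonal_apply_ne _ h, Matrix.diagonal_apply_ne]
    exact fun h' => h (σ.injective h')

end General

section BitsSec

variable {ι : Type} [Fintype ι] [DecidableEq ι]

/-- Flip the bit `i`. -/
def fl (i : ι) (x : ι → Bool) : ι → Bool := Function.update x i (!x i)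

@[simp] lemma fl_same (i : ι) (x : ι → Bool) : fl i x i = !x i := by simp [fl]

lemma fl_ne {i k : ι} (h : k ≠ i) (x : ι → Bool) : fl i x k = x k := by simp [fl, h]

@[simp] lemma fl_fl (i : ι) (x : ι → Bool) : fl i (fl i x) = x := by
  funext k
  by_cases h : k = i
  · subst h; simp
  · rw [fl_ne h, fl_ne h]

/-- The flip as a permutation. -/
def flp (i : ι) : Equiv.Perm (ι → Bool) := ⟨fl i, fl i, fl_fl i, fl_fl i⟩

/-- The sign of bit `i`. -/
def sn (i : ι) (x : ι → Bool) : ℝ := if x i then -1 else 1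

lemma sn_sq (i : ι) (x : ι → Bool) : sn i x * sn i x = 1 := by
  unfold sn; split <;> norm_num

@[simp] lemma sn_fl_same (i : ι) (x : ι → Bool) : sn i (fl i x) = -sn i x := by
  unfold sn; rw [fl_same]; cases x i <;> simp

lemma sn_fl_ne {i k : ι} (h : k ≠ i) (x : ι → Bool) : sn k (fl i x) = sn k x := by
  unfold sn; rw [fl_ne h]

/-- Matrices of the form `diag a + diag b * flip`. -/
def MM (i : ι) (a b : (ι → Bool) → ℝ) : Matrix (ι → Bool) (ι → Bool) ℝ :=
  Matrix.of fun x y => (if y = x then a x else 0) + (if y = fl i x then b x else 0)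

lemma MM_apply (i : ι) (a b : (ι → Bool) → ℝ) (x y : ι → Bool) :
    MM i a b x y = (if y = x then a x else 0) + (if y = fl i x then b x else 0) := rfl

lemma MM_mul (i : ι) (a b c d : (ι → Bool) → ℝ) :
    MM i a b * MM i c d = MM i (fun x => a x * c x + b x * d (fl i x))
      (fun x => a x * d x + b x * c (fl i x)) := by
  ext x y
  rw [Matrix.mul_apply, MM_apply]
  simp only [MM_apply, add_mul, Finset.sum_add_distrib, ite_mul, zero_mul, Finset.sum_ite_eq',
    Finset.mem_univ, if_true, fl_fl]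
  by_cases h1 : y = x
  · subst h1
    by_cases h2 : y = fl i y
    · have := congrFun h2 i
      simp at this
    · simp [h2]
  · by_cases h2 : y = fl i x
    · simp [h2]
      by_cases h3 : fl i x = x
      · have := congrFun h3 i
        simp at this
      · simp [h3]
    · simp [h1, h2]

lemma MM_transpose (i : ι) (a b : (ι → Bool) → ℝ) :
    (MM i a b).transpose = MM i a (fun x => b (fl i x)) := by
  ext x y
  rw [Matrix.transpose_apply, MM_apply, MM_apply]
  congr 1
  · by_cases h : y = x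
    · subst h; simp
    · rw [if_neg h, if_neg (Ne.symm h)]
  · by_cases h : y = fl i x
    · subst h; simp
    · rw [if_neg h, if_neg]
      intro h'
      exact h (by rw [h', fl_fl])

lemma MM_diag (i : ι) (a : (ι → Bool) → ℝ) : MM i a (fun _ => 0) = Matrix.diagonal a := by
  ext x y
  rw [MM_apply, Matrix.diagonal_apply]
  by_cases h : x = y
  · subst h; simp
  · simp [h, Ne.symm h]

lemma MM_one (i : ι) : MM i (fun _ => 1) (fun _ => 0) = 1 := by
  rw [MM_diag]; exact Matrix.diagonal_one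

/-- The rotation type orthogonal matrices. -/
lemma rot_orth (i : ι) (c d : (ι → Bool) → ℝ) (hc : ∀ x, c (fl i x) = c x)
    (hd : ∀ x, d (fl i x) = d x) (h : ∀ x, c x * c x + d x * d x = 1) :
    MM i (fun x => c x * sn i x) d * (MM i (fun x => c x * sn i x) d).transpose = 1 := by
  rw [MM_transpose, MM_mul, ← MM_one i]
  congr 1
  · funext x
    rw [fl_fl]
    have := sn_sq i x
    linear_combination (c x * c x) * this + h x
  · funext x
    rw [sn_fl_same, hc, hd]
    ring

lemma conjL (i : ι) (c d E F : (ι → Bool) → ℝ) (hc : ∀ x, c (fl i x) = c x)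
    (hd : ∀ x, d (fl i x) = d x) (hE : ∀ x, E (fl i x) = E x) (hF : ∀ x, F (fl i x) = F x)
    (h : ∀ x, c x * c x + d x * d x = 1) :
    Cnj (MM i (fun x => E x + (c x * c x - d x * d x) * F x * sn i x)
      (fun x => 2 * c x * d x * F x) : Mat (ι → Bool))
      (Matrix.diagonal (fun x => E x + F x * sn i x) : Mat (ι → Bool)) := by
  refine ⟨OG.mk' _ (rot_orth i c d hc hd h), ?_⟩
  apply Matrix.of.injective
  rw [of_lr]
  simp only [OG.mk'_mat]
  change MM i _ _ = MM i _ _ * Matrix.diagonal _ * _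
  rw [← MM_diag i, MM_mul, MM_transpose, MM_mul]
  congr 1
  · funext x
    simp only [mul_zero, add_zero, fl_fl, hE, hF, sn_fl_same]
    have := sn_sq i x
    linear_combination (-(E x)) * h x + (-(c x * c x * E x) - c x * c x * F x * sn i x) * this
  · funext x
    simp only [mul_zero, add_zero, zero_add, hE, hF, sn_fl_same, hd, hc]
    have := sn_sq i x
    linear_combination (-2 * c x * d x * F x) * this

end BitsSec

end Helper34.TraceClass
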