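import Pool.Agent.Helper34.Bits

/-!
# The chain of links
-/

set_option linter.unusedSectionVars false

namespace Helper34.TraceClass

open Finset MeasureTheory

section Indep

variable {ι : Type} [Fintype ι] [DecidableEq ι]

/-- `d` does not depend on the bits in `T`. -/
def Indep (T : Finset ι) (d : (ι → Bool) → ℝ) : Prop := ∀ i ∈ T, ∀ x, d (fl i x) = d x

lemma Indep.mono {T T' : Finset ι} {d : (ι → Bool) → ℝ} (h : Indep T d) (hT : T' ⊆ T) :
    Indep T' d := fun i hi x => h i (hT hi) x

lemma Indep.mul {T : Finset ι} {d e : (ι → Bool) → ℝ} (h : Indep T d) (h' : Indep T e) :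
    Indep T (fun x => d x * e x) := fun i hi x => by
  change d (fl i x) * e (fl i x) = d x * e x
  rw [h i hi, h' i hi]

lemma Indep.add {T : Finset ι} {d e : (ι → Bool) → ℝ} (h : Indep T d) (h' : Indep T e) :
    Indep T (fun x => d x + e x) := fun i hi x => by
  change d (fl i x) + e (fl i x) = d x + e x
  rw [h i hi, h' i hi]

lemma Indep.const {T : Finset ι} (t : ℝ) : Indep T (fun _ : ι → Bool => t) := fun _ _ _ => rfl

lemma Indep.sn {T : Finset ι} {k : ι} (h : k ∉ T) : Indep T (sn k) := fun i hi x =>
  sn_fl_ne (by rintro rfl; exact h hi) x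

lemma Indep.eq {T : Finset ι} {d : (ι → Bool) → ℝ} (h : Indep T d) {x y : ι → Bool}
    (hxy : ∀ k, k ∉ T → x k = y k) : d x = d y := by
  classical
  have key : ∀ T' : Finset ι, T' ⊆ T → d (fun k => if k ∈ T' then y k else x k) = d x := by
    intro T'
    induction T' using Finset.induction_on with
    | empty => intro _; simp
    | insert a s ha ih =>
      intro hs
      have hs' : s ⊆ T := (Finset.subset_insert a s).trans hs
      have haT : a ∈ T := hs (Finset.mem_insert_self a s)
      rw [← ih hs']
      by_cases hxa : x a = y a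
      · congr 1
        funext k
        by_cases hk : k = a
        · subst hk; simp [ha, hxa]
        · simp [hk]
      · rw [← h a haT (fun k => if k ∈ s then y k else x k)]
        congr 1
        funext k
        by_cases hk : k = a
        · subst hk
          rw [fl_same]
          simp only [Finset.mem_insert_self, if_true, ha, if_false]
          revert hxa
          cases x k <;> cases y k <;> simp
        · rw [fl_ne hk]
          simp [hk]
  have h1 := key T (Finset.Subset.refl _)
  rw [← h1]
  congr 1
  funext k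
  by_cases hk : k ∈ T
  · simp [hk]
  · simp [hk, hxy k hk]

lemma L1_perm (σ : Equiv.Perm (ι → Bool)) (d : (ι → Bool) → ℝ) :
    L1 (fun x => d (σ x)) = L1 d := by
  unfold L1
  congr 1
  exact Equiv.sum_comp σ (fun x => |d x|)

/-- Multiplying by `(1 + sign) / 2` of a fresh bit halves the `L¹` norm. -/
lemma L1_half {l : ι} {d : (ι → Bool) → ℝ} (h : ∀ x, d (fl l x) = d x) :
    L1 (fun x => d x * (1 + sn l x)) = L1 d := by
  have h1 : L1 (fun x => d x * (1 + sn l x)) = L1 (fun x => d x * (1 - sn l x)) := by
    rw [← L1_perm (flp l)]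
    congr 1
    funext x
    change d (fl l x) * (1 + sn l (fl l x)) = _
    rw [h, sn_fl_same]
    ring
  have h2 : L1 (fun x => d x * (1 + sn l x)) + L1 (fun x => d x * (1 - sn l x)) = 2 * L1 d := by
    unfold L1
    rw [← mul_add, ← Finset.sum_add_distrib]
    have : ∀ x : ι → Bool, |d x * (1 + sn l x)| + |d x * (1 - sn l x)| = 2 * |d x| := by
      intro x
      rw [abs_mul, abs_mul]
      unfold sn
      split <;> norm_num <;> ring
    rw [Finset.sum_congr rfl fun x _ => this x, ← Finset.mul_sum]
    ring
  linarith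

lemma abs_sn (i : ι) (x : ι → Bool) : |sn i x| = 1 := by
  unfold sn; split <;> simp

/-- swapping two bits -/
def swp (i j : ι) : Equiv.Perm (ι → Bool) := (Equiv.swap i j).arrowCongr (Equiv.refl Bool)

lemma swp_apply (i j : ι) (x : ι → Bool) (k : ι) : swp i j x k = x (Equiv.swap i j k) := by
  simp [swp, Equiv.arrowCongr]

lemma Indep.swp {T : Finset ι} {d : (ι → Bool) → ℝ} (h : Indep T d) {i j : ι} (hi : i ∈ T)
    (hj : j ∈ T) (x : ι → Bool) : d (swp i j x) = d x := by
  refine h.eq fun k hk => ?_
  rw [swp_apply, Equiv.swap_apply_of_ne_of_ne]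
  · rintro rfl; exact hk hi
  · rintro rfl; exact hk hj

lemma sn_swp (i j : ι) (x : ι → Bool) : sn j (swp i j x) = sn i x := by
  unfold sn; rw [swp_apply, Equiv.swap_apply_right]

lemma sn_swp_ne {i j l : ι} (hi : l ≠ i) (hj : l ≠ j) (x : ι → Bool) :
    sn l (swp i j x) = sn l x := by
  unfold sn; rw [swp_apply, Equiv.swap_apply_of_ne_of_ne hi hj]

/-- The shear permutation: flip bit `l` if `g x ≠ 1`. -/
noncomputable def shear (l : ι) (g : (ι → Bool) → ℝ) (hg : ∀ x, g (fl l x) = g x) :
    Equiv.Perm (ι → Bool) where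
  toFun := fun x => if g x = 1 then x else fl l x
  invFun := fun x => if g x = 1 then x else fl l x
  left_inv := by
    intro x
    by_cases h : g x = 1
    · simp [h]
    · simp [h, hg]
  right_inv := by
    intro x
    by_cases h : g x = 1
    · simp [h]
    · simp [h, hg]

lemma shear_apply (l : ι) (g : (ι → Bool) → ℝ) (hg : ∀ x, g (fl l x) = g x) (x : ι → Bool) :
    shear l g hg x = if g x = 1 then x else fl l x := rfl

/-- The constant `1 / √2`. -/
noncomputable def kap : ℝ := √2 / 2

lemma kap_sq : kap * kap = 1 / 2 := by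
  unfold kap
  have := Real.mul_self_sqrt (show (0 : ℝ) ≤ 2 by norm_num)
  linear_combination (1 / 4) * this

lemma kap_pos : 0 < kap := by unfold kap; positivity

lemma kap_lt : kap < 1 := by
  have h1 := kap_sq
  have h2 := kap_pos
  nlinarith

lemma trig1 : Real.cos (Real.pi / 8) * Real.cos (Real.pi / 8)
    + Real.sin (Real.pi / 8) * Real.sin (Real.pi / 8) = 1 := by
  have := Real.cos_sq_add_sin_sq (Real.pi / 8)
  linear_combination this

lemma trig2 : Real.cos (Real.pi / 8) * Real.cos (Real.pi / 8)
    - Real.sin (Real.pi / 8) * Real.sin (Real.pi / 8) = kap := by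
  have h1 := Real.cos_two_mul (Real.pi / 8)
  have h2 := Real.cos_sq_add_sin_sq (Real.pi / 8)
  have h3 : 2 * (Real.pi / 8) = Real.pi / 4 := by ring
  rw [h3, Real.cos_pi_div_four] at h1
  unfold kap
  linear_combination -h1 - h2

lemma trig3 : 2 * Real.cos (Real.pi / 8) * Real.sin (Real.pi / 8) = kap := by
  have h1 := Real.sin_two_mul (Real.pi / 8)
  have h3 : 2 * (Real.pi / 8) = Real.pi / 4 := by ring
  rw [h3, Real.sin_pi_div_four] at h1
  unfold kap
  linear_combination -h1

/-- the product of the selected signs -/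
noncomputable def gp {T : Finset ι} {l : ι} (ε : {i // i ∈ T.erase l} → Bool) (x : ι → Bool) : ℝ :=
  ∏ k : {i // i ∈ T.erase l}, (if ε k then sn k.1 x else 1)

lemma gp_fl {T : Finset ι} {l : ι} (ε : {i // i ∈ T.erase l} → Bool)
    (i : {i // i ∈ T.erase l}) (x : ι → Bool) :
    gp ε (fl i.1 x) = (if ε i then -1 else 1) * gp ε x := by
  unfold gp
  have h1 : ∀ k : {i // i ∈ T.erase l}, (if ε k then sn k.1 (fl i.1 x) else 1)
      = (if k = i then (if ε i then (-1 : ℝ) else 1) else 1) * (if ε k then sn k.1 x else 1) := by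
    intro k
    by_cases hk : k = i
    · subst hk
      by_cases he : ε k <;> simp [he]
    · rw [if_neg hk, one_mul, sn_fl_ne (fun h => hk (Subtype.ext h))]
  rw [Finset.prod_congr rfl fun k _ => h1 k, Finset.prod_mul_distrib, Finset.prod_ite_eq']
  simp

lemma gp_fl_l {T : Finset ι} {l : ι} (ε : {i // i ∈ T.erase l} → Bool) (x : ι → Bool) :
    gp ε (fl l x) = gp ε x := by
  unfold gp
  refine Finset.prod_congr rfl fun k _ => ?_
  rw [sn_fl_ne (Finset.ne_of_mem_erase k.2)]

lemma gp_sq {T : Finset ι} {l : ι} (ε : {i // i ∈ T.erase l} → Bool) (x : ι → Bool) :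
    gp ε x * gp ε x = 1 := by
  unfold gp
  rw [← Finset.prod_mul_distrib]
  refine Finset.prod_eq_one fun k _ => ?_
  split
  · exact sn_sq _ _
  · norm_num

/-- Normalised matrix. -/
noncomputable def nM (i : ι) (a b : (ι → Bool) → ℝ) : Mat (ι → Bool) :=
  (1 / (Fintype.card (ι → Bool) : ℝ)) • (MM i a b : Mat (ι → Bool))

lemma sum_MM (i : ι) (a b : (ι → Bool) → ℝ) : nM i (fun _ => 0) b + nd a = nM i a b := by
  funext x y
  change (1 / (Fintype.card (ι → Bool) : ℝ)) * MM i (fun _ => 0) b x y
    + (1 / (Fintype.card (ι → Bool) : ℝ)) * Matrix.diagonal a x y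
    = (1 / (Fintype.card (ι → Bool) : ℝ)) * MM i a b x y
  rw [← MM_diag i, MM_apply, MM_apply, MM_apply]
  split <;> split <;> ring

/-- conjugation in the anticommuting case -/
lemma cnj_anti {T : Finset ι} {j l : ι} (hj : j ∈ T)
    {B C : (ι → Bool) → ℝ} (hB : Indep T B) (hC : Indep T C)
    (ε : {i // i ∈ T.erase l} → Bool) (i : {i // i ∈ T.erase l}) (hi : ε i = true) :
    Cnj (nM i.1 (fun _ => 0) (fun x => kap * C x)
        + nd (fun x => B x + kap * C x * (sn l x * gp ε x)))
      (nd (fun x => B x + C x * sn j x)) := by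
  have hiT : i.1 ∈ T := Finset.mem_of_mem_erase i.2
  have hil : i.1 ≠ l := Finset.ne_of_mem_erase i.2
  set β : (ι → Bool) → ℝ := fun x => sn l x * gp ε x * sn i.1 x with hβ
  have hβfl : ∀ x, β (fl i.1 x) = β x := by
    intro x
    simp only [hβ]
    rw [gp_fl, sn_fl_same, sn_fl_ne hil.symm, hi]
    simp
  have hβsq : ∀ x, β x * β x = 1 := by
    intro x
    simp only [hβ]
    linear_combination (sn i.1 x * sn i.1 x * (sn l x * sn l x)) * gp_sq ε x
      + (sn i.1 x * sn i.1 x) * sn_sq l x + sn_sq i.1 x
  have hβ1 : ∀ x, β x = 1 ∨ β x = -1 := fun x => mul_self_eq_one_iff.mp (hβsq x)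
  rw [sum_MM]
  refine Cnj.trans (y := nd (fun x => B x + C x * sn i.1 x)) ?_ ?_
  · have key := conjL i.1 (fun x => if β x = 1 then Real.cos (Real.pi / 8) else
        Real.sin (Real.pi / 8)) (fun x => if β x = 1 then Real.sin (Real.pi / 8) else
        Real.cos (Real.pi / 8)) B C (fun x => by simp only [hβfl]) (fun x => by simp only [hβfl])
      (hB _ hiT) (hC _ hiT) (fun x => by
        have := trig1
        by_cases h : β x = 1
        · simp only [h, if_true]; exact this
        · simp only [h, if_false]; linarith)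
    have key2 := key.smul (1 / (Fintype.card (ι → Bool) : ℝ))
    have e1 : (MM i.1 (fun x => B x + ((if β x = 1 then Real.cos (Real.pi / 8) else
        Real.sin (Real.pi / 8)) * (if β x = 1 then Real.cos (Real.pi / 8) else
        Real.sin (Real.pi / 8)) - (if β x = 1 then Real.sin (Real.pi / 8) else
        Real.cos (Real.pi / 8)) * (if β x = 1 then Real.sin (Real.pi / 8) else
        Real.cos (Real.pi / 8))) * C x * sn i.1 x)
        (fun x => 2 * (if β x = 1 then Real.cos (Real.pi / 8) else
        Real.sin (Real.pi / 8)) * (if β x = 1 then Real.sin (Real.pi / 8) else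
        Real.cos (Real.pi / 8)) * C x))
        = MM i.1 (fun x => B x + kap * C x * (sn l x * gp ε x)) (fun x => kap * C x) := by
      congr 1
      · funext x
        have h2 := trig2
        have hs := sn_sq i.1 x
        have hb : sn l x * gp ε x = β x * sn i.1 x := by
          simp only [hβ]; linear_combination (-(sn l x * gp ε x)) * hs
        rw [hb]
        rcases hβ1 x with h | h
        · simp only [h, if_true]
          linear_combination (C x * sn i.1 x) * h2
        · have h' : ¬ ((-1 : ℝ) = 1) := by norm_num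
          simp only [h, h', if_false]
          linear_combination (-(C x * sn i.1 x)) * h2
      · funext x
        have h3 := trig3
        rcases hβ1 x with h | h
        · simp only [h, if_true]
          linear_combination (C x) * h3
        · have h' : ¬ ((-1 : ℝ) = 1) := by norm_num
          simp only [h, h', if_false]
          linear_combination (C x) * h3
    rw [e1] at key2
    exact key2
  · have h1 := Cnj_perm (swp i.1 j) (fun x => B x + C x * sn j x)
    have e2 : (fun x => B (swp i.1 j x) + C (swp i.1 j x) * sn j (swp i.1 j x))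
        = (fun x => B x + C x * sn i.1 x) := by
      funext x
      rw [hB.swp hiT hj, hC.swp hiT hj, sn_swp]
    rw [← e2]
    exact h1

/-- conjugation in the commuting case -/
lemma cnj_comm {T : Finset ι} {j l : ι} (hj : j ∈ T) (hl : l ∈ T) (hjl : j ≠ l)
    {B C : (ι → Bool) → ℝ} (hB : Indep T B) (hC : Indep T C)
    (ε : {i // i ∈ T.erase l} → Bool) (i : {i // i ∈ T.erase l}) (hi : ε i = false) :
    Cnj (nM i.1 (fun _ => 0) (fun x => kap * C x)
        + nd (fun x => B x + kap * C x * (sn l x * gp ε x)))
      (nd (fun x => B x + kap * C x * (1 + sn l x) * sn j x)) := by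
  have hiT : i.1 ∈ T := Finset.mem_of_mem_erase i.2
  have hil : i.1 ≠ l := Finset.ne_of_mem_erase i.2
  have hgfl : ∀ x, gp ε (fl i.1 x) = gp ε x := by
    intro x
    rw [gp_fl, hi]
    simp
  rw [sum_MM]
  refine Cnj.trans (y := nd (fun x => B x + kap * C x * (sn l x * gp ε x)
    + kap * C x * sn i.1 x)) ?_ ?_
  · have key := conjL i.1 (fun _ => kap) (fun _ => kap)
      (fun x => B x + kap * C x * (sn l x * gp ε x)) (fun x => kap * C x)
      (fun _ => rfl) (fun _ => rfl) (fun x => by
        rw [hB _ hiT, hC _ hiT, hgfl, sn_fl_ne hil.symm]) (fun x => by rw [hC _ hiT])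
      (fun x => by have := kap_sq; linarith)
    have key2 := key.smul (1 / (Fintype.card (ι → Bool) : ℝ))
    have e1 : (MM i.1 (fun x => B x + kap * C x * (sn l x * gp ε x)
        + (kap * kap - kap * kap) * (kap * C x) * sn i.1 x)
        (fun x => 2 * kap * kap * (kap * C x)))
        = MM i.1 (fun x => B x + kap * C x * (sn l x * gp ε x)) (fun x => kap * C x) := by
      congr 1
      · funext x; ring
      · funext x
        linear_combination (2 * kap * C x) * kap_sq
    rw [e1] at key2
    exact key2
  · have hg2 : ∀ x, gp ε (fl l x) * sn i.1 (fl l x) = gp ε x * sn i.1 x := by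
      intro x
      rw [gp_fl_l, sn_fl_ne hil]
    have h1 := Cnj_perm ((shear l (fun x => gp ε x * sn i.1 x) hg2).trans (swp i.1 j))
      (fun x => B x + kap * C x * (1 + sn l x) * sn j x)
    have e2 : (fun x => B (((shear l (fun x => gp ε x * sn i.1 x) hg2).trans (swp i.1 j)) x)
        + kap * C (((shear l (fun x => gp ε x * sn i.1 x) hg2).trans (swp i.1 j)) x)
          * (1 + sn l (((shear l (fun x => gp ε x * sn i.1 x) hg2).trans (swp i.1 j)) x))
          * sn j (((shear l (fun x => gp ε x * sn i.1 x) hg2).trans (swp i.1 j)) x))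
        = (fun x => B x + kap * C x * (sn l x * gp ε x) + kap * C x * sn i.1 x) := by
      funext x
      rw [Equiv.trans_apply, hB.swp hiT hj, hC.swp hiT hj, sn_swp,
        sn_swp_ne hil.symm hjl.symm, shear_apply]
      have hs := sn_sq i.1 x
      have hg := gp_sq ε x
      by_cases h : gp ε x * sn i.1 x = 1
      · rw [if_pos h]
        have h4 : gp ε x = sn i.1 x := by
          linear_combination (sn i.1 x) * h - (gp ε x) * hs
        rw [h4]
        ring
      · rw [if_neg h, hB _ hl, hC _ hl, sn_fl_same, sn_fl_ne hil]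
        have h' : gp ε x * sn i.1 x = -1 := by
          have h2 : (gp ε x * sn i.1 x) * (gp ε x * sn i.1 x) = 1 := by
            linear_combination (sn i.1 x * sn i.1 x) * hg + hs
          rcases mul_self_eq_one_iff.mp h2 with h3 | h3
          · exact absurd h3 h
          · exact h3
        have h4 : gp ε x = -sn i.1 x := by
          linear_combination (sn i.1 x) * h' - (gp ε x) * hs
        rw [h4]
        ring
    rw [← e2]
    exact h1

end Indep

end Helper34.TraceClass
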