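import Pool.Agent.Helper34.Link

/-!
# The contradiction with polynomial growth
-/

set_option linter.unusedSectionVars false

namespace Helper34.TraceClass

open MeasureTheory Metric Filter Topology
open scoped ENNReal

section

variable {V Y K U : Type*}
  [NormedAddCommGroup V] [NormedSpace ℝ V] [FiniteDimensional ℝ V] [MeasurableSpace V]
  [BorelSpace V]
  [NormedAddCommGroup Y] [NormedSpace ℝ Y] [CompleteSpace Y]
  [Group K] [TopologicalSpace K] [IsTopologicalGroup K] [CompactSpace K]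
  [SecondCountableTopology K] [MeasurableSpace K] [BorelSpace K]
  [Group U] [TopologicalSpace U] [IsTopologicalGroup U] [CompactSpace U]
  [SecondCountableTopology U] [MeasurableSpace U] [BorelSpace U]

variable {S : Act V K U} {mU : Measure U} [IsProbabilityMeasure mU] [mU.IsMulRightInvariant]
  {m : Measure K} [IsProbabilityMeasure m] [m.IsMulRightInvariant]
  {μ : Measure V} [μ.IsAddHaarMeasure]

lemma Jw_le_Ad {ν : V → ℝ} {f : V → Y} {W : V → ℝ} {B : ℝ → ℝ} {c : ℝ}
    (G : Good ν f W B c) (hν : ∀ k x, ν (S.act k x) = ν x) {C0 : V} (hC : ν C0 = c)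
    (hfix : ∀ u, S.act (S.del u) C0 = C0) (R : ℝ) :
    Jw μ W R ≤ Ad S mU m μ f R C0 0 := by
  have h1 : Jw μ W R = ∫⁻ _k : K, Jw μ W R ∂m := by
    rw [lintegral_const, measure_univ, mul_one]
  rw [h1]
  refine lintegral_mono fun k => lintegral_mono fun v => ?_
  have e1 : Fav S mU f C0 k v = f (v + S.act k C0) := by
    unfold Fav
    simp only [S.act_mul, hfix, integral_const, probReal_univ, one_smul]
  have e2 : Fav S mU f 0 k v = f v := by
    unfold Fav
    simp only [S.act_zero, add_zero, integral_const, probReal_univ, one_smul]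
  rw [e1, e2, ← ofReal_norm]
  refine ENNReal.ofReal_le_ofReal (G.lower _ _ ?_)
  rw [add_sub_cancel_left, hν, hC]

lemma tendsto_geom_poly {r : ℝ} (hr0 : 0 ≤ r) (hr1 : r < 1) (s : ℝ) (D : ℕ) :
    Tendsto (fun j : ℕ => r ^ j * (2 + j * s) ^ D) atTop (𝓝 0) := by
  induction D with
  | zero => simpa using tendsto_pow_atTop_nhds_zero_of_lt_one hr0 hr1
  | succ D _ =>
    have h1 : ∀ i : ℕ, Tendsto (fun j : ℕ => (j : ℝ) ^ i * r ^ j) atTop (𝓝 0) := fun i =>
      tendsto_pow_const_mul_const_pow_of_lt_one i hr0 hr1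
    have h2 : ∀ j : ℕ, r ^ j * (2 + j * s) ^ (D + 1)
        = ∑ i ∈ Finset.range (D + 1 + 1), (((j : ℝ) ^ (D + 1 - i) * r ^ j)
          * (2 ^ i * s ^ (D + 1 - i) * ((D + 1).choose i : ℝ))) := by
      intro j
      rw [add_pow, Finset.mul_sum]
      refine Finset.sum_congr rfl fun i _ => ?_
      rw [mul_pow]
      ring
    simp_rw [h2]
    have : (0 : ℝ) = ∑ i ∈ Finset.range (D + 1 + 1),
        (0 * (2 ^ i * s ^ (D + 1 - i) * ((D + 1).choose i : ℝ))) := by simp
    rw [this]
    exact tendsto_finsetSum _ fun i _ => (h1 _).mul_const _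

lemma growth_false {W : V → ℝ} (hW : Continuous W) (hWpos : ∀ v, 0 < W v)
    {M : ℝ} {D : ℕ} (hpoly : ∀ v, W v ≤ M * (1 + ‖v‖) ^ D)
    {ρ : ℝ} (hρ0 : 0 ≤ ρ) (hρ : ρ < 1) {s : ℝ} (hs : 0 ≤ s)
    (h : ∀ R, 0 ≤ R → Jw μ W R ≤ ENNReal.ofReal ρ * Jw μ W (R + s)) : False := by
  have hM : 0 < M := by
    have h1 := (hWpos 0).trans_le (hpoly 0)
    simpa using h1
  -- upper bound for `Jw`
  have hup : ∀ R, 1 ≤ R → Jw μ W R
      ≤ ENNReal.ofReal (M * (1 + R) ^ (D + Module.finrank ℝ V)) * μ (closedBall 0 1) := by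
    intro R hR
    have hR0 : 0 ≤ R := by linarith
    have h1 : Jw μ W R ≤ ∫⁻ _v in closedBall (0 : V) R, ENNReal.ofReal (M * (1 + R) ^ D) ∂μ := by
      refine setLIntegral_mono measurable_const fun v hv => ?_
      refine ENNReal.ofReal_le_ofReal ((hpoly v).trans ?_)
      rw [mem_closedBall_zero_iff] at hv
      have : 0 ≤ 1 + ‖v‖ := by positivity
      gcongr
    rw [setLIntegral_const] at h1
    refine h1.trans ?_
    rw [Measure.addHaar_closedBall' μ (0 : V) hR0, ← mul_assoc,
      ← ENNReal.ofReal_mul (by positivity)]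
    refine mul_le_mul' (ENNReal.ofReal_le_ofReal ?_) le_rfl
    rw [pow_add, ← mul_assoc]
    have : R ^ Module.finrank ℝ V ≤ (1 + R) ^ Module.finrank ℝ V :=
      pow_le_pow_left₀ hR0 (by linarith) _
    exact mul_le_mul_of_nonneg_left this (by positivity)
  -- iterate
  have hit : ∀ j : ℕ, Jw μ W 1 ≤ ENNReal.ofReal (ρ ^ j) * Jw μ W (1 + j * s) := by
    intro j
    induction j with
    | zero => simp
    | succ j ih =>
      refine ih.trans ?_
      have h1 := h (1 + j * s) (by positivity)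
      calc ENNReal.ofReal (ρ ^ j) * Jw μ W (1 + j * s)
          ≤ ENNReal.ofReal (ρ ^ j) * (ENNReal.ofReal ρ * Jw μ W (1 + j * s + s)) :=
            mul_le_mul' le_rfl h1
        _ = _ := by
            rw [← mul_assoc, ← ENNReal.ofReal_mul (by positivity), ← pow_succ]
            congr 2
            push_cast
            ring
  have hball : μ (closedBall (0 : V) 1) ≠ ∞ :=
    (isCompact_closedBall (0 : V) 1).measure_lt_top.ne
  have hlim : Tendsto (fun j : ℕ => ENNReal.ofReal (M * (ρ ^ j * (2 + j * s) ^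
      (D + Module.finrank ℝ V))) * μ (closedBall (0 : V) 1)) atTop (𝓝 0) := by
    have h1 := (tendsto_geom_poly hρ0 hρ s (D + Module.finrank ℝ V)).const_mul M
    rw [mul_zero] at h1
    have h2 := (ENNReal.tendsto_ofReal h1)
    rw [ENNReal.ofReal_zero] at h2
    have h3 := ENNReal.Tendsto.mul_const h2 (Or.inr hball)
    rwa [zero_mul] at h3
  have hle : ∀ j : ℕ, Jw μ W 1 ≤ ENNReal.ofReal (M * (ρ ^ j * (2 + j * s) ^
      (D + Module.finrank ℝ V))) * μ (closedBall (0 : V) 1) := by
    intro j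
    refine (hit j).trans ?_
    refine (mul_le_mul' le_rfl (hup (1 + j * s) (by
      have : 0 ≤ (j : ℝ) * s := by positivity
      linarith))).trans (le_of_eq ?_)
    rw [← mul_assoc, ← ENNReal.ofReal_mul (by positivity)]
    congr 2
    ring
  have hzero : Jw μ W 1 = 0 := le_antisymm (ge_of_tendsto' hlim hle) bot_le
  have hpos : 0 < Jw μ W 1 := by
    unfold Jw
    rw [lintegral_pos_iff_support (hW.measurable.ennreal_ofReal)]
    have hsupp : Function.support (fun v => ENNReal.ofReal (W v)) = Set.univ := by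
      ext v
      simp [hWpos v]
    rw [hsupp, Measure.restrict_apply MeasurableSet.univ, Set.univ_inter]
    exact measure_closedBall_pos μ (0 : V) one_pos
  exact hpos.ne' hzero

/-- The final contradiction. -/
lemma close_false {ν : V → ℝ} {f : V → Y} {W : V → ℝ} {B : ℝ → ℝ} {c : ℝ}
    (G : Good ν f W B c) (hν : ∀ k x, ν (S.act k x) = ν x) {C0 : V} (hC : ν C0 = c)
    (hfix : ∀ u, S.act (S.del u) C0 = C0) (hWpos : ∀ v, 0 < W v)
    {M : ℝ} {D : ℕ} (hpoly : ∀ v, W v ≤ M * (1 + ‖v‖) ^ D) {ρ : ℝ} (hρ : ρ < 1)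
    (h : Close S mU m μ f W ρ C0 0) : False := by
  obtain ⟨hρ0, s, hs, h⟩ := h
  exact growth_false (μ := μ) G.W_cont hWpos hpoly hρ0 hρ hs
    fun R hR => (Jw_le_Ad G hν hC hfix R).trans (h R hR)

end

end Helper34.TraceClass
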