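import Mathlib

/-!
A transfinite triangular matrix and the associated closed subspace of `l_∞(ω₁)`.
-/

open Set Filter Topology

set_option linter.unusedSectionVars false
set_option linter.unusedSimpArgs false
set_option linter.deprecated false

noncomputable section

open scoped Classical

namespace Pool.Agent.Helper34.Gur

/-- The index set: a well-ordered set of order type `ω₁`. -/
def Idx : Type := (Cardinal.ord (Cardinal.aleph 1)).ToType

instance : LinearOrder Idx :=
  inferInstanceAs (LinearOrder (Cardinal.ord (Cardinal.aleph 1)).ToType)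
instance : WellFoundedLT Idx :=
  inferInstanceAs (WellFoundedLT (Cardinal.ord (Cardinal.aleph 1)).ToType)
instance : TopologicalSpace Idx := ⊥
instance : DiscreteTopology Idx := ⟨rfl⟩

lemma mk_Idx : Cardinal.mk Idx = Cardinal.aleph 1 :=
  Cardinal.mk_ord_toType _

instance : Infinite Idx := by
  rw [Cardinal.infinite_iff, mk_Idx]
  exact Cardinal.aleph0_le_aleph 1

lemma countable_Iio (i : Idx) : (Iio i).Countable := by
  have h : Cardinal.mk (Iio i) < Cardinal.aleph 1 := Cardinal.mk_Iio_ord_toType i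
  rw [← Cardinal.le_aleph0_iff_set_countable]
  have h2 : Cardinal.aleph 1 = Order.succ Cardinal.aleph0 := by
    rw [← Cardinal.succ_aleph0]
  rw [h2] at h
  exact Order.lt_succ_iff.1 h

lemma countable_Iic (i : Idx) : (Iic i).Countable := by
  have : Iic i = insert i (Iio i) := by
    ext j; simp [le_iff_eq_or_lt]
  rw [this]
  exact (countable_Iio i).insert i

lemma mk_tasks : Cardinal.mk (Idx →₀ ℚ) = Cardinal.aleph 1 := by
  rw [Cardinal.mk_finsupp_of_infinite, mk_Idx, Cardinal.mkRat]
  exact max_eq_left (Cardinal.aleph0_le_aleph 1)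

lemma exists_bookkeeping : ∃ b : Idx → (Idx →₀ ℚ), ∀ τ : Idx →₀ ℚ, ∀ i : Idx,
    ∃ j, i < j ∧ b j = τ := by
  have h : Cardinal.mk Idx = Cardinal.mk (Idx × (Idx →₀ ℚ)) := by
    rw [Cardinal.mk_prod, Cardinal.lift_id, Cardinal.lift_id, mk_tasks, mk_Idx]
    exact (Cardinal.mul_eq_self (Cardinal.aleph0_le_aleph 1)).symm
  obtain ⟨E⟩ := Cardinal.eq.1 h
  refine ⟨fun j => (E j).2, fun τ i => ?_⟩
  by_contra hcon
  push Not at hcon
  have h1 : range (fun k : Idx => E.symm (k, τ)) ⊆ Iic i := by
    rintro j ⟨k, rfl⟩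
    by_contra hk
    have hk' : i < E.symm (k, τ) := not_le.1 hk
    exact hcon _ hk' (by simp)
  have h2 : (range (fun k : Idx => E.symm (k, τ))).Countable := (countable_Iic i).mono h1
  have h3 : Function.Injective (fun k : Idx => E.symm (k, τ)) := by
    intro k l hkl
    have := E.symm.injective hkl
    exact (Prod.ext_iff.1 this).1
  have h4 : Countable Idx := by
    have := h2.preimage_of_injOn (f := fun k : Idx => E.symm (k, τ)) h3.injOn
    rw [preimage_range] at this
    exact countable_univ_iff.1 this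
  have h5 : Cardinal.mk Idx ≤ Cardinal.aleph0 := Cardinal.mk_le_aleph0_iff.2 h4
  rw [mk_Idx] at h5
  exact absurd h5 (not_le.2 Cardinal.aleph0_lt_aleph_one)

/-- the bookkeeping function -/
def bk : Idx → (Idx →₀ ℚ) := exists_bookkeeping.choose

lemma bk_spec (τ : Idx →₀ ℚ) (i : Idx) : ∃ j, i < j ∧ bk j = τ :=
  exists_bookkeeping.choose_spec τ i

/-- valid tasks -/
def Valid (j : Idx) (τ : Idx →₀ ℚ) : Prop :=
  (∀ s ∈ τ.support, s < j) ∧ ∑ s ∈ τ.support, |(τ s : ℝ)| ≤ 1

/-- rows of the matrix -/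
def row (j : Idx) : Idx →₀ ℚ := if Valid j (bk j) then bk j else 0

lemma row_valid (j : Idx) : Valid j (row j) := by
  unfold row
  split_ifs with h
  · exact h
  · constructor <;> simp

lemma row_lt {j s : Idx} (h : s ∈ (row j).support) : s < j := (row_valid j).1 s h

/-- the row functional -/
def rowF (j : Idx) (x : Idx → ℝ) : ℝ := ∑ s ∈ (row j).support, (row j s : ℝ) * x s

lemma rowF_congr {j : Idx} {x y : Idx → ℝ} (h : ∀ s < j, x s = y s) : rowF j x = rowF j y :=
  Finset.sum_congr rfl (fun s hs => by rw [h s (row_lt hs)])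

lemma rowF_bound {j : Idx} {x : Idx → ℝ} {C : ℝ} (hC : 0 ≤ C) (h : ∀ s < j, |x s| ≤ C) :
    |rowF j x| ≤ C := by
  unfold rowF
  calc |∑ s ∈ (row j).support, (row j s : ℝ) * x s|
      ≤ ∑ s ∈ (row j).support, |(row j s : ℝ) * x s| := Finset.abs_sum_le_sum_abs _ _
    _ ≤ ∑ s ∈ (row j).support, |(row j s : ℝ)| * C := by
        apply Finset.sum_le_sum
        intro s hs
        rw [abs_mul]
        exact mul_le_mul_of_nonneg_left (h s (row_lt hs)) (abs_nonneg _)
    _ = (∑ s ∈ (row j).support, |(row j s : ℝ)|) * C := by rw [Finset.sum_mul]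
    _ ≤ 1 * C := mul_le_mul_of_nonneg_right (row_valid j).2 hC
    _ = C := one_mul C

lemma rowF_add (j : Idx) (x y : Idx → ℝ) : rowF j (x + y) = rowF j x + rowF j y := by
  unfold rowF
  rw [← Finset.sum_add_distrib]
  exact Finset.sum_congr rfl (fun s _ => by rw [Pi.add_apply]; ring)

lemma rowF_smul (j : Idx) (c : ℝ) (x : Idx → ℝ) : rowF j (c • x) = c * rowF j x := by
  unfold rowF
  rw [Finset.mul_sum]
  exact Finset.sum_congr rfl (fun s _ => by rw [Pi.smul_apply, smul_eq_mul]; ring)

lemma rowF_zero (j : Idx) : rowF j 0 = 0 := by simp [rowF]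

/-- The extension operator: keep the values on `L`, and use the rows elsewhere. -/
def extF (L : Set Idx) (x : Idx → ℝ) : Idx → ℝ :=
  (wellFounded_lt (α := Idx)).fix (fun j rec => if j ∈ L then x j else
    ∑ s ∈ (row j).support, if h : s < j then (row j s : ℝ) * rec s h else 0)

lemma extF_mem {L : Set Idx} {x : Idx → ℝ} {j : Idx} (h : j ∈ L) : extF L x j = x j := by
  unfold extF
  rw [WellFounded.fix_eq]
  simp [h]

lemma extF_not_mem {L : Set Idx} {x : Idx → ℝ} {j : Idx} (h : j ∉ L) :
    extF L x j = rowF j (extF L x) := by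
  conv_lhs => unfold extF
  rw [WellFounded.fix_eq]
  simp only [h, if_false]
  unfold rowF
  apply Finset.sum_congr rfl
  intro s hs
  rw [dif_pos (row_lt hs)]
  rfl

/-- the coefficient functionals -/
def coef (j : Idx) (x : Idx → ℝ) : ℝ := x j - rowF j x

lemma coef_add (j : Idx) (x y : Idx → ℝ) : coef j (x + y) = coef j x + coef j y := by
  unfold coef; rw [rowF_add, Pi.add_apply]; ring

lemma coef_smul (j : Idx) (c : ℝ) (x : Idx → ℝ) : coef j (c • x) = c * coef j x := by
  unfold coef; rw [rowF_smul, Pi.smul_apply, smul_eq_mul]; ring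

lemma coef_zero (j : Idx) : coef j 0 = 0 := by simp [coef, rowF_zero]

lemma coef_extF {L : Set Idx} {x : Idx → ℝ} {j : Idx} (h : j ∉ L) : coef j (extF L x) = 0 := by
  unfold coef; rw [← extF_not_mem h, sub_self]

/-- uniqueness: a function is determined by its coefficients, or values -/
lemma eq_of_coef {x y : Idx → ℝ} (h : ∀ j, x j = y j ∨ coef j x = coef j y) : x = y := by
  funext j
  induction j using (wellFounded_lt (α := Idx)).induction with
  | _ j ih =>
    rcases h j with h1 | h1
    · exact h1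
    · unfold coef at h1
      rw [rowF_congr ih] at h1
      linarith

lemma extF_bound {L : Set Idx} {x : Idx → ℝ} {C : ℝ} (hC : 0 ≤ C) (h : ∀ s ∈ L, |x s| ≤ C)
    (j : Idx) : |extF L x j| ≤ C := by
  induction j using (wellFounded_lt (α := Idx)).induction with
  | _ j ih =>
    by_cases hj : j ∈ L
    · rw [extF_mem hj]; exact h j hj
    · rw [extF_not_mem hj]; exact rowF_bound hC ih

lemma extF_add (L : Set Idx) (x y : Idx → ℝ) : extF L (x + y) = extF L x + extF L y := by
  apply eq_of_coef
  intro j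
  by_cases hj : j ∈ L
  · left
    rw [extF_mem hj, Pi.add_apply, Pi.add_apply, extF_mem hj, extF_mem hj]
  · right
    rw [coef_extF hj, coef_add, coef_extF hj, coef_extF hj, add_zero]

lemma extF_smul (L : Set Idx) (c : ℝ) (x : Idx → ℝ) : extF L (c • x) = c • extF L x := by
  apply eq_of_coef
  intro j
  by_cases hj : j ∈ L
  · left
    rw [extF_mem hj, Pi.smul_apply, Pi.smul_apply, extF_mem hj]
  · right
    rw [coef_extF hj, coef_smul, coef_extF hj, mul_zero]

/-- The space `l_∞(ω₁)`. -/
abbrev LI : Type := BoundedContinuousFunction Idx ℝ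

def mkL (f : Idx → ℝ) (C : ℝ) (h : ∀ k, |f k| ≤ C) : LI :=
  BoundedContinuousFunction.ofNormedAddCommGroupDiscrete f C h

@[simp] lemma mkL_apply (f : Idx → ℝ) (C : ℝ) (h : ∀ k, |f k| ≤ C) (k : Idx) :
    mkL f C h k = f k := rfl

lemma abs_le_norm (x : LI) (j : Idx) : |x j| ≤ ‖x‖ := x.norm_coe_le_norm j

/-- the extension operator on `l_∞(ω₁)` -/
def extL (L : Set Idx) : LI →L[ℝ] LI :=
  LinearMap.mkContinuous
    { toFun := fun x => mkL (extF L x) ‖x‖
        (extF_bound (norm_nonneg _) (fun s _ => abs_le_norm x s))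
      map_add' := fun x y => by
        ext j
        simp only [mkL_apply, BoundedContinuousFunction.coe_add, extF_add, Pi.add_apply]
      map_smul' := fun c x => by
        ext j
        exact congrFun (extF_smul L c x) j } 1
    (fun x => by
      rw [one_mul, BoundedContinuousFunction.norm_le (norm_nonneg _)]
      exact fun j => extF_bound (norm_nonneg _) (fun s _ => abs_le_norm x s) j)

lemma extL_apply (L : Set Idx) (x : LI) (j : Idx) : extL L x j = extF L x j := rfl

lemma extL_coe (L : Set Idx) (x : LI) : (extL L x : Idx → ℝ) = extF L x := rfl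

lemma extL_norm_le (L : Set Idx) : ‖extL L‖ ≤ 1 :=
  LinearMap.mkContinuous_norm_le _ zero_le_one _

/-- indicator of a point -/
def ind (i : Idx) : LI := mkL (fun j => if j = i then 1 else 0) 1 (fun j => by
  split_ifs <;> simp)

lemma ind_apply (i j : Idx) : ind i j = if j = i then 1 else 0 := rfl

/-- the basis vectors -/
def ev (i : Idx) : LI := extL (Iic i) (ind i)

lemma ev_lt {i j : Idx} (h : j < i) : ev i j = 0 := by
  unfold ev
  rw [extL_apply, extF_mem (show j ∈ Iic i from h.le), ind_apply, if_neg h.ne]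

lemma ev_self (i : Idx) : ev i i = 1 := by
  unfold ev
  rw [extL_apply, extF_mem (show i ∈ Iic i from le_refl i), ind_apply, if_pos rfl]

lemma rowF_ev {i j : Idx} (h : j ≤ i) : rowF j (ev i) = 0 := by
  have : rowF j (ev i) = rowF j 0 :=
    rowF_congr (fun s hs => by rw [ev_lt (lt_of_lt_of_le hs h)]; rfl)
  rw [this, rowF_zero]

lemma coef_ev (i j : Idx) : coef j (ev i) = if j = i then 1 else 0 := by
  rcases lt_trichotomy j i with h | h | h
  · unfold coef
    rw [rowF_ev h.le, ev_lt h, if_neg h.ne, sub_zero]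
  · subst h
    unfold coef
    rw [rowF_ev le_rfl, ev_self, if_pos rfl, sub_zero]
  · rw [if_neg h.ne']
    exact coef_extF (fun hj => absurd hj (not_le.2 h))

/-- vectors with coefficients vanishing outside `S` -/
def Supp (S : Set Idx) : Submodule ℝ LI where
  carrier := {x | ∀ j, j ∉ S → coef j x = 0}
  zero_mem' := fun j _ => coef_zero j
  add_mem' := fun {x y} hx hy j hj => by
    have : coef j ((x + y : LI) : Idx → ℝ) = coef j x + coef j y := coef_add j x y
    rw [this, hx j hj, hy j hj, add_zero]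
  smul_mem' := fun c x hx j hj => by
    have : coef j ((c • x : LI) : Idx → ℝ) = c * coef j x := coef_smul j c x
    rw [this, hx j hj, mul_zero]

lemma mem_Supp {S : Set Idx} {x : LI} : x ∈ Supp S ↔ ∀ j, j ∉ S → coef j x = 0 := Iff.rfl

lemma Supp_mono {S T : Set Idx} (h : S ⊆ T) : Supp S ≤ Supp T :=
  fun _ hx j hj => hx j (fun h' => hj (h h'))

lemma Supp_eq_ext {S : Set Idx} {x : LI} (hx : x ∈ Supp S) : (x : Idx → ℝ) = extF S x := by
  apply eq_of_coef
  intro j
  by_cases hj : j ∈ S
  · left; rw [extF_mem hj]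
  · right; rw [coef_extF hj]; exact hx j hj

lemma Supp_norm_le {S : Set Idx} {x : LI} (hx : x ∈ Supp S) {C : ℝ} (hC : 0 ≤ C)
    (h : ∀ s ∈ S, |x s| ≤ C) : ‖x‖ ≤ C := by
  rw [BoundedContinuousFunction.norm_le hC]
  intro j
  rw [Supp_eq_ext hx]
  exact extF_bound hC h j

lemma extL_mem_Supp (S : Set Idx) (x : LI) : extL S x ∈ Supp S :=
  fun _ hj => coef_extF hj

lemma ev_mem_Supp {S : Set Idx} {i : Idx} (h : i ∈ S) : ev i ∈ Supp S := by
  intro j hj
  have hne : j ≠ i := fun h' => hj (by rw [h']; exact h)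
  rw [coef_ev, if_neg hne]

lemma coef_sum (j : Idx) (S : Finset Idx) (c : Idx → ℝ) :
    coef j ((∑ s ∈ S, c s • ev s : LI) : Idx → ℝ) = if j ∈ S then c j else 0 := by
  induction S using Finset.induction_on with
  | empty => simp; exact coef_zero j
  | insert a S ha ih =>
    rw [Finset.sum_insert ha]
    have h1 : coef j ((c a • ev a + ∑ s ∈ S, c s • ev s : LI) : Idx → ℝ)
      = coef j ((c a • ev a : LI) : Idx → ℝ) + coef j ((∑ s ∈ S, c s • ev s : LI) : Idx → ℝ) :=
      coef_add j _ _
    have h2 : coef j ((c a • ev a : LI) : Idx → ℝ) = c a * coef j (ev a) := coef_smul j _ _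
    rw [h1, h2, ih, coef_ev]
    by_cases hj : j = a
    · subst hj; simp [ha]
    · simp [hj]

lemma Supp_finset {S : Finset Idx} {x : LI} (hx : x ∈ Supp (S : Set Idx)) :
    x = ∑ s ∈ S, coef s x • ev s := by
  have : (x : Idx → ℝ) = ((∑ s ∈ S, coef s x • ev s : LI) : Idx → ℝ) := by
    apply eq_of_coef
    intro j
    right
    rw [coef_sum j S (fun s => coef s x)]
    split_ifs with hj
    · rfl
    · exact hx j (by simpa using hj)
  exact BoundedContinuousFunction.ext (fun j => congrFun this j)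

/-- span of the basis vectors -/
def Sp : Submodule ℝ LI := Submodule.span ℝ (range ev)

lemma Supp_le_Sp (S : Finset Idx) : Supp (S : Set Idx) ≤ Sp := by
  intro x hx
  rw [Supp_finset hx]
  exact Submodule.sum_mem _ (fun s _ => Submodule.smul_mem _ _
    (Submodule.subset_span ⟨s, rfl⟩))

lemma mem_Sp {x : LI} (hx : x ∈ Sp) : ∃ S : Finset Idx, x ∈ Supp (S : Set Idx) := by
  induction hx using Submodule.span_induction with
  | mem x h =>
    obtain ⟨i, rfl⟩ := h
    exact ⟨{i}, ev_mem_Supp (by simp)⟩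
  | zero => exact ⟨∅, Submodule.zero_mem _⟩
  | add x y _ _ h1 h2 =>
    obtain ⟨S, hS⟩ := h1
    obtain ⟨T, hT⟩ := h2
    refine ⟨S ∪ T, Submodule.add_mem _ (Supp_mono ?_ hS) (Supp_mono ?_ hT)⟩ <;> simp
  | smul c x _ h =>
    obtain ⟨S, hS⟩ := h
    exact ⟨S, Submodule.smul_mem _ _ hS⟩

/-- The Gurarii space. -/
def XX : Submodule ℝ LI := Sp.topologicalClosure

lemma Sp_le_XX : Sp ≤ XX := Submodule.le_topologicalClosure _

lemma isClosed_XX : IsClosed (XX : Set LI) := Submodule.isClosed_topologicalClosure _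

/-- The Gurarii space, as a Banach space. -/
def GX : Type := XX

instance : NormedAddCommGroup GX := inferInstanceAs (NormedAddCommGroup XX)
instance : NormedSpace ℝ GX := inferInstanceAs (NormedSpace ℝ XX)
instance : CompleteSpace GX :=
  (isClosed_XX.completeSpace_coe : CompleteSpace XX)

/-- the inclusion -/
def inc : GX →ₗᵢ[ℝ] LI where
  toFun x := (show XX from x).1
  map_add' _ _ := rfl
  map_smul' _ _ := rfl
  norm_map' _ := rfl

def mkX (x : LI) (hx : x ∈ XX) : GX := (⟨x, hx⟩ : XX)

@[simp] lemma inc_mkX (x : LI) (hx : x ∈ XX) : inc (mkX x hx) = x := rfl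

lemma inc_mem (x : GX) : inc x ∈ XX := (show XX from x).2

lemma GX_ext {x y : GX} (h : inc x = inc y) : x = y := inc.injective h

lemma mem_XX {x : LI} : x ∈ XX ↔ ∀ ε > 0, ∃ y ∈ Sp, ‖x - y‖ < ε := by
  have : x ∈ XX ↔ x ∈ closure (Sp : Set LI) := Iff.rfl
  rw [this, Metric.mem_closure_iff]
  simp only [dist_eq_norm]
  rfl

end Pool.Agent.Helper34.Gur
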