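import Pool.Agent.Helper34.GurDefs
import Pool.Agent.Helper34.GurBase

/-!
The monotone transfinite basis and the density of the space `XX`.
-/

open Set Filter Topology

set_option linter.unusedSectionVars false
set_option linter.unusedSimpArgs false
set_option linter.deprecated false

noncomputable section

open scoped Classical

namespace Pool.Agent.Helper34.Gur

/-- the length of the basis -/
def lam : Ordinal.{0} := Cardinal.ord (Cardinal.aleph 1)

/-- enumeration of the index set by the ordinals below `lam` -/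
def enu : Iio lam ≃o Idx := Ordinal.ToType.mk (o := lam)

/-- rank of an index -/
def rk (i : Idx) : Ordinal.{0} := (enu.symm i : Iio lam).1

lemma rk_lt (i : Idx) : rk i < lam := (enu.symm i).2

lemma rk_lt_rk {i j : Idx} : rk i < rk j ↔ i < j := by
  unfold rk
  rw [Subtype.coe_lt_coe]
  exact enu.symm.lt_iff_lt

/-- the initial segment -/
def seg (β : Ordinal.{0}) : Set Idx := {i | rk i < β}

/-- index of an ordinal (junk above `lam`) -/
def idxOf (α : Ordinal.{0}) : Idx := if h : α < lam then enu ⟨α, h⟩ else Classical.arbitrary Idx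

lemma rk_idxOf {α : Ordinal.{0}} (h : α < lam) : rk (idxOf α) = α := by
  unfold rk idxOf
  rw [dif_pos h, OrderIso.symm_apply_apply]

lemma idxOf_rk (i : Idx) : idxOf (rk i) = i := by
  unfold idxOf
  rw [dif_pos (rk_lt i)]
  unfold rk
  simp

/-- values above a lower set are determined -/
lemma extL_seg_ev_lt {β : Ordinal.{0}} {i : Idx} (h : rk i < β) : extL (seg β) (ev i) = ev i := by
  have : (extL (seg β) (ev i) : Idx → ℝ) = ev i := by
    apply eq_of_coef
    intro j
    by_cases hj : j ∈ seg β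
    · left; rw [extL_apply, extF_mem hj]
    · right
      rw [extL_coe, coef_extF hj, coef_ev, if_neg]
      intro h'
      exact hj (by rw [h']; exact h)
  exact BoundedContinuousFunction.ext (fun j => congrFun this j)

lemma extL_seg_ev_ge {β : Ordinal.{0}} {i : Idx} (h : β ≤ rk i) : extL (seg β) (ev i) = 0 := by
  have : (extL (seg β) (ev i) : Idx → ℝ) = (0 : Idx → ℝ) := by
    apply eq_of_coef
    intro j
    by_cases hj : j ∈ seg β
    · left
      rw [extL_apply, extF_mem hj, ev_lt (rk_lt_rk.1 (lt_of_lt_of_le hj h))]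
      rfl
    · right
      rw [extL_coe, coef_extF hj, coef_zero]
  exact BoundedContinuousFunction.ext (fun j => congrFun this j)

lemma extL_seg_lam (x : LI) : extL (seg lam) x = x := by
  ext j
  rw [extL_apply, extF_mem (show j ∈ seg lam from rk_lt j)]

lemma extL_idem (L : Set Idx) (x : LI) : extL L (extL L x) = extL L x := by
  have : (extL L (extL L x) : Idx → ℝ) = extL L x := by
    apply eq_of_coef
    intro j
    by_cases hj : j ∈ L
    · left; rw [extL_apply, extF_mem hj]
    · right; rw [extL_coe, coef_extF hj, extL_coe, coef_extF hj]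
  exact BoundedContinuousFunction.ext (fun j => congrFun this j)

lemma extL_seg_mem_Sp (β : Ordinal.{0}) {x : LI} (hx : x ∈ Sp) : extL (seg β) x ∈ Sp := by
  induction hx using Submodule.span_induction with
  | mem x h =>
    obtain ⟨i, rfl⟩ := h
    rcases lt_or_ge (rk i) β with h | h
    · rw [extL_seg_ev_lt h]; exact Submodule.subset_span ⟨i, rfl⟩
    · rw [extL_seg_ev_ge h]; exact Submodule.zero_mem _
  | zero => rw [map_zero]; exact Submodule.zero_mem _
  | add x y _ _ h1 h2 => rw [map_add]; exact Submodule.add_mem _ h1 h2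
  | smul c x _ h => rw [map_smul]; exact Submodule.smul_mem _ _ h

lemma extL_seg_mem_XX (β : Ordinal.{0}) : ∀ x ∈ XX, extL (seg β) x ∈ XX := by
  intro x hx
  exact map_mem_closure (extL (seg β)).continuous hx (fun y hy => extL_seg_mem_Sp β hy)

/-- the projections of the basis -/
def PP (β : Ordinal.{0}) : GX →L[ℝ] GX :=
  LinearMap.mkContinuous
    { toFun := fun x => mkX (extL (seg β) (inc x)) (extL_seg_mem_XX β _ (inc_mem x))
      map_add' := fun x y => GX_ext (by simp)
      map_smul' := fun c x => GX_ext (by simp) } 1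
    (fun x => by
      rw [← inc.norm_map, ← inc.norm_map x]
      exact ((extL (seg β)).le_opNorm (inc x)).trans
        (mul_le_mul_of_nonneg_right (extL_norm_le _) (norm_nonneg _)))

lemma PP_coe (β : Ordinal.{0}) (x : GX) : inc (PP β x) = extL (seg β) (inc x) := rfl

lemma PP_norm_le (β : Ordinal.{0}) : ‖PP β‖ ≤ 1 :=
  LinearMap.mkContinuous_norm_le _ zero_le_one _

lemma ev_mem_XX (i : Idx) : ev i ∈ XX := Sp_le_XX (Submodule.subset_span ⟨i, rfl⟩)

/-- the basis -/
def bb (α : Ordinal.{0}) : GX := mkX (ev (idxOf α)) (ev_mem_XX _)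

lemma bb_coe (α : Ordinal.{0}) : inc (bb α) = ev (idxOf α) := rfl

lemma continuousOn_ev (i : Idx) :
    ContinuousOn (fun β : Ordinal.{0} => extL (seg β) (ev i)) (Iic lam) := by
  intro β _
  rcases lt_or_ge (rk i) β with h | h
  · have hev : ∀ᶠ γ in 𝓝[Iic lam] β, extL (seg γ) (ev i) = ev i := by
      have h1 : ∀ᶠ γ in 𝓝 β, rk i < γ := lt_mem_nhds h
      filter_upwards [mem_nhdsWithin_of_mem_nhds h1] with γ hγ
      exact extL_seg_ev_lt hγ
    rw [ContinuousWithinAt, extL_seg_ev_lt h]
    exact tendsto_const_nhds.congr' (hev.mono (fun γ hγ => hγ.symm))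
  · have hev : ∀ᶠ γ in 𝓝[Iic lam] β, extL (seg γ) (ev i) = 0 := by
      have h1 : ∀ᶠ γ in 𝓝 β, γ < Order.succ (rk i) :=
        gt_mem_nhds (lt_of_le_of_lt h (Order.lt_succ _))
      filter_upwards [mem_nhdsWithin_of_mem_nhds h1] with γ hγ
      exact extL_seg_ev_ge (Order.lt_succ_iff.1 hγ)
    rw [ContinuousWithinAt, extL_seg_ev_ge h]
    exact tendsto_const_nhds.congr' (hev.mono (fun γ hγ => hγ.symm))

lemma continuousOn_Sp {x : LI} (hx : x ∈ Sp) :
    ContinuousOn (fun β : Ordinal.{0} => extL (seg β) x) (Iic lam) := by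
  induction hx using Submodule.span_induction with
  | mem x h => obtain ⟨i, rfl⟩ := h; exact continuousOn_ev i
  | zero => simpa using continuousOn_const
  | add x y _ _ h1 h2 =>
    simp only [map_add]
    exact h1.add h2
  | smul c x _ h =>
    simp only [map_smul]
    exact h.const_smul c

lemma continuousOn_XX {x : LI} (hx : x ∈ XX) :
    ContinuousOn (fun β : Ordinal.{0} => extL (seg β) x) (Iic lam) := by
  intro β hβ
  rw [ContinuousWithinAt, Metric.tendsto_nhds]
  intro ε hε
  obtain ⟨y, hy, hxy⟩ := mem_XX.1 hx (ε/3) (by positivity)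
  have h1 := continuousOn_Sp hy β hβ
  rw [ContinuousWithinAt, Metric.tendsto_nhds] at h1
  filter_upwards [h1 (ε/3) (by positivity)] with γ hγ
  have key : ∀ δ : Ordinal.{0}, dist (extL (seg δ) x) (extL (seg δ) y) ≤ ‖x - y‖ := by
    intro δ
    rw [dist_eq_norm, ← map_sub]
    calc ‖extL (seg δ) (x - y)‖ ≤ ‖extL (seg δ)‖ * ‖x - y‖ := (extL (seg δ)).le_opNorm _
      _ ≤ 1 * ‖x - y‖ := mul_le_mul_of_nonneg_right (extL_norm_le _) (norm_nonneg _)
      _ = ‖x - y‖ := one_mul _
  calc dist (extL (seg γ) x) (extL (seg β) x)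
      ≤ dist (extL (seg γ) x) (extL (seg γ) y) + dist (extL (seg γ) y) (extL (seg β) y)
        + dist (extL (seg β) y) (extL (seg β) x) := dist_triangle4 _ _ _ _
    _ < ε/3 + ε/3 + ε/3 := by
        have a1 := key γ
        have a2 := key β
        rw [dist_comm (extL (seg β) y)]
        linarith
    _ = ε := by ring

/-- The transfinite basis of `GX`. -/
lemma basis_GX : HasMonotoneTransfiniteBasis GX := by
  refine ⟨lam, bb, PP, ?_⟩
  refine
    { ne_zero := ?_, dense_span := ?_, proj := ?_, apply_lt := ?_, apply_ge := ?_,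
      apply_top := ?_, continuousOn := ?_, norm_le := fun β _ => PP_norm_le β }
  · intro α _ h
    have h1 : (ev (idxOf α) : LI) (idxOf α) = 0 := by
      rw [← bb_coe, h, map_zero]; rfl
    rw [ev_self] at h1
    exact one_ne_zero h1
  · intro x
    rw [Metric.mem_closure_iff]
    intro ε hε
    obtain ⟨y, hy, hxy⟩ := mem_XX.1 (inc_mem x) ε hε
    refine ⟨mkX y (Sp_le_XX hy), ?_, ?_⟩
    · have hmap : Submodule.map inc.toLinearMap (Submodule.span ℝ (bb '' Iio lam)) = Sp := by
        rw [Submodule.map_span]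
        unfold Sp
        congr 1
        ext z
        constructor
        · rintro ⟨w, ⟨α, _, rfl⟩, rfl⟩
          exact ⟨idxOf α, rfl⟩
        · rintro ⟨i, rfl⟩
          refine ⟨bb (rk i), ⟨rk i, rk_lt i, rfl⟩, ?_⟩
          change ev (idxOf (rk i)) = ev i
          rw [idxOf_rk]
      have hy' := hy
      rw [← hmap] at hy'
      obtain ⟨w, hw, hwy⟩ := hy'
      have : w = mkX y (Sp_le_XX hy) := GX_ext hwy
      rw [this] at hw
      exact hw
    · rw [dist_eq_norm, ← inc.norm_map, map_sub]
      exact hxy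
  · intro β _ x
    apply GX_ext
    rw [PP_coe, PP_coe, extL_idem]
  · intro β hβ α hα
    apply GX_ext
    rw [PP_coe, bb_coe, extL_seg_ev_lt]
    rw [rk_idxOf (lt_of_lt_of_le hα hβ)]
    exact hα
  · intro β _ α hβα hα
    apply GX_ext
    rw [PP_coe, bb_coe, extL_seg_ev_ge, map_zero]
    rw [rk_idxOf hα]; exact hβα
  · intro x
    apply GX_ext
    rw [PP_coe, extL_seg_lam]
  · intro x
    have := continuousOn_XX (inc_mem x)
    have h2 : ContinuousOn (fun β => inc (PP β x)) (Iic lam) := this
    exact (inc.isometry.isEmbedding.continuousOn_iff (f := fun β => PP β x)).2 h2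

/-! ### density -/

lemma sep (i j : Idx) (h : i ≠ j) : 1 ≤ ‖ev i - ev j‖ := by
  rcases lt_or_gt_of_ne h with h | h
  · have := abs_le_norm (ev i - ev j) i
    rw [BoundedContinuousFunction.sub_apply, ev_self, ev_lt h] at this
    simpa using this
  · have := abs_le_norm (ev i - ev j) j
    rw [BoundedContinuousFunction.sub_apply, ev_self, ev_lt h] at this
    simpa using this

lemma le_card_of_dense {D : Set GX} (hD : Dense D) : Cardinal.aleph 1 ≤ Cardinal.mk D := by
  have h : ∀ i : Idx, ∃ y ∈ D, dist (mkX (ev i) (ev_mem_XX i)) y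
      < 1/2 := fun i => Metric.mem_closure_iff.1 (hD _) (1/2) (by norm_num)
  choose f hf1 hf2 using h
  have hinj : Function.Injective (fun i : Idx => (⟨f i, hf1 i⟩ : D)) := by
    intro i j hij
    by_contra hne
    have h1 : f i = f j := congrArg Subtype.val hij
    have h2 := sep i j hne
    have h3 : ‖ev i - ev j‖ ≤ dist (mkX (ev i) (ev_mem_XX i))
        (f i) + dist (f i) (mkX (ev j) (ev_mem_XX j)) := by
      have : ‖ev i - ev j‖ = dist (mkX (ev i) (ev_mem_XX i)) (mkX (ev j) (ev_mem_XX j)) := by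
        rw [dist_eq_norm, ← inc.norm_map, map_sub]; rfl
      rw [this]
      exact dist_triangle _ _ _
    have h4 := hf2 i
    have h5 := hf2 j
    rw [dist_comm, ← h1] at h5
    linarith
  rw [← mk_Idx]
  exact Cardinal.mk_le_of_injective hinj

/-- rational combinations -/
def ratComb (c : Idx →₀ ℚ) : GX :=
  mkX (∑ s ∈ c.support, (c s : ℝ) • ev s) (Sp_le_XX (Submodule.sum_mem _ (fun s _ =>
    Submodule.smul_mem _ _ (Submodule.subset_span ⟨s, rfl⟩))))

lemma norm_ev_le (i : Idx) : ‖ev i‖ ≤ 1 := by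
  unfold ev
  have h1 : ‖ind i‖ ≤ 1 := by
    rw [BoundedContinuousFunction.norm_le zero_le_one]
    intro j
    rw [ind_apply]
    split_ifs <;> simp
  calc ‖extL (Iic i) (ind i)‖ ≤ ‖extL (Iic i)‖ * ‖ind i‖ := (extL _).le_opNorm _
    _ ≤ 1 * 1 := mul_le_mul (extL_norm_le _) h1 (norm_nonneg _) zero_le_one
    _ = 1 := one_mul 1

lemma dense_ratComb : Dense (range ratComb) := by
  intro x
  rw [Metric.mem_closure_iff]
  intro ε hε
  obtain ⟨y, hy, hxy⟩ := mem_XX.1 (inc_mem x) (ε/2) (by positivity)
  obtain ⟨S, hS⟩ := mem_Sp hy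
  have hq : ∀ s : Idx, ∃ q : ℚ, |coef s y - q| ≤ ε / (4 * (S.card + 1)) := by
    intro s
    obtain ⟨q, hq1, hq2⟩ := exists_rat_btwn
      (show coef s y - ε / (4 * (S.card + 1)) < coef s y by
        have : 0 < ε / (4 * (S.card + 1)) := by positivity
        linarith)
    exact ⟨q, by rw [abs_of_pos (by linarith)]; linarith⟩
  choose q hq using hq
  refine ⟨ratComb (Finsupp.onFinset S (fun s => if s ∈ S then q s else 0) (by
    intro s hs; by_contra h; simp [h] at hs)), ⟨_, rfl⟩, ?_⟩
  rw [dist_eq_norm, ← inc.norm_map, map_sub]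
  have e1 : inc (ratComb (Finsupp.onFinset S (fun s => if s ∈ S then q s else 0) (by
    intro s hs; by_contra h; simp [h] at hs))) = ∑ s ∈ S, (q s : ℝ) • ev s := by
    unfold ratComb
    rw [inc_mkX]
    rw [Finset.sum_subset (s₁ := (Finsupp.onFinset S (fun s => if s ∈ S then q s else 0)
      _).support) (s₂ := S)]
    · apply Finset.sum_congr rfl
      intro s hs
      simp [hs]
    · exact Finsupp.support_onFinset_subset
    · intro s _ hs
      rw [Finsupp.notMem_support_iff] at hs
      rw [hs]; simp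
  have e2 : ‖y - ∑ s ∈ S, (q s : ℝ) • ev s‖ ≤ ε / 4 := by
    conv_lhs => rw [Supp_finset hS]
    rw [← Finset.sum_sub_distrib]
    calc ‖∑ s ∈ S, (coef s y • ev s - (q s : ℝ) • ev s)‖
        ≤ ∑ s ∈ S, ‖coef s y • ev s - (q s : ℝ) • ev s‖ := norm_sum_le _ _
      _ ≤ ∑ s ∈ S, ε / (4 * (S.card + 1)) := by
          apply Finset.sum_le_sum
          intro s _
          have e0 : coef s y • ev s - (q s : ℝ) • ev s = (coef s y - q s) • ev s :=
            (sub_smul (coef s y) (q s : ℝ) (ev s)).symm
          have e0' : ‖(coef s y - q s) • ev s‖ = |coef s y - q s| * ‖ev s‖ := by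
            rw [← Real.norm_eq_abs]; exact norm_smul _ _
          calc ‖coef s y • ev s - (q s : ℝ) • ev s‖ = |coef s y - q s| * ‖ev s‖ := by
                rw [e0, e0']
            _ ≤ |coef s y - q s| * 1 :=
                mul_le_mul_of_nonneg_left (norm_ev_le s) (abs_nonneg _)
            _ ≤ ε / (4 * (S.card + 1)) := by rw [mul_one]; exact hq s
      _ = S.card * (ε / (4 * (S.card + 1))) := by rw [Finset.sum_const, nsmul_eq_mul]
      _ ≤ ε / 4 := by
          have h1 : (0:ℝ) < S.card + 1 := by positivity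
          rw [mul_div_assoc', div_le_div_iff₀ (by positivity) (by norm_num)]
          nlinarith
  rw [e1]
  calc ‖inc x - ∑ s ∈ S, (q s : ℝ) • ev s‖
      = ‖(inc x - y) + (y - ∑ s ∈ S, (q s : ℝ) • ev s)‖ := by congr 1; abel
    _ ≤ ‖inc x - y‖ + ‖y - ∑ s ∈ S, (q s : ℝ) • ev s‖ := norm_add_le _ _
    _ < ε := by linarith

lemma density_GX : density GX = Cardinal.aleph 1 := by
  apply le_antisymm
  · have h1 : Cardinal.mk (range ratComb) ≤ Cardinal.aleph 1 := by
      rw [← mk_tasks]; exact Cardinal.mk_range_le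
    have h2 : density GX ≤ Cardinal.mk (range ratComb) :=
      csInf_le' ⟨range ratComb, dense_ratComb, rfl⟩
    exact h2.trans h1
  · apply le_csInf
    · exact ⟨_, univ, dense_univ, rfl⟩
    · rintro κ ⟨D, hD, rfl⟩
      exact le_card_of_dense hD

end Pool.Agent.Helper34.Gur
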