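import Mathlib

/-!
Definitions for the question on Gurarii spaces of density `ℵ₁` with a monotone transfinite
Schauder basis.
-/

open Set Filter Topology

noncomputable section

namespace Pool.Agent.Helper34

/-- A linear map `f : F → X` is an `ε`-isometric embedding if
`(1 + ε)⁻¹ ‖y‖ ≤ ‖f y‖ ≤ (1 + ε) ‖y‖` for all `y`. -/
def IsEpsIsometric {F X : Type*} [NormedAddCommGroup F] [NormedSpace ℝ F]
    [NormedAddCommGroup X] [NormedSpace ℝ X] (ε : ℝ) (f : F →ₗ[ℝ] X) : Prop :=
  ∀ y : F, (1 + ε)⁻¹ * ‖y‖ ≤ ‖f y‖ ∧ ‖f y‖ ≤ (1 + ε) * ‖y‖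

/-- Gurarii spaces (of any density): for every `ε > 0`, every finite-dimensional Banach space
`F`, every subspace `E ⊆ F` and every linear isometric embedding `e : E → X` there is an
`ε`-isometric embedding `f : F → X` such that the operator norm of `f|_E - e` is at
most `ε`. -/
def IsGurarii (X : Type*) [NormedAddCommGroup X] [NormedSpace ℝ X] : Prop :=
  ∀ ε : ℝ, 0 < ε → ∀ (F : Type) [NormedAddCommGroup F] [NormedSpace ℝ F]
    [FiniteDimensional ℝ F] (E : Submodule ℝ F) (e : E →ₗᵢ[ℝ] X),
    ∃ f : F →ₗ[ℝ] X, IsEpsIsometric ε f ∧ ∀ x : E, ‖f x - e x‖ ≤ ε * ‖x‖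

/-- The density of a topological space: the least cardinality of a dense subset. -/
def density (X : Type*) [TopologicalSpace X] : Cardinal :=
  sInf {κ | ∃ D : Set X, Dense D ∧ Cardinal.mk D = κ}

/-- `(e α)_{α < lam}` is a monotone transfinite Schauder basis of `X` with associated
projections `P β`, `β ≤ lam` (only the values of `e` below `lam` and of `P` up to `lam`
matter). The ordinals up to `lam` carry the order topology. -/
structure IsMonotoneTransfiniteBasis (X : Type*) [NormedAddCommGroup X] [NormedSpace ℝ X]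
    (lam : Ordinal.{0}) (e : Ordinal.{0} → X) (P : Ordinal.{0} → (X →L[ℝ] X)) : Prop where
  /-- the basis vectors are nonzero -/
  ne_zero : ∀ α < lam, e α ≠ 0
  /-- the linear span of the basis vectors is dense -/
  dense_span : Dense (Submodule.span ℝ (e '' Iio lam) : Set X)
  /-- each `P β` is a projection -/
  proj : ∀ β ≤ lam, ∀ x : X, P β (P β x) = P β x
  /-- `P β` fixes the basis vectors with index below `β` -/
  apply_lt : ∀ β ≤ lam, ∀ α < β, P β (e α) = e α
  /-- `P β` annihilates the basis vectors with index at least `β` -/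
  apply_ge : ∀ β ≤ lam, ∀ α, β ≤ α → α < lam → P β (e α) = 0
  /-- `P lam` is the identity -/
  apply_top : ∀ x : X, P lam x = x
  /-- `β ↦ P β x` is continuous on `[0, lam]` -/
  continuousOn : ∀ x : X, ContinuousOn (fun β => P β x) (Iic lam)
  /-- monotonicity of the basis -/
  norm_le : ∀ β ≤ lam, ‖P β‖ ≤ 1

/-- `X` has a monotone transfinite Schauder basis (of some length `lam`). -/
def HasMonotoneTransfiniteBasis (X : Type*) [NormedAddCommGroup X] [NormedSpace ℝ X] : Prop :=
  ∃ (lam : Ordinal.{0}) (e : Ordinal.{0} → X) (P : Ordinal.{0} → (X →L[ℝ] X)),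
    IsMonotoneTransfiniteBasis X lam e P

end Pool.Agent.Helper34
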