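import Pool.Agent.Helper34.GurBasis

/-!
The space `GX` is a Gurarii space.
-/

open Set Filter Topology

set_option linter.unusedSectionVars false
set_option linter.unusedSimpArgs false
set_option linter.deprecated false

noncomputable section

open scoped Classical

namespace Pool.Agent.Helper34.Gur

/-- evaluation at a coordinate -/
def evL (j : Idx) : LI →ₗ[ℝ] ℝ where
  toFun x := x j
  map_add' _ _ := rfl
  map_smul' _ _ := rfl

lemma evL_apply (j : Idx) (x : LI) : evL j x = x j := rfl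

section

variable {E : Type*} [NormedAddCommGroup E] [NormedSpace ℝ E] [FiniteDimensional ℝ E]

lemma exists_approx (e0 : E →ₗᵢ[ℝ] GX) {δ : ℝ} (hδ : 0 < δ) :
    ∃ S : Finset Idx, ∃ e' : E →ₗ[ℝ] LI, (∀ x, e' x ∈ Supp (S : Set Idx)) ∧
      ∀ x, ‖e' x - inc (e0 x)‖ ≤ δ * ‖x‖ := by
  set b := Module.finBasis ℝ E with hb
  set K : ℝ := ∑ i, ‖LinearMap.toContinuousLinearMap (b.coord i)‖ with hK
  have hK0 : 0 ≤ K := Finset.sum_nonneg (fun i _ => norm_nonneg _)
  have hv : ∀ i, ∃ v ∈ Sp, ‖inc (e0 (b i)) - v‖ < δ / (K + 1) := fun i =>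
    mem_XX.1 (inc_mem (e0 (b i))) _ (by positivity)
  choose v hv1 hv2 using hv
  choose T hT using fun i => mem_Sp (hv1 i)
  refine ⟨Finset.univ.biUnion T, b.constr ℝ v, ?_, ?_⟩
  · intro x
    rw [Module.Basis.constr_apply_fintype]
    refine Submodule.sum_mem _ (fun i _ => Submodule.smul_mem _ _ (Supp_mono ?_ (hT i)))
    intro j hj
    simp only [Finset.coe_biUnion, Finset.coe_univ, mem_univ, iUnion_true, mem_iUnion]
    exact ⟨i, hj⟩
  · intro x
    have e1 : b.constr ℝ v x - inc (e0 x) = ∑ i, b.coord i x • (v i - inc (e0 (b i))) := by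
      have e2 : inc (e0 x) = ∑ i, b.coord i x • inc (e0 (b i)) := by
        conv_lhs => rw [← b.sum_repr x]
        simp only [map_sum, map_smul]
        rfl
      rw [e2, Module.Basis.constr_apply_fintype, ← Finset.sum_sub_distrib]
      apply Finset.sum_congr rfl
      intro i _
      rw [smul_sub]
      rfl
    rw [e1]
    calc ‖∑ i, b.coord i x • (v i - inc (e0 (b i)))‖
        ≤ ∑ i, ‖b.coord i x • (v i - inc (e0 (b i)))‖ := norm_sum_le _ _
      _ ≤ ∑ i, (‖LinearMap.toContinuousLinearMap (b.coord i)‖ * ‖x‖) * (δ / (K + 1)) := by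
          apply Finset.sum_le_sum
          intro i _
          have a1 : ‖b.coord i x • (v i - inc (e0 (b i)))‖
            = ‖b.coord i x‖ * ‖v i - inc (e0 (b i))‖ := norm_smul _ _
          rw [a1]
          have h1 : ‖b.coord i x‖ ≤ ‖LinearMap.toContinuousLinearMap (b.coord i)‖ * ‖x‖ :=
            (LinearMap.toContinuousLinearMap (b.coord i)).le_opNorm x
          have h2 : ‖v i - inc (e0 (b i))‖ ≤ δ / (K + 1) := by
            rw [norm_sub_rev]; exact (hv2 i).le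
          exact mul_le_mul h1 h2 (norm_nonneg _) (by positivity)
      _ = (K * ‖x‖) * (δ / (K + 1)) := by rw [← Finset.sum_mul, ← Finset.sum_mul]
      _ ≤ δ * ‖x‖ := by
          have : K * (δ / (K + 1)) ≤ δ := by
            rw [mul_div_assoc', div_le_iff₀ (by positivity)]
            nlinarith
          calc (K * ‖x‖) * (δ / (K + 1)) = (K * (δ / (K + 1))) * ‖x‖ := by ring
            _ ≤ δ * ‖x‖ := mul_le_mul_of_nonneg_right this (norm_nonneg _)

lemma exists_norming {δ : ℝ} (hδ : 0 < δ) :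
    ∃ t : Finset E, ∃ φ : E → (E →L[ℝ] ℝ), (∀ z, ‖φ z‖ ≤ 1) ∧
      ∀ y : E, y ≠ 0 → ∃ z ∈ t, (1 - δ) * ‖y‖ ≤ |φ z y| := by
  haveI : ProperSpace E := FiniteDimensional.proper ℝ E
  obtain ⟨t, hts, htf, hcov⟩ := (isCompact_sphere (0 : E) 1).finite_cover_balls hδ
  have hφ : ∀ z : E, ∃ g : E →L[ℝ] ℝ, ‖g‖ ≤ 1 ∧ (‖z‖ = 1 → g z = 1) := by
    intro z
    by_cases hz : ‖z‖ = 1
    · obtain ⟨g, hg1, hg2⟩ := exists_dual_vector ℝ z (by rw [hz]; norm_num)
      refine ⟨g, hg1.le, fun _ => ?_⟩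
      rw [hg2, hz]; rfl
    · exact ⟨0, by simp, fun h => absurd h hz⟩
  choose φ hφ1 hφ2 using hφ
  refine ⟨htf.toFinset, φ, hφ1, ?_⟩
  intro y hy
  have hy' : 0 < ‖y‖ := norm_pos_iff.2 hy
  set u : E := ‖y‖⁻¹ • y with hu
  have hun : ‖u‖ = 1 := by
    rw [hu, norm_smul, norm_inv, norm_norm, inv_mul_cancel₀ hy'.ne']
  have hus : u ∈ Metric.sphere (0 : E) 1 := by simpa using hun
  obtain ⟨z, hz, hzu⟩ := mem_iUnion₂.1 (hcov hus)
  refine ⟨z, by simpa using hz, ?_⟩
  have hz1 : ‖z‖ = 1 := by simpa using hts hz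
  have h1 : φ z u = 1 + φ z (u - z) := by rw [map_sub, hφ2 z hz1]; ring
  have h2 : |φ z (u - z)| ≤ δ := by
    calc |φ z (u - z)| ≤ ‖φ z‖ * ‖u - z‖ := (φ z).le_opNorm _
      _ ≤ 1 * ‖u - z‖ := mul_le_mul_of_nonneg_right (hφ1 z) (norm_nonneg _)
      _ ≤ δ := by
          rw [one_mul, ← dist_eq_norm]
          exact (Metric.mem_ball.1 hzu).le
  have h3 : 1 - δ ≤ |φ z u| := by
    have := le_abs_self (φ z u)
    have := neg_le_of_abs_le h2
    linarith
  have h4 : φ z y = ‖y‖ * φ z u := by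
    rw [hu, map_smul, smul_eq_mul, ← mul_assoc, mul_inv_cancel₀ hy'.ne', one_mul]
  rw [h4, abs_mul, abs_of_pos hy', mul_comm]
  exact mul_le_mul_of_nonneg_left h3 hy'.le

lemma exists_rat_toward_zero (r : ℝ) {η : ℝ} (hη : 0 < η) :
    ∃ q : ℚ, |(q : ℝ)| ≤ |r| ∧ |(q : ℝ) - r| ≤ η := by
  rcases lt_trichotomy r 0 with h | h | h
  · obtain ⟨q, hq1, hq2⟩ := exists_rat_btwn (show r < min 0 (r + η) by
      rw [lt_min_iff]; exact ⟨h, by linarith⟩)
    have h1 : (q : ℝ) < 0 := lt_of_lt_of_le hq2 (min_le_left _ _)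
    have h2 : (q : ℝ) < r + η := lt_of_lt_of_le hq2 (min_le_right _ _)
    refine ⟨q, ?_, ?_⟩
    · rw [abs_of_neg h1, abs_of_neg h]; linarith
    · rw [abs_of_pos (by linarith)]; linarith
  · exact ⟨0, by simp, by rw [h]; simpa using hη.le⟩
  · obtain ⟨q, hq1, hq2⟩ := exists_rat_btwn (show max 0 (r - η) < r by
      rw [max_lt_iff]; exact ⟨h, by linarith⟩)
    have h1 : 0 < (q : ℝ) := lt_of_le_of_lt (le_max_left _ _) hq1
    have h2 : r - η < (q : ℝ) := lt_of_le_of_lt (le_max_right _ _) hq1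
    refine ⟨q, ?_, ?_⟩
    · rw [abs_of_pos h1, abs_of_pos h]; exact hq2.le
    · rw [abs_of_neg (by linarith)]; linarith

lemma exists_task (S : Finset Idx) (e' : E →ₗ[ℝ] LI) (hS : ∀ x, e' x ∈ Supp (S : Set Idx))
    {c : ℝ} (hc : 0 < c) (hlow : ∀ x, c * ‖x‖ ≤ ‖e' x‖) (hup : ∀ x, ‖e' x‖ ≤ 2 * ‖x‖)
    (φ : E →L[ℝ] ℝ) (hφ : ‖φ‖ ≤ 1) {η : ℝ} (hη : 0 < η) :
    ∃ τ : Idx →₀ ℚ, τ.support ⊆ S ∧ ∑ s ∈ τ.support, |(τ s : ℝ)| ≤ 1 ∧
      ∀ x, |∑ s ∈ τ.support, (τ s : ℝ) * e' x s - c * φ x| ≤ η * ‖x‖ := by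
  have hcard : (0:ℝ) < (S.card : ℝ) + 1 := by positivity
  have hcard0 : (0:ℝ) ≤ (S.card : ℝ) := Nat.cast_nonneg _
  have hηS : 0 < η / (2 * ((S.card : ℝ) + 1)) := div_pos hη (mul_pos two_pos hcard)
  have hηS2 : (S.card : ℝ) * (η / (2 * (S.card + 1)) * 2) ≤ η := by
    have : (S.card : ℝ) * (η / (2 * (S.card + 1)) * 2)
      = (S.card * η) / (S.card + 1) := by field_simp
    rw [this, div_le_iff₀ hcard]
    nlinarith
  let T : E →ₗ[ℝ] (S → ℝ) := LinearMap.pi (fun s => (evL s).comp e')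
  have hT : ∀ x (s : S), T x s = e' x s := fun x s => rfl
  have hTn : ∀ x, ‖e' x‖ ≤ ‖T x‖ := fun x => by
    apply Supp_norm_le (hS x) (norm_nonneg _)
    intro s hs
    exact norm_le_pi_norm (T x) ⟨s, hs⟩
  have hTinj : Function.Injective T := by
    rw [← LinearMap.ker_eq_bot, LinearMap.ker_eq_bot']
    intro x hx
    have h1 := hTn x
    rw [hx, norm_zero] at h1
    have h2 := hlow x
    have h3 : c * ‖x‖ ≤ 0 := h2.trans h1
    have h4 : ‖x‖ ≤ 0 := by
      by_contra h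
      have : 0 < ‖x‖ := not_le.1 h
      nlinarith
    exact norm_le_zero_iff.1 h4
  let Te := LinearEquiv.ofInjective T hTinj
  let ψ0 : LinearMap.range T →ₗ[ℝ] ℝ := (φ : E →ₗ[ℝ] ℝ).comp (Te.symm : _ →ₗ[ℝ] E)
  have hψ0 : ∀ r, ‖ψ0 r‖ ≤ c⁻¹ * ‖r‖ := by
    intro r
    obtain ⟨x, rfl⟩ := Te.surjective r
    have e1 : ψ0 (Te x) = φ x := by
      change φ (Te.symm (Te x)) = φ x
      rw [LinearEquiv.symm_apply_apply]
    rw [e1]
    have h1 : ‖φ x‖ ≤ ‖x‖ := by
      calc ‖φ x‖ ≤ ‖φ‖ * ‖x‖ := φ.le_opNorm x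
        _ ≤ 1 * ‖x‖ := mul_le_mul_of_nonneg_right hφ (norm_nonneg _)
        _ = ‖x‖ := one_mul _
    have h2 : ‖x‖ ≤ c⁻¹ * ‖e' x‖ := by
      rw [inv_mul_eq_div, le_div_iff₀ hc, mul_comm]; exact hlow x
    have h3 : ‖(Te x : LinearMap.range T)‖ = ‖T x‖ := rfl
    rw [h3]
    exact h1.trans (h2.trans (mul_le_mul_of_nonneg_left (hTn x) (by positivity)))
  obtain ⟨g, hg1, hg2⟩ := exists_extension_norm_eq (LinearMap.range T)
    (ψ0.mkContinuous c⁻¹ hψ0)
  have hgn : ‖g‖ ≤ c⁻¹ := by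
    rw [hg2]; exact LinearMap.mkContinuous_norm_le _ (by positivity) _
  have hgT : ∀ x, g (T x) = φ x := by
    intro x
    have := hg1 (Te x)
    have e1 : ψ0 (Te x) = φ x := by
      change φ (Te.symm (Te x)) = φ x
      rw [LinearEquiv.symm_apply_apply]
    have e2 : ((Te x : LinearMap.range T) : S → ℝ) = T x := rfl
    rw [e2] at this
    rw [this]
    exact e1
  let b : S → ℝ := fun s => g (Pi.single s 1)
  have hgb : ∀ v : S → ℝ, g v = ∑ s, v s * b s := by
    intro v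
    have := LinearMap.pi_apply_eq_sum_univ (g : (S → ℝ) →ₗ[ℝ] ℝ) v
    have e : g v = (g : (S → ℝ) →ₗ[ℝ] ℝ) v := rfl
    rw [e, this]
    apply Finset.sum_congr rfl
    intro s _
    rw [smul_eq_mul]
    congr 1
    change g _ = g _
    congr 1
    funext j
    simp [Pi.single_apply, eq_comm]
  have hbsum : ∑ s, |b s| ≤ c⁻¹ := by
    have h1 := hgb (fun s => SignType.sign (b s))
    have h2 : ∑ s, |b s| = g (fun s => (SignType.sign (b s) : ℝ)) := by
      rw [h1]
      apply Finset.sum_congr rfl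
      intro s _
      exact (sign_mul_self (b s)).symm
    rw [h2]
    calc g (fun s => (SignType.sign (b s) : ℝ)) ≤ ‖g (fun s => (SignType.sign (b s) : ℝ))‖ :=
          le_abs_self _
      _ ≤ ‖g‖ * ‖(fun s => (SignType.sign (b s) : ℝ))‖ := g.le_opNorm _
      _ ≤ c⁻¹ * 1 := by
          apply mul_le_mul hgn _ (norm_nonneg _) (by positivity)
          rw [pi_norm_le_iff_of_nonneg zero_le_one]
          intro s
          rcases lt_trichotomy (b s) 0 with h | h | h
          · simp [sign_neg h]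
          · simp [h]
          · simp [sign_pos h]
      _ = c⁻¹ := mul_one _
  have hq : ∀ s : S, ∃ q : ℚ, |(q : ℝ)| ≤ |c * b s| ∧
      |(q : ℝ) - c * b s| ≤ η / (2 * (S.card + 1)) := fun s =>
    exists_rat_toward_zero _ hηS
  choose q hq1 hq2 using hq
  let qf : Idx → ℚ := fun s => if h : s ∈ S then q ⟨s, h⟩ else 0
  let τ : Idx →₀ ℚ := Finsupp.onFinset S qf (by
    intro s hs; by_contra h; simp [qf, h] at hs)
  have hτ : ∀ s, τ s = qf s := fun s => rfl
  have hτS : τ.support ⊆ S := Finsupp.support_onFinset_subset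
  have hsum : ∀ (w : Idx → ℝ → ℝ), (∀ s, w s 0 = 0) →
      ∑ s ∈ τ.support, w s (τ s : ℝ) = ∑ s : S, w s (q s : ℝ) := by
    intro w hw
    rw [Finset.sum_subset hτS]
    · rw [← Finset.sum_coe_sort S]
      apply Finset.sum_congr rfl
      intro s _
      rw [hτ]
      simp [qf]
    · intro s _ hs
      rw [Finsupp.notMem_support_iff] at hs
      rw [hs]; simpa using hw s
  refine ⟨τ, hτS, ?_, ?_⟩
  · rw [hsum (fun _ r => |r|) (fun _ => abs_zero)]
    calc ∑ s : S, |(q s : ℝ)| ≤ ∑ s : S, |c * b s| := Finset.sum_le_sum (fun s _ => hq1 s)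
      _ = c * ∑ s : S, |b s| := by
          rw [Finset.mul_sum]
          exact Finset.sum_congr rfl (fun s _ => by rw [abs_mul, abs_of_pos hc])
      _ ≤ c * c⁻¹ := mul_le_mul_of_nonneg_left hbsum hc.le
      _ = 1 := mul_inv_cancel₀ hc.ne'
  · intro x
    rw [hsum (fun s r => r * e' x s) (fun _ => zero_mul _)]
    have e1 : c * φ x = ∑ s : S, (c * b s) * e' x s := by
      rw [← hgT x, hgb, Finset.mul_sum]
      apply Finset.sum_congr rfl
      intro s _
      rw [hT]; ring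
    rw [e1, ← Finset.sum_sub_distrib]
    calc |∑ s : S, ((q s : ℝ) * e' x s - c * b s * e' x s)|
        ≤ ∑ s : S, |(q s : ℝ) * e' x s - c * b s * e' x s| := Finset.abs_sum_le_sum_abs _ _
      _ ≤ ∑ s : S, (η / (2 * (S.card + 1))) * (2 * ‖x‖) := by
          apply Finset.sum_le_sum
          intro s _
          rw [← sub_mul, abs_mul]
          exact mul_le_mul (hq2 s) ((abs_le_norm _ _).trans (hup x)) (abs_nonneg _)
            hηS.le
      _ = (S.card : ℝ) * ((η / (2 * (S.card + 1))) * (2 * ‖x‖)) := by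
          rw [Finset.sum_const, Finset.card_univ, Fintype.card_coe, nsmul_eq_mul]
      _ ≤ η * ‖x‖ := by
          calc (S.card : ℝ) * ((η / (2 * (S.card + 1))) * (2 * ‖x‖))
              = ((S.card : ℝ) * (η / (2 * (S.card + 1)) * 2)) * ‖x‖ := by ring
            _ ≤ η * ‖x‖ := mul_le_mul_of_nonneg_right hηS2 (norm_nonneg _)

end

lemma exists_beta {F : Type*} (t : Finset F) (τ : F → (Idx →₀ ℚ)) (i0 : Idx) :
    ∃ β : F → Idx, (∀ z ∈ t, i0 < β z ∧ bk (β z) = τ z) ∧ Set.InjOn β (t : Set F) := by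
  induction t using Finset.induction_on with
  | empty => exact ⟨fun _ => i0, by simp, by simp⟩
  | insert a t ha ih =>
    obtain ⟨β, h1, h2⟩ := ih
    obtain ⟨M, hM⟩ := Finset.exists_le (insert i0 (t.image β))
    obtain ⟨j, hj1, hj2⟩ := bk_spec (τ a) M
    refine ⟨fun z => if z = a then j else β z, ?_, ?_⟩
    · intro z hz
      rw [Finset.mem_insert] at hz
      rcases hz with rfl | hz
      · simp only [if_true]
        exact ⟨lt_of_le_of_lt (hM i0 (Finset.mem_insert_self _ _)) hj1, hj2⟩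
      · have hne : z ≠ a := fun h => ha (h ▸ hz)
        simp only [hne, if_false]
        exact h1 z hz
    · have hlt : ∀ z ∈ t, β z < j := fun z hz =>
        lt_of_le_of_lt (hM _ (Finset.mem_insert_of_mem (Finset.mem_image_of_mem _ hz))) hj1
      intro x hx y hy hxy
      rw [Finset.mem_coe, Finset.mem_insert] at hx hy
      rcases hx with rfl | hx <;> rcases hy with rfl | hy
      · rfl
      · have hne : y ≠ x := fun h => ha (h ▸ hy)
        simp only [if_true, hne, if_false] at hxy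
        exact absurd hxy.symm (hlt y hy).ne
      · have hne : x ≠ y := fun h => ha (h ▸ hx)
        simp only [if_true, hne, if_false] at hxy
        exact absurd hxy (hlt x hx).ne
      · have hne : x ≠ a := fun h => ha (h ▸ hx)
        have hne' : y ≠ a := fun h => ha (h ▸ hy)
        simp only [hne, hne', if_false] at hxy
        exact h2 (Finset.mem_coe.2 hx) (Finset.mem_coe.2 hy) hxy

/-- unit vectors of `l_∞(S)` inside the space -/
def uu (S : Set Idx) (j : Idx) : LI := extL S (ind j)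

lemma uu_mem (S : Set Idx) (j : Idx) : uu S j ∈ Supp S := extL_mem_Supp S _

lemma uu_apply {S : Set Idx} {i : Idx} (hi : i ∈ S) (j : Idx) :
    uu S j i = if i = j then 1 else 0 := by
  unfold uu
  rw [extL_apply, extF_mem hi, ind_apply]

/-- lift of maps to `GX` -/
def toGX {F : Type*} [AddCommGroup F] [Module ℝ F] (f : F →ₗ[ℝ] LI) (h : ∀ y, f y ∈ XX) :
    F →ₗ[ℝ] GX where
  toFun y := mkX (f y) (h y)
  map_add' x y := GX_ext (by simp)
  map_smul' c x := GX_ext (by simp)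

lemma inc_toGX {F : Type*} [AddCommGroup F] [Module ℝ F] (f : F →ₗ[ℝ] LI) (h : ∀ y, f y ∈ XX)
    (y : F) : inc (toGX f h y) = f y := rfl

theorem isGurarii_GX : IsGurarii GX := by
  intro ε hε F _ _ _ E e0
  -- choice of δ
  set δ : ℝ := ε / (4 * (1 + ε)) with hδdef
  have hδ : 0 < δ := by positivity
  have hδ1 : δ ≤ 1/4 := by
    rw [hδdef, div_le_div_iff₀ (by positivity) (by norm_num)]; nlinarith
  have hδ2 : 4 * δ * (1 + ε) = ε := by rw [hδdef]; field_simp
  obtain ⟨S, e', hS, happ⟩ := exists_approx e0 hδ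
  have hup : ∀ x, ‖e' x‖ ≤ (1 + δ) * ‖x‖ := by
    intro x
    have h1 : ‖inc (e0 x)‖ = ‖x‖ := by rw [inc.norm_map, e0.norm_map]
    calc ‖e' x‖ = ‖(e' x - inc (e0 x)) + inc (e0 x)‖ := by rw [sub_add_cancel]
      _ ≤ ‖e' x - inc (e0 x)‖ + ‖inc (e0 x)‖ := norm_add_le _ _
      _ ≤ δ * ‖x‖ + ‖x‖ := by rw [h1]; exact add_le_add_left (happ x) _
      _ = (1 + δ) * ‖x‖ := by ring
  have hlow : ∀ x, (1 - δ) * ‖x‖ ≤ ‖e' x‖ := by
    intro x
    have h1 : ‖inc (e0 x)‖ = ‖x‖ := by rw [inc.norm_map, e0.norm_map]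
    have h2 : ‖inc (e0 x)‖ ≤ ‖e' x - inc (e0 x)‖ + ‖e' x‖ := by
      calc ‖inc (e0 x)‖ = ‖e' x - (e' x - inc (e0 x))‖ := by rw [sub_sub_cancel]
        _ ≤ ‖e' x‖ + ‖e' x - inc (e0 x)‖ := norm_sub_le _ _
        _ = _ := add_comm _ _
    have h3 := happ x
    rw [h1] at h2
    linarith
  have hup2 : ∀ x, ‖e' x‖ ≤ 2 * ‖x‖ := fun x =>
    (hup x).trans (mul_le_mul_of_nonneg_right (by linarith) (norm_nonneg _))
  -- extension of the coordinates
  have hg : ∀ s : Idx, ∃ g : F →L[ℝ] ℝ, (∀ x : E, g x = e' x s) ∧ ‖g‖ ≤ 1 + δ := by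
    intro s
    obtain ⟨g, hg1, hg2⟩ := exists_extension_norm_eq E
      (((evL s).comp e').mkContinuous (1 + δ) (fun x => (abs_le_norm _ _).trans (hup x)))
    refine ⟨g, fun x => hg1 x, ?_⟩
    rw [hg2]
    exact LinearMap.mkContinuous_norm_le _ (by positivity) _
  choose g hg1 hg2 using hg
  -- norming functionals
  obtain ⟨t, φ, hφ1, hφ2⟩ := exists_norming (E := F) hδ
  -- tasks
  have hτ := fun z : F => exists_task S e' hS (c := 1 - δ) (by linarith) hlow hup2
    ((φ z).comp E.subtypeL) (by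
      calc ‖(φ z).comp E.subtypeL‖ ≤ ‖φ z‖ * ‖E.subtypeL‖ :=
            ContinuousLinearMap.opNorm_comp_le _ _
        _ ≤ 1 * 1 := mul_le_mul (hφ1 z) (Submodule.norm_subtypeL_le E)
            (ContinuousLinearMap.opNorm_nonneg _) zero_le_one
        _ = 1 := one_mul 1) hδ
  choose τ hτ1 hτ2 hτ3 using hτ
  obtain ⟨i0, hi0⟩ := Finset.exists_le S
  obtain ⟨β, hβ1, hβ2⟩ := exists_beta t τ i0
  have hβS : ∀ z ∈ t, β z ∉ S := fun z hz hS' =>
    absurd (hβ1 z hz).1 (not_lt.2 (hi0 _ hS'))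
  -- rows at β z
  have hrow : ∀ z ∈ t, row (β z) = τ z := by
    intro z hz
    unfold row
    rw [(hβ1 z hz).2, if_pos]
    refine ⟨fun s hs => ?_, hτ2 z⟩
    exact lt_of_le_of_lt (hi0 s (hτ1 z hs)) (hβ1 z hz).1
  set S' : Set Idx := (S : Set Idx) ∪ β '' t with hS'
  have hfin : S'.Finite := (Finset.finite_toSet S).union ((Finset.finite_toSet t).image β)
  -- the map
  let fL : F →ₗ[ℝ] LI := ∑ s ∈ S, (g s : F →ₗ[ℝ] ℝ).smulRight (uu S' s)
    + ∑ z ∈ t, (φ z : F →ₗ[ℝ] ℝ).smulRight (uu S' (β z))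
  have hfL : ∀ y, fL y = ∑ s ∈ S, g s y • uu S' s + ∑ z ∈ t, φ z y • uu S' (β z) := by
    intro y
    simp only [fL, LinearMap.add_apply, LinearMap.sum_apply, LinearMap.smulRight_apply]
    rfl
  have hfmem : ∀ y, fL y ∈ Supp S' := by
    intro y
    rw [hfL]
    exact Submodule.add_mem _
      (Submodule.sum_mem _ (fun s _ => Submodule.smul_mem _ _ (uu_mem _ _)))
      (Submodule.sum_mem _ (fun s _ => Submodule.smul_mem _ _ (uu_mem _ _)))
  have hfval : ∀ y, ∀ i ∈ S', fL y i = ∑ s ∈ S, g s y * (if i = s then 1 else 0)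
      + ∑ z ∈ t, φ z y * (if i = β z then 1 else 0) := by
    intro y i hi
    rw [← evL_apply, hfL]
    simp only [map_add, map_sum, map_smul, evL_apply, uu_apply hi, smul_eq_mul]
  have hfS : ∀ y, ∀ s ∈ S, fL y s = g s y := by
    intro y s hs
    rw [hfval y s (Or.inl hs)]
    have h2 : ∑ z ∈ t, φ z y * (if s = β z then 1 else 0) = 0 := by
      apply Finset.sum_eq_zero
      intro z hz
      have : s ≠ β z := fun h => hβS z hz (h ▸ hs)
      simp [this]
    rw [h2, add_zero]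
    simp [hs]
  have hfβ : ∀ y, ∀ z ∈ t, fL y (β z) = φ z y := by
    intro y z hz
    rw [hfval y (β z) (Or.inr ⟨z, hz, rfl⟩)]
    have h1 : ∑ s ∈ S, g s y * (if β z = s then 1 else 0) = 0 := by
      apply Finset.sum_eq_zero
      intro s hs
      have : β z ≠ s := fun h => hβS z hz (h ▸ hs)
      simp [this]
    rw [h1, zero_add]
    rw [Finset.sum_eq_single_of_mem z hz]
    · simp
    · intro z' hz' hne
      have : β z ≠ β z' := fun h => hne (hβ2 (Finset.mem_coe.2 hz') (Finset.mem_coe.2 hz) h.symm)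
      simp [this]
  have hSuppSp : Supp S' ≤ Sp := by
    have : Supp S' = Supp ((hfin.toFinset : Finset Idx) : Set Idx) := by
      rw [Set.Finite.coe_toFinset]
    rw [this]
    exact Supp_le_Sp _
  let f : F →ₗ[ℝ] GX := toGX fL (fun y => Sp_le_XX (hSuppSp (hfmem y)))
  have hfn : ∀ y, ‖f y‖ = ‖fL y‖ := fun y => by
    rw [← inc.norm_map, inc_toGX]
  refine ⟨f, ?_, ?_⟩
  · intro y
    rw [hfn]
    constructor
    · by_cases hy : y = 0
      · rw [hy]; simp
      · obtain ⟨z, hz, hzy⟩ := hφ2 y hy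
        have h1 : |φ z y| ≤ ‖fL y‖ := by
          rw [← hfβ y z hz]; exact abs_le_norm _ _
        have h2 : (1 + ε)⁻¹ ≤ 1 - δ := by
          rw [inv_le_iff_one_le_mul₀ (by positivity)]
          nlinarith
        calc (1 + ε)⁻¹ * ‖y‖ ≤ (1 - δ) * ‖y‖ := mul_le_mul_of_nonneg_right h2 (norm_nonneg _)
          _ ≤ |φ z y| := hzy
          _ ≤ ‖fL y‖ := h1
    · have h3 : δ ≤ ε := by nlinarith
      apply Supp_norm_le (hfmem y) (by positivity)
      rintro i (hi | ⟨z, hz, rfl⟩)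
      · rw [hfS y i hi]
        calc |g i y| ≤ ‖g i‖ * ‖y‖ := (g i).le_opNorm y
          _ ≤ (1 + ε) * ‖y‖ := mul_le_mul_of_nonneg_right ((hg2 i).trans (by linarith))
              (norm_nonneg _)
      · rw [hfβ y z hz]
        calc |φ z y| ≤ ‖φ z‖ * ‖y‖ := (φ z).le_opNorm y
          _ ≤ (1 + ε) * ‖y‖ := mul_le_mul_of_nonneg_right ((hφ1 z).trans (by linarith))
              (norm_nonneg _)
  · intro x
    have e1 : ‖f x - e0 x‖ = ‖fL x - inc (e0 x)‖ := by
      rw [← inc.norm_map, map_sub, inc_toGX]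
    rw [e1]
    have hd : fL x - e' x ∈ Supp S' :=
      Submodule.sub_mem _ (hfmem x) (Supp_mono (by rw [hS']; exact subset_union_left) (hS x))
    have h1 : ‖fL x - e' x‖ ≤ 2 * δ * ‖x‖ := by
      apply Supp_norm_le hd (by positivity)
      rintro i (hi | ⟨z, hz, rfl⟩)
      · rw [BoundedContinuousFunction.sub_apply, hfS _ i hi, hg1, sub_self, abs_zero]
        positivity
      · rw [BoundedContinuousFunction.sub_apply, hfβ _ z hz]
        have h2 : e' x (β z) = ∑ s ∈ (τ z).support, (τ z s : ℝ) * e' x s := by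
          have hc := hS x (β z) (by simpa using hβS z hz)
          unfold coef at hc
          have : e' x (β z) = rowF (β z) (e' x) := by linarith
          rw [this]
          unfold rowF
          rw [hrow z hz]
        have h3 := hτ3 z x
        rw [← h2] at h3
        have h4 : ((φ z).comp E.subtypeL) x = φ z x := rfl
        rw [h4] at h3
        have h5 : |φ z x| ≤ ‖x‖ := by
          calc |φ z (x : F)| ≤ ‖φ z‖ * ‖(x : F)‖ := (φ z).le_opNorm _
            _ ≤ 1 * ‖(x : F)‖ := mul_le_mul_of_nonneg_right (hφ1 z) (norm_nonneg _)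
            _ = ‖x‖ := one_mul _
        have h6 : φ z (x : F) - e' x (β z)
            = -(e' x (β z) - (1 - δ) * φ z x) + δ * φ z x := by ring
        rw [h6]
        calc |-(e' x (β z) - (1 - δ) * φ z x) + δ * φ z x|
            ≤ |-(e' x (β z) - (1 - δ) * φ z x)| + |δ * φ z x| := abs_add_le _ _
          _ ≤ δ * ‖x‖ + δ * ‖x‖ := by
              rw [abs_neg, abs_mul, abs_of_pos hδ]
              exact add_le_add h3 (mul_le_mul_of_nonneg_left h5 hδ.le)
          _ = 2 * δ * ‖x‖ := by ring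
    calc ‖fL x - inc (e0 x)‖ = ‖(fL x - e' x) + (e' x - inc (e0 x))‖ := by congr 1; abel
      _ ≤ ‖fL x - e' x‖ + ‖e' x - inc (e0 x)‖ := norm_add_le _ _
      _ ≤ 2 * δ * ‖x‖ + δ * ‖x‖ := add_le_add h1 (happ x)
      _ = 3 * δ * ‖x‖ := by ring
      _ ≤ ε * ‖x‖ := mul_le_mul_of_nonneg_right (by nlinarith) (norm_nonneg _)

end Pool.Agent.Helper34.Gur
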