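import Pool.Agent.Helper34.OrthAvg

/-!
# The linking lemma
-/

set_option linter.unusedSectionVars false

namespace Helper34.TraceClass

open MeasureTheory Metric
open scoped ENNReal

section

variable {V Y K U : Type*}
  [NormedAddCommGroup V] [NormedSpace ℝ V] [FiniteDimensional ℝ V] [MeasurableSpace V]
  [BorelSpace V]
  [NormedAddCommGroup Y] [NormedSpace ℝ Y] [CompleteSpace Y]
  [Group K] [TopologicalSpace K] [IsTopologicalGroup K] [CompactSpace K]
  [SecondCountableTopology K] [MeasurableSpace K] [BorelSpace K]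
  [Group U] [TopologicalSpace U] [IsTopologicalGroup U] [CompactSpace U]
  [SecondCountableTopology U] [MeasurableSpace U] [BorelSpace U]

/-- The hypotheses on the map `f` and the weight `W`. -/
structure Good (ν : V → ℝ) (f : V → Y) (W : V → ℝ) (B : ℝ → ℝ) (c : ℝ) : Prop where
  f_cont : Continuous f
  W_cont : Continuous W
  W_nonneg : ∀ v, 0 ≤ W v
  B_nonneg : ∀ t, 0 ≤ t → 0 ≤ B t
  B_mono : ∀ s t, 0 ≤ s → s ≤ t → B s ≤ B t
  ν_nonneg : ∀ x, 0 ≤ ν x
  upper : ∀ x y, ‖f x - f y‖ ≤ B (ν (x - y)) * W y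
  lower : ∀ x y, ν (x - y) = c → W y ≤ ‖f x - f y‖

variable (S : Act V K U) (mU : Measure U) [IsProbabilityMeasure mU] [mU.IsMulRightInvariant]
  (m : Measure K) [IsProbabilityMeasure m] [m.IsMulRightInvariant]
  (μ : Measure V) [μ.IsAddHaarMeasure]

/-- `C` and `C'` are `e`-close with respect to the pseudo-distance. -/
def Close (f : V → Y) (W : V → ℝ) (e : ℝ) (C C' : V) : Prop :=
  0 ≤ e ∧ ∃ s : ℝ, 0 ≤ s ∧ ∀ R, 0 ≤ R →
    Ad S mU m μ f R C C' ≤ ENNReal.ofReal e * Jw μ W (R + s)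

variable {S mU m μ}

lemma Act.act_zero (S : Act V K U) (k : K) : S.act k 0 = 0 := by
  have := S.act_add k 0 0
  simpa using this

lemma Act.act_sub (S : Act V K U) (k : K) (x y : V) :
    S.act k (x - y) = S.act k x - S.act k y := by
  have := S.act_add k (x - y) y
  rw [sub_add_cancel] at this
  rw [this, add_sub_cancel_right]

lemma Act.bound (S : Act V K U) (y : V) : ∃ s : ℝ, 0 ≤ s ∧ ∀ k, ‖S.act k y‖ ≤ s := by
  have hc : Continuous fun k => ‖S.act k y‖ :=
    (S.act_cont.comp (continuous_id.prodMk continuous_const)).norm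
  obtain ⟨s, hs⟩ := (isCompact_range hc).bddAbove
  exact ⟨max s 0, le_max_right _ _, fun k => (hs ⟨k, rfl⟩).trans (le_max_left _ _)⟩

lemma Close.trans {f : V → Y} (hf : Continuous f) {W : V → ℝ} {e e' : ℝ} {C C' C'' : V}
    (h : Close S mU m μ f W e C C') (h' : Close S mU m μ f W e' C' C'') :
    Close S mU m μ f W (e + e') C C'' := by
  obtain ⟨he, s, hs, h⟩ := h
  obtain ⟨he', s', hs', h'⟩ := h'
  refine ⟨add_nonneg he he', max s s', le_max_of_le_left hs, fun R hR => ?_⟩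
  refine (Ad_triangle S mU m μ f hf R C C' C'').trans ?_
  rw [ENNReal.ofReal_add he he', add_mul]
  refine add_le_add ((h R hR).trans ?_) ((h' R hR).trans ?_)
  · exact mul_le_mul_right (Jw_mono μ W (by have := le_max_left s s'; linarith)) _
  · exact mul_le_mul_right (Jw_mono μ W (by have := le_max_right s s'; linarith)) _

lemma Close.symm {f : V → Y} {W : V → ℝ} {e : ℝ} {C C' : V}
    (h : Close S mU m μ f W e C C') : Close S mU m μ f W e C' C := by
  obtain ⟨he, s, hs, h⟩ := h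
  exact ⟨he, s, hs, fun R hR => by rw [Ad_symm]; exact h R hR⟩

lemma Close.mono {f : V → Y} {W : V → ℝ} {e e' : ℝ} {C C' : V}
    (h : Close S mU m μ f W e C C') (he' : e ≤ e') : Close S mU m μ f W e' C C' := by
  obtain ⟨he, s, hs, h⟩ := h
  exact ⟨he.trans he', s, hs, fun R hR => (h R hR).trans
    (mul_le_mul_left (ENNReal.ofReal_le_ofReal he') _)⟩

lemma Close.conj_left {f : V → Y} {W : V → ℝ} {e : ℝ} {C C' : V} (r : U)
    (h : Close S mU m μ f W e C C') : Close S mU m μ f W e (S.act (S.del r) C) C' := by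
  obtain ⟨he, s, hs, h⟩ := h
  refine ⟨he, s, hs, fun R hR => ?_⟩
  unfold Ad at h ⊢
  simp only [Fav_conj]
  exact h R hR

lemma close_dist {ν : V → ℝ} {f : V → Y} {W : V → ℝ} {B : ℝ → ℝ} {c : ℝ}
    (G : Good ν f W B c) (hν : ∀ k x, ν (S.act k x) = ν x) {C C' : V} {a : ℝ}
    (h : ν (C - C') ≤ a) : Close S mU m μ f W (B a) C C' := by
  have ha : 0 ≤ a := (G.ν_nonneg _).trans h
  have hBa := G.B_nonneg a ha
  obtain ⟨s, hs0, hs⟩ := S.bound C'
  refine ⟨hBa, s, hs0, fun R hR => ?_⟩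
  have hΦ : Measurable fun q : K × V => ENNReal.ofReal (B a * W q.2) :=
    (((G.W_cont.comp continuous_snd).const_mul (B a)).measurable).ennreal_ofReal
  have key := avg_le S mU m μ (fun q : K × V => ENNReal.ofReal (B a * W q.2)) hΦ 1 C' R s hs
  have h1 : Ad S mU m μ f R C C' ≤ ∫⁻ k, ∫⁻ v in closedBall (0 : V) R,
        ∫⁻ u, ENNReal.ofReal (B a * W (v + S.act (k * S.del u) C')) ∂mU ∂μ ∂m := by
    refine lintegral_mono fun k => lintegral_mono fun v => ?_
    unfold Fav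
    rw [← integral_sub (Fav_integrable S mU f G.f_cont C k v)
      (Fav_integrable S mU f G.f_cont C' k v)]
    refine (enorm_integral_le_lintegral_enorm _).trans (lintegral_mono fun u => ?_)
    rw [← ofReal_norm]
    refine ENNReal.ofReal_le_ofReal ((G.upper _ _).trans ?_)
    refine mul_le_mul_of_nonneg_right ?_ (G.W_nonneg _)
    refine G.B_mono _ _ (G.ν_nonneg _) ?_
    rw [add_sub_add_left_eq_sub, ← S.act_sub, hν]
    exact h
  refine h1.trans (key.trans (le_of_eq ?_))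
  dsimp only
  rw [lintegral_const, measure_univ, mul_one]
  unfold Jw
  rw [← lintegral_const_mul _ (G.W_cont.measurable.ennreal_ofReal)]
  refine lintegral_congr fun v => ?_
  rw [ENNReal.ofReal_mul hBa]

/-- Double integral. -/
noncomputable def DI (m : Measure K) (μ : Measure V) (R : ℝ) (g : K × V → ℝ≥0∞) : ℝ≥0∞ :=
  ∫⁻ k, ∫⁻ v in closedBall (0 : V) R, g (k, v) ∂μ ∂m

lemma DI_mono {R : ℝ} {g h : K × V → ℝ≥0∞} (H : ∀ q, g q ≤ h q) : DI m μ R g ≤ DI m μ R h :=
  lintegral_mono fun _ => lintegral_mono fun _ => H _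

lemma DI_add {R : ℝ} {g h : K × V → ℝ≥0∞} (hg : Measurable g) :
    DI m μ R (fun q => g q + h q) = DI m μ R g + DI m μ R h := by
  unfold DI
  rw [← lintegral_add_left hg.lintegral_prod_right']
  refine lintegral_congr fun k => ?_
  exact lintegral_add_left (hg.comp (measurable_const.prodMk measurable_id)) _

lemma DI_const_mul {R : ℝ} {g : K × V → ℝ≥0∞} (a : ℝ≥0∞) (hg : Measurable g) :
    DI m μ R (fun q => a * g q) = a * DI m μ R g := by
  unfold DI
  rw [← lintegral_const_mul _ hg.lintegral_prod_right']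
  refine lintegral_congr fun k => ?_
  exact lintegral_const_mul _ (hg.comp (measurable_const.prodMk measurable_id))

lemma DI_sum {R : ℝ} {J : Type*} (s : Finset J) {g : J → K × V → ℝ≥0∞}
    (hg : ∀ j, Measurable (g j)) :
    DI m μ R (fun q => ∑ j ∈ s, g j q) = ∑ j ∈ s, DI m μ R (g j) := by
  classical
  induction s using Finset.induction_on with
  | empty => simp [DI]
  | insert a s ha ih =>
    rw [Finset.sum_insert ha, ← ih, ← DI_add (hg a)]
    congr 1
    funext q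
    rw [Finset.sum_insert ha]

lemma DI_W {R r : ℝ} (hr : 0 ≤ r) {W : V → ℝ} (hW : Continuous W) :
    DI m μ R (fun q => ENNReal.ofReal (r * W q.2)) = ENNReal.ofReal r * Jw μ W R := by
  unfold DI Jw
  dsimp only
  rw [lintegral_const, measure_univ, mul_one,
    ← lintegral_const_mul _ (hW.measurable.ennreal_ofReal)]
  exact lintegral_congr fun v => ENNReal.ofReal_mul hr

/-- The integrand of the type inequality. -/
noncomputable def Phi (S : Act V K U) (f : V → Y) {I : Type} [Fintype I] (x : I → V)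
    (ε : I → Bool) (q : K × V) : ℝ≥0∞ :=
  ‖∑ i, sg (ε i) • (f (q.2 + S.act q.1 (x i)) - f q.2)‖ₑ

lemma Phi_meas {f : V → Y} (hf : Continuous f) {I : Type} [Fintype I] (x : I → V)
    (ε : I → Bool) : Measurable (Phi S f x ε) := by
  have hc : Continuous fun q : K × V =>
      ∑ i, sg (ε i) • (f (q.2 + S.act q.1 (x i)) - f q.2) := by
    refine continuous_finsetSum _ fun i _ => Continuous.const_smul ?_ _
    refine (hf.comp (continuous_snd.add ?_)).sub (hf.comp continuous_snd)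
    exact S.act_cont.comp (continuous_fst.prodMk continuous_const)
  exact hc.stronglyMeasurable.enorm

/-- The shifted and averaged integrand. -/
noncomputable def Psi (S : Act V K U) (mU : Measure U) (Φ : K × V → ℝ≥0∞) (w : K) (y : V)
    (q : K × V) : ℝ≥0∞ :=
  ∫⁻ u, Φ (q.1 * S.del u * w, q.2 + S.act (q.1 * S.del u) y) ∂mU

lemma Psi_meas {Φ : K × V → ℝ≥0∞} (hΦ : Measurable Φ) (w : K) (y : V) :
    Measurable (Psi S mU Φ w y) := by
  have hc : Continuous fun q : (K × V) × U =>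
      ((q.1.1 * S.del q.2 * w, q.1.2 + S.act (q.1.1 * S.del q.2) y) : K × V) := by
    have h1 : Continuous fun q : (K × V) × U => q.1.1 * S.del q.2 :=
      (continuous_fst.comp continuous_fst).mul (S.del_cont.comp continuous_snd)
    refine Continuous.prodMk (h1.mul continuous_const) ?_
    refine (continuous_snd.comp continuous_fst).add ?_
    exact S.act_cont.comp (h1.prodMk continuous_const)
  exact (hΦ.comp hc.measurable).lintegral_prod_right'

lemma Psi_le {Φ : K × V → ℝ≥0∞} (hΦ : Measurable Φ) (w : K) (y : V) (R s : ℝ)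
    (hs : ∀ k, ‖S.act k y‖ ≤ s) : DI m μ R (Psi S mU Φ w y) ≤ DI m μ (R + s) Φ :=
  avg_le S mU m μ Φ hΦ w y R s hs

/-- Pointwise inequality for one sign pattern. -/
lemma link_pt1 {ν : V → ℝ} {f : V → Y} {W : V → ℝ} {B : ℝ → ℝ} {c : ℝ}
    (G : Good ν f W B c) (hν : ∀ k x, ν (S.act k x) = ν x)
    {I : Type} [Fintype I] [DecidableEq I] (x : I → V)
    (w : K) (y : V) (Cp Cm : V) {b : ℝ} (hb : ν y ≤ b) (ε : I → Bool)
    (hconj : ∀ i, ∃ r : U,
      S.act w (x i) + y = S.act (S.del r) (if ε i then Cp else Cm)) (k : K) (v : V) :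
    ‖∑ i, sg (ε i) • (Fav S mU f (if ε i then Cp else Cm) k v - f v)‖ₑ
      ≤ Psi S mU (Phi S f x ε) w y (k, v)
        + ENNReal.ofReal (|∑ i, sg (ε i)| * B b * W v) := by
  have hF : ∀ i, Fav S mU f (if ε i then Cp else Cm) k v
      = ∫ u, f (v + S.act (k * S.del u) (S.act w (x i) + y)) ∂mU := by
    intro i
    obtain ⟨r, hr⟩ := hconj i
    rw [← Fav_conj S mU f _ r k v, ← hr]
    rfl
  have hint : ∀ i, Integrable (fun u =>
      f (v + S.act (k * S.del u) (S.act w (x i) + y))) mU := fun i =>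
    Fav_integrable S mU f G.f_cont _ k v
  have e4 : ∑ i, sg (ε i) • (Fav S mU f (if ε i then Cp else Cm) k v - f v)
      = ∫ u, (∑ i, sg (ε i) •
        (f (v + S.act (k * S.del u) (S.act w (x i) + y)) - f v)) ∂mU := by
    rw [integral_finsetSum _ (fun i _ => ?_)]
    · refine Finset.sum_congr rfl fun i _ => ?_
      rw [integral_smul, integral_sub (hint i) (integrable_const _), integral_const]
      simp only [probReal_univ, one_smul]
      rw [hF i]
    · exact ((hint i).sub (integrable_const _)).smul (sg (ε i))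
  rw [e4]
  refine (enorm_integral_le_lintegral_enorm _).trans ?_
  have e5 : ∀ u : U, ‖∑ i, sg (ε i) •
      (f (v + S.act (k * S.del u) (S.act w (x i) + y)) - f v)‖ₑ
      ≤ Phi S f x ε (k * S.del u * w, v + S.act (k * S.del u) y)
        + ENNReal.ofReal (|∑ i, sg (ε i)| * B b * W v) := by
    intro u
    have e6 : ∑ i, sg (ε i) • (f (v + S.act (k * S.del u) (S.act w (x i) + y)) - f v)
        = (∑ i, sg (ε i) • (f ((v + S.act (k * S.del u) y)
            + S.act (k * S.del u * w) (x i)) - f (v + S.act (k * S.del u) y)))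
          + (∑ i, sg (ε i)) • (f (v + S.act (k * S.del u) y) - f v) := by
      rw [Finset.sum_smul, ← Finset.sum_add_distrib]
      refine Finset.sum_congr rfl fun i _ => ?_
      rw [← smul_add, sub_add_sub_cancel]
      congr 3
      rw [S.act_mul (k * S.del u) w, S.act_add]
      abel
    rw [e6]
    refine (enorm_add_le _ _).trans (add_le_add le_rfl ?_)
    rw [← ofReal_norm]
    refine ENNReal.ofReal_le_ofReal ?_
    rw [norm_smul, Real.norm_eq_abs, mul_assoc]
    refine mul_le_mul_of_nonneg_left ?_ (abs_nonneg _)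
    refine (G.upper _ _).trans (mul_le_mul_of_nonneg_right ?_ (G.W_nonneg _))
    refine G.B_mono _ _ (G.ν_nonneg _) ?_
    rw [add_sub_cancel_left, hν]
    exact hb
  refine (lintegral_mono e5).trans ?_
  rw [lintegral_add_right _ measurable_const, lintegral_const, measure_univ, mul_one]
  exact le_rfl

lemma link_pt {ν : V → ℝ} {f : V → Y} {W : V → ℝ} {B : ℝ → ℝ} {c : ℝ}
    (G : Good ν f W B c) (hν : ∀ k x, ν (S.act k x) = ν x)
    {I : Type} [Fintype I] [DecidableEq I] (x : I → V)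
    (w : (I → Bool) → K) (y : (I → Bool) → V) (Cp Cm : V) {b : ℝ}
    (hb : ∀ ε, ν (y ε) ≤ b)
    (hconj : ∀ ε i, ∃ r : U,
      S.act (w ε) (x i) + y ε = S.act (S.del r) (if ε i then Cp else Cm)) (q : K × V) :
    ENNReal.ofReal (Fintype.card I * 2 ^ (Fintype.card I - 1))
        * ‖Fav S mU f Cp q.1 q.2 - Fav S mU f Cm q.1 q.2‖ₑ
      ≤ ∑ ε : I → Bool, (Psi S mU (Phi S f x ε) (w ε) (y ε) q
        + ENNReal.ofReal (|∑ i, sg (ε i)| * B b * W q.2)) := by
  set Fb : Bool → Y := fun β => Fav S mU f (if β then Cp else Cm) q.1 q.2 - f q.2 with hFb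
  set n := Fintype.card I with hn
  have e1 : ∑ ε : I → Bool, ∑ i, sg (ε i) • Fb (ε i)
      = ((n : ℝ) * 2 ^ (n - 1)) • (Fav S mU f Cp q.1 q.2 - Fav S mU f Cm q.1 q.2) := by
    rw [Finset.sum_comm]
    have e2 : ∀ i : I, ∑ ε : I → Bool, sg (ε i) • Fb (ε i)
        = (2 : ℝ) ^ (n - 1) • (Fav S mU f Cp q.1 q.2 - Fav S mU f Cm q.1 q.2) := by
      intro i
      rw [sum_sign_eval i (fun β => sg β • Fb β)]
      congr 1
      simp only [hFb, sg_true, sg_false, one_smul, neg_smul, if_true, Bool.false_eq_true,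
        if_false]
      abel
    rw [Finset.sum_congr rfl fun i _ => e2 i, Finset.sum_const, Finset.card_univ,
      ← Nat.cast_smul_eq_nsmul ℝ, smul_smul]
  have e3 : ENNReal.ofReal (n * 2 ^ (n - 1)) * ‖Fav S mU f Cp q.1 q.2 - Fav S mU f Cm q.1 q.2‖ₑ
      = ‖∑ ε : I → Bool, ∑ i, sg (ε i) • Fb (ε i)‖ₑ := by
    rw [e1, enorm_smul]
    congr 1
    rw [← ofReal_norm, Real.norm_of_nonneg (by positivity)]
  rw [e3]
  exact (enorm_sum_le _ _).trans (Finset.sum_le_sum fun ε _ =>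
    link_pt1 G hν x (w ε) (y ε) Cp Cm (hb ε) ε (hconj ε) q.1 q.2)

lemma sum_Phi_le {ν : V → ℝ} {f : V → Y} {W : V → ℝ} {B : ℝ → ℝ} {c : ℝ}
    (G : Good ν f W B c) (hν : ∀ k x, ν (S.act k x) = ν x) {T p : ℝ}
    (hT : ∀ (I : Type) [Fintype I] [DecidableEq I] (y : I → Y) (a : ℝ), (∀ i, ‖y i‖ ≤ a) →
      ∑ ε : I → Bool, ‖∑ i, sg (ε i) • y i‖
        ≤ 2 ^ (Fintype.card I) * (T * (Fintype.card I : ℝ) ^ (1 / p) * a))
    {I : Type} [Fintype I] [DecidableEq I] (x : I → V) {a : ℝ}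
    (ha : ∀ i, ν (x i) ≤ a) (q : K × V) :
    ∑ ε : I → Bool, Phi S f x ε q ≤ ENNReal.ofReal
      (2 ^ Fintype.card I * (T * (Fintype.card I : ℝ) ^ (1 / p) * B a) * W q.2) := by
  have h1 := hT I (fun i => f (q.2 + S.act q.1 (x i)) - f q.2) (B a * W q.2) (fun i => by
    refine (G.upper _ _).trans (mul_le_mul_of_nonneg_right ?_ (G.W_nonneg _))
    refine G.B_mono _ _ (G.ν_nonneg _) ?_
    rw [add_sub_cancel_left, hν]
    exact ha i)
  have h2 : ∑ ε : I → Bool, Phi S f x ε q = ENNReal.ofReal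
      (∑ ε : I → Bool, ‖∑ i, sg (ε i) • (f (q.2 + S.act q.1 (x i)) - f q.2)‖) := by
    rw [ENNReal.ofReal_sum_of_nonneg (fun _ _ => norm_nonneg _)]
    refine Finset.sum_congr rfl fun ε _ => ?_
    rw [ofReal_norm]
    rfl
  rw [h2]
  refine ENNReal.ofReal_le_ofReal (h1.trans (le_of_eq ?_))
  ring

lemma link {ν : V → ℝ} {f : V → Y} {W : V → ℝ} {B : ℝ → ℝ} {c : ℝ}
    (G : Good ν f W B c) (hν : ∀ k x, ν (S.act k x) = ν x) {T p : ℝ} (hT0 : 0 ≤ T)
    (hT : ∀ (I : Type) [Fintype I] [DecidableEq I] (y : I → Y) (a : ℝ), (∀ i, ‖y i‖ ≤ a) →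
      ∑ ε : I → Bool, ‖∑ i, sg (ε i) • y i‖
        ≤ 2 ^ (Fintype.card I) * (T * (Fintype.card I : ℝ) ^ (1 / p) * a))
    {y0 : Y} (hy0 : y0 ≠ 0)
    {I : Type} [Fintype I] [DecidableEq I] [Nonempty I] (x : I → V)
    (w : (I → Bool) → K) (y : (I → Bool) → V) (Cp Cm : V) {a b : ℝ}
    (ha : ∀ i, ν (x i) ≤ a) (hb : ∀ ε, ν (y ε) ≤ b)
    (hconj : ∀ ε i, ∃ r : U,
      S.act (w ε) (x i) + y ε = S.act (S.del r) (if ε i then Cp else Cm)) :
    Close S mU m μ f W (2 * T * (Fintype.card I : ℝ) ^ (1 / p - 1) * (B a + B b)) Cp Cm := by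
  classical
  obtain ⟨i0⟩ := ‹Nonempty I›
  have ha0 : 0 ≤ a := (G.ν_nonneg _).trans (ha i0)
  have hb0 : 0 ≤ b := (G.ν_nonneg _).trans (hb (fun _ => true))
  have hBa := G.B_nonneg a ha0
  have hBb := G.B_nonneg b hb0
  set n := Fintype.card I with hn
  have hnpos : 0 < n := Fintype.card_pos_iff.mpr ⟨i0⟩
  have hnR : (0 : ℝ) < n := by exact_mod_cast hnpos
  set Tn : ℝ := T * (n : ℝ) ^ (1 / p) with hTn
  have hTn0 : 0 ≤ Tn := mul_nonneg hT0 (Real.rpow_nonneg hnR.le _)
  -- the bound for the mean of the absolute value of a sum of signs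
  have hsg : ∑ ε : I → Bool, |∑ i, sg (ε i)| ≤ 2 ^ n * Tn := by
    have h1 := hT I (fun _ => (‖y0‖⁻¹) • y0) 1 (fun _ => by
      rw [norm_smul, norm_inv, norm_norm, inv_mul_cancel₀ (norm_ne_zero_iff.mpr hy0)])
    rw [mul_one] at h1
    refine le_trans (le_of_eq (Finset.sum_congr rfl fun ε _ => ?_)) h1
    rw [← Finset.sum_smul, norm_smul, norm_smul, norm_inv, norm_norm,
      inv_mul_cancel₀ (norm_ne_zero_iff.mpr hy0), mul_one, Real.norm_eq_abs]
  choose s hs0 hs using fun ε => S.bound (y ε)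
  obtain ⟨s', hs'⟩ := (Set.finite_range s).bddAbove
  have hs'' : ∀ ε k, ‖S.act k (y ε)‖ ≤ s' := fun ε k => (hs ε k).trans (hs' ⟨ε, rfl⟩)
  have hs'0 : 0 ≤ s' := (hs0 (fun _ => true)).trans (hs' ⟨_, rfl⟩)
  have hC0 : 0 ≤ 2 * T * (n : ℝ) ^ (1 / p - 1) * (B a + B b) := by
    have := Real.rpow_nonneg hnR.le (1 / p - 1)
    positivity
  refine ⟨hC0, s', hs'0, fun R hR => ?_⟩
  have hmF : Measurable fun q : K × V =>
      ‖Fav S mU f Cp q.1 q.2 - Fav S mU f Cm q.1 q.2‖ₑ :=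
    ((Fav_meas S mU f G.f_cont Cp).sub (Fav_meas S mU f G.f_cont Cm)).enorm
  have hmid : ENNReal.ofReal (n * 2 ^ (n - 1)) * Ad S mU m μ f R Cp Cm
      ≤ ∑ ε : I → Bool, (DI m μ R (Psi S mU (Phi S f x ε) (w ε) (y ε))
        + ENNReal.ofReal (|∑ i, sg (ε i)| * B b) * Jw μ W R) := by
    have h0 : ENNReal.ofReal (n * 2 ^ (n - 1)) * Ad S mU m μ f R Cp Cm
        = DI m μ R (fun q => ENNReal.ofReal (n * 2 ^ (n - 1)) *
          ‖Fav S mU f Cp q.1 q.2 - Fav S mU f Cm q.1 q.2‖ₑ) :=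
      (DI_const_mul _ hmF).symm
    rw [h0]
    refine (DI_mono (link_pt G hν x w y Cp Cm hb hconj)).trans (le_of_eq ?_)
    have hmW : ∀ r : ℝ, Measurable fun q : K × V => ENNReal.ofReal (r * W q.2) := fun r =>
      ((G.W_cont.comp continuous_snd).const_mul r).measurable.ennreal_ofReal
    rw [DI_sum]
    · refine Finset.sum_congr rfl fun ε _ => ?_
      rw [DI_add (Psi_meas (Phi_meas G.f_cont x ε) _ _), DI_W (by positivity) G.W_cont]
    · intro ε
      exact (Psi_meas (Phi_meas G.f_cont x ε) _ _).add (hmW _)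
  have hfin1 : ∑ ε : I → Bool, DI m μ R (Psi S mU (Phi S f x ε) (w ε) (y ε))
      ≤ ENNReal.ofReal (2 ^ n * (Tn * B a)) * Jw μ W (R + s') := by
    calc _ ≤ ∑ ε : I → Bool, DI m μ (R + s') (Phi S f x ε) :=
          Finset.sum_le_sum fun ε _ => Psi_le (Phi_meas G.f_cont x ε) (w ε) (y ε) R s' (hs'' ε)
      _ = DI m μ (R + s') (fun q => ∑ ε : I → Bool, Phi S f x ε q) := by
          rw [DI_sum _ fun ε => Phi_meas G.f_cont x ε]
      _ ≤ DI m μ (R + s') (fun q => ENNReal.ofReal (2 ^ n * (Tn * B a) * W q.2)) :=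
          DI_mono (sum_Phi_le G hν hT x ha)
      _ = _ := DI_W (by positivity) G.W_cont
  have hfin2 : ∑ ε : I → Bool, ENNReal.ofReal (|∑ i, sg (ε i)| * B b) * Jw μ W R
      ≤ ENNReal.ofReal (2 ^ n * (Tn * B b)) * Jw μ W (R + s') := by
    rw [← Finset.sum_mul]
    refine mul_le_mul' ?_ (Jw_mono μ W (by linarith))
    rw [← ENNReal.ofReal_sum_of_nonneg (fun _ _ => mul_nonneg (abs_nonneg _) hBb)]
    refine ENNReal.ofReal_le_ofReal ?_
    rw [← Finset.sum_mul, ← mul_assoc]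
    exact mul_le_mul_of_nonneg_right hsg hBb
  have htot : ENNReal.ofReal (n * 2 ^ (n - 1)) * Ad S mU m μ f R Cp Cm
      ≤ ENNReal.ofReal (2 ^ n * (Tn * (B a + B b))) * Jw μ W (R + s') := by
    refine hmid.trans ?_
    rw [Finset.sum_add_distrib]
    refine (add_le_add hfin1 hfin2).trans (le_of_eq ?_)
    rw [← add_mul, ← ENNReal.ofReal_add (by positivity) (by positivity)]
    congr 2
    ring
  have hfac : 2 ^ n * (Tn * (B a + B b))
      = (n * 2 ^ (n - 1)) * (2 * T * (n : ℝ) ^ (1 / p - 1) * (B a + B b)) := by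
    have h1 : (n : ℝ) ^ (1 / p) = n * (n : ℝ) ^ (1 / p - 1) := by
      rw [Real.rpow_sub_one hnR.ne']
      field_simp
    have h2 : (2 : ℝ) ^ n = 2 * 2 ^ (n - 1) := by
      rw [← pow_succ']
      congr 1
      omega
    rw [hTn, h1, h2]
    ring
  have hpos : (0 : ℝ) < n * 2 ^ (n - 1) := mul_pos hnR (pow_pos two_pos _)
  rw [hfac, ENNReal.ofReal_mul (p := (n : ℝ) * 2 ^ (n - 1)) hpos.le,
    mul_assoc (ENNReal.ofReal ((n : ℝ) * 2 ^ (n - 1)))] at htot
  have hne : ENNReal.ofReal ((n : ℝ) * 2 ^ (n - 1)) ≠ 0 := by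
    rw [Ne, ENNReal.ofReal_eq_zero, not_le]
    exact hpos
  exact (ENNReal.mul_le_mul_iff_right hne ENNReal.ofReal_ne_top).mp htot

end

end Helper34.TraceClass
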