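import Pool.Agent.Helper34.Chain

/-!
# The master theorem
-/

set_option linter.unusedSectionVars false

namespace Helper34.TraceClass

open Finset MeasureTheory

section

variable {Y : Type*} [NormedAddCommGroup Y] [NormedSpace ℝ Y] [CompleteSpace Y]

/-- The type constant in the form used below. -/
def TypeIneq (Y : Type*) [NormedAddCommGroup Y] [NormedSpace ℝ Y] (T p : ℝ) : Prop :=
  ∀ (I : Type) [Fintype I] [DecidableEq I] (y : I → Y) (a : ℝ), (∀ i, ‖y i‖ ≤ a) →
      ∑ ε : I → Bool, ‖∑ i, sg (ε i) • y i‖
        ≤ 2 ^ (Fintype.card I) * (T * (Fintype.card I : ℝ) ^ (1 / p) * a)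

/-- Closeness for the concrete action. -/
def CloseM {Λ : Type} [Fintype Λ] [DecidableEq Λ] (f : Mat Λ → Y) (W : Mat Λ → ℝ) (e : ℝ)
    (C C' : Mat Λ) : Prop :=
  Close (ortAct Λ) (hp (OG Λ)) (hp (OG Λ × OG Λ)) (volume : Measure (Mat Λ)) f W e C C'

variable {ι : Type} [Fintype ι] [DecidableEq ι]
  {ν : Mat (ι → Bool) → ℝ} {f : Mat (ι → Bool) → Y} {W : Mat (ι → Bool) → ℝ} {Bf : ℝ → ℝ} {c : ℝ}

lemma nM_lr (i : ι) (d : (ι → Bool) → ℝ) : ∃ k, nM i (fun _ => 0) d = lr k (nd d) := by
  have h1 : MM i (fun _ => (0 : ℝ)) (fun _ => (1 : ℝ)) *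
      (MM i (fun _ => (0 : ℝ)) (fun _ => (1 : ℝ))).transpose = 1 := by
    rw [MM_transpose, MM_mul, ← MM_one i]
    congr 1
    · funext x; ring
    · funext x; ring
  refine ⟨(1, OG.mk' _ h1), ?_⟩
  have h2 : (MM i (fun _ => 0) d : Mat (ι → Bool))
      = lr (1, OG.mk' _ h1) (Matrix.diagonal d : Mat (ι → Bool)) := by
    apply Matrix.of.injective
    rw [of_lr]
    simp only [OG.mk'_mat, OG.mat_one, one_mul]
    change MM i _ _ = Matrix.diagonal _ * _
    rw [← MM_diag i, MM_transpose, MM_mul]
    congr 1
    · funext x; ring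
    · funext x; ring
  have h3 := lr_smul (1, OG.mk' _ h1) (1 / (Fintype.card (ι → Bool) : ℝ))
    (Matrix.diagonal d : Mat (ι → Bool))
  rw [← h2] at h3
  exact h3.symm

lemma SNorm.nM_le (h : SNorm ν) (i : ι) (d : (ι → Bool) → ℝ) :
    ν (nM i (fun _ => 0) d) ≤ L1 d := by
  obtain ⟨k, hk⟩ := nM_lr i d
  rw [hk, h.inv]
  exact h.nd_le d

variable (hG : Good ν f W Bf c) (hS : SNorm ν) {T p : ℝ} (hT0 : 0 ≤ T) (hT : TypeIneq Y T p)
  {y0 : Y} (hy0 : y0 ≠ 0) (hp1 : 1 < p)

include hG hS hT0 hT hy0 hp1

lemma r2 {R : Finset ι} {j l : ι} (hj : j ∈ R) (hl : l ∈ R) (hjl : j ≠ l)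
    {B C : (ι → Bool) → ℝ} (hB : Indep R B) (hC : Indep R C) {n0 : ℕ} (hn0 : 1 ≤ n0)
    (hn : n0 + 1 ≤ R.card) {M : ℝ} (hM : L1 B + L1 C ≤ M) :
    CloseM f W (4 * T * (n0 : ℝ) ^ (1 / p - 1) * Bf M)
      (nd (fun x => B x + C x * sn j x))
      (nd (fun x => B x + kap * C x * (1 + sn l x) * sn j x)) := by
  have hcard : Fintype.card {i // i ∈ R.erase l} = R.card - 1 := by
    rw [Fintype.card_coe, Finset.card_erase_of_mem hl]
  have hne : Nonempty {i // i ∈ R.erase l} := by
    rw [← Fintype.card_pos_iff, hcard]; omega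
  have hM0 : 0 ≤ M := (add_nonneg (L1_nonneg _) (L1_nonneg _)).trans hM
  have key := link (S := ortAct (ι → Bool)) (mU := hp (OG (ι → Bool)))
    (m := hp (OG (ι → Bool) × OG (ι → Bool))) (μ := (volume : Measure (Mat (ι → Bool))))
    hG hS.inv hT0 hT hy0 (I := {i // i ∈ R.erase l})
    (fun i => nM i.1 (fun _ => 0) (fun x => kap * C x))
    (fun _ => 1) (fun ε => nd (fun x => B x + kap * C x * (sn l x * gp ε x)))
    (nd (fun x => B x + C x * sn j x))
    (nd (fun x => B x + kap * C x * (1 + sn l x) * sn j x)) (a := M) (b := M)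
    (fun i => by
      refine (hS.nM_le _ _).trans ?_
      rw [L1_smul, abs_of_pos kap_pos]
      have h1 := kap_lt
      have h2 := L1_nonneg C
      have h3 := L1_nonneg B
      nlinarith)
    (fun ε => by
      refine (hS.nd_le _).trans ((L1_add_le _ _).trans (le_trans ?_ hM))
      refine add_le_add le_rfl ?_
      refine L1_mono fun x => ?_
      have h1 : |sn l x * gp ε x| = 1 := by
        have : (sn l x * gp ε x) * (sn l x * gp ε x) = 1 := by
          linear_combination (sn l x * sn l x) * gp_sq ε x + sn_sq l x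
        rcases mul_self_eq_one_iff.mp this with h | h <;> rw [h] <;> simp
      rw [abs_mul, h1, mul_one, abs_mul, abs_of_pos kap_pos]
      have := kap_lt
      nlinarith [abs_nonneg (C x)])
    (fun ε i => by
      change ∃ r : OG (ι → Bool), lr 1 (nM i.1 (fun _ => 0) (fun x => kap * C x)) + _
        = lr (r, r) _
      rw [lr_one]
      by_cases hi : ε i = true
      · rw [if_pos hi]
        exact cnj_anti hj hB hC ε i hi
      · rw [if_neg hi]
        exact cnj_comm hj hl hjl hB hC ε i (by simpa using hi))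
  refine Close.mono key ?_
  have hBM := hG.B_nonneg M hM0
  have hn0R : (0 : ℝ) < n0 := by exact_mod_cast hn0
  have h1 : ((Fintype.card {i // i ∈ R.erase l} : ℕ) : ℝ) ^ (1 / p - 1)
      ≤ (n0 : ℝ) ^ (1 / p - 1) := by
    refine Real.rpow_le_rpow_of_nonpos hn0R ?_ ?_
    · rw [hcard]
      have : n0 ≤ R.card - 1 := by omega
      exact_mod_cast this
    · have : 1 / p < 1 := by
        rw [div_lt_one (by linarith)]; exact hp1
      linarith
  calc 2 * T * ((Fintype.card {i // i ∈ R.erase l} : ℕ) : ℝ) ^ (1 / p - 1) * (Bf M + Bf M)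
      ≤ 2 * T * (n0 : ℝ) ^ (1 / p - 1) * (Bf M + Bf M) := by
        refine mul_le_mul_of_nonneg_right (mul_le_mul_of_nonneg_left h1 (by positivity))
          (by positivity)
    _ = _ := by ring

/-- `K` links in a row. -/
lemma iter (K : ℕ) {R : Finset ι} {j : ι} (hj : j ∈ R)
    {B : (ι → Bool) → ℝ} (hB : Indep R B) {n0 : ℕ} (hn0 : 1 ≤ n0)
    (hn : n0 + K + 1 ≤ R.card) :
    ∃ (g : (ι → Bool) → ℝ) (R' : Finset ι), R' ⊆ R ∧ j ∈ R' ∧ R'.card = R.card - K ∧
      Indep (R \ R')ᶜ g ∧
      (∀ D : (ι → Bool) → ℝ, Indep R D → L1 (fun x => D x * g x) ≤ kap ^ K * L1 D) ∧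
      ∀ (C : (ι → Bool) → ℝ) (M : ℝ), Indep R C → L1 B + L1 C ≤ M →
      CloseM f W (K * (4 * T * (n0 : ℝ) ^ (1 / p - 1) * Bf M))
        (nd (fun x => B x + C x * sn j x)) (nd (fun x => B x + C x * g x * sn j x)) := by
  induction K with
  | zero =>
    refine ⟨fun _ => 1, R, Finset.Subset.refl _, hj, by simp, Indep.const _, fun D _ => by simp,
      fun C M _ hM => ?_⟩
    simp only [mul_one, Nat.cast_zero, zero_mul]
    refine ⟨le_rfl, 0, le_rfl, fun r _ => ?_⟩
    have : Ad (ortAct (ι → Bool)) (hp (OG (ι → Bool))) (hp (OG (ι → Bool) × OG (ι → Bool)))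
        (volume : Measure (Mat (ι → Bool))) f r (nd (fun x => B x + C x * sn j x))
        (nd (fun x => B x + C x * sn j x)) = 0 := by
      unfold Ad; simp
    rw [this]
    exact bot_le
  | succ K ih =>
    obtain ⟨g, R', hR', hjR', hcard, hg, hgL, hclose⟩ := ih (by omega)
    -- choose a fresh bit
    have hex : ∃ l ∈ R', l ≠ j := by
      by_contra hcon
      push Not at hcon
      have : R' ⊆ {j} := fun l hl => by rw [Finset.mem_singleton]; exact hcon l hl
      have := Finset.card_le_card this
      rw [Finset.card_singleton] at this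
      omega
    obtain ⟨l, hlR', hlj⟩ := hex
    have hlR : l ∈ R := hR' hlR'
    refine ⟨fun x => kap * (g x * (1 + sn l x)), R'.erase l, ?_, ?_, ?_, ?_, ?_, ?_⟩
    · exact (Finset.erase_subset _ _).trans hR'
    · exact Finset.mem_erase.mpr ⟨hlj.symm, hjR'⟩
    · rw [Finset.card_erase_of_mem hlR']; omega
    · intro i hi x
      have hil : i ≠ l := by
        rintro rfl
        rw [Finset.mem_compl, Finset.mem_sdiff, not_and, not_not] at hi
        exact (Finset.notMem_erase i R') (hi hlR)
      have hi' : i ∈ (R \ R')ᶜ := by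
        rw [Finset.mem_compl, Finset.mem_sdiff, not_and, not_not] at hi ⊢
        intro h
        exact Finset.mem_of_mem_erase (hi h)
      change kap * (g (fl i x) * (1 + sn l (fl i x))) = _
      rw [hg i hi', sn_fl_ne hil.symm]
    · intro D hD
      have hgl : ∀ x, g (fl l x) = g x := hg l (by
        rw [Finset.mem_compl, Finset.mem_sdiff, not_and, not_not]
        exact fun _ => hlR')
      have h1 : (fun x => D x * (kap * (g x * (1 + sn l x))))
          = fun x => kap * ((D x * g x) * (1 + sn l x)) := by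
        funext x; ring
      rw [h1, L1_smul, abs_of_pos kap_pos, L1_half (fun x => by rw [hD l hlR, hgl])]
      have h2 := hgL D hD
      have h3 := kap_pos
      calc kap * L1 (fun x => D x * g x) ≤ kap * (kap ^ K * L1 D) :=
            mul_le_mul_of_nonneg_left h2 h3.le
        _ = kap ^ (K + 1) * L1 D := by ring
    · intro C M hC hM
      have h1 := hclose C M hC hM
      have hCg : Indep R' (fun x => C x * g x) := by
        refine (hC.mono hR').mul (hg.mono ?_)
        intro i hi
        rw [Finset.mem_compl, Finset.mem_sdiff, not_and, not_not]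
        exact fun _ => hi
      have hL : L1 (fun x => C x * g x) ≤ L1 C := by
        refine (hgL C hC).trans ?_
        have : kap ^ K ≤ 1 := pow_le_one₀ kap_pos.le kap_lt.le
        have := L1_nonneg C
        nlinarith
      have h2 := r2 hG hS hT0 hT hy0 hp1 hjR' hlR' hlj.symm (hB.mono hR') hCg hn0
        (by omega) (M := M) (by linarith)
      have h3 := Close.trans hG.f_cont h1 h2
      have e1 : ((K + 1 : ℕ) : ℝ) * (4 * T * (n0 : ℝ) ^ (1 / p - 1) * Bf M)
          = K * (4 * T * (n0 : ℝ) ^ (1 / p - 1) * Bf M)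
            + 4 * T * (n0 : ℝ) ^ (1 / p - 1) * Bf M := by
        push_cast; ring
      have e2 : (fun x => B x + C x * (kap * (g x * (1 + sn l x))) * sn j x)
          = fun x => B x + kap * (C x * g x) * (1 + sn l x) * sn j x := by
        funext x; ring
      rw [e1, e2]
      exact h3

/-- The chain of links: all the factors `1 + s_j`, `j ∈ A`, are replaced. -/
lemma chain (K : ℕ) {n0 : ℕ} (hn0 : 1 ≤ n0) (Y0 M : ℝ) (A : Finset ι) :
    ∀ (R : Finset ι) (D : (ι → Bool) → ℝ), Disjoint A R → Indep (A ∪ R) D →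
      n0 + (K + 1) * (A.card + 1) ≤ R.card → |Y0| + 2 ^ A.card * L1 D ≤ M →
      ∃ D' : (ι → Bool) → ℝ, L1 (fun x => D' x - D x) ≤ ((1 + kap ^ K) ^ A.card - 1) * L1 D ∧
        CloseM f W (A.card * K * (4 * T * (n0 : ℝ) ^ (1 / p - 1) * Bf M))
          (nd (fun x => Y0 + D x * ∏ j ∈ A, (1 + sn j x))) (nd (fun x => Y0 + D' x)) := by
  induction A using Finset.induction_on with
  | empty =>
    intro R D _ _ _ _
    refine ⟨D, by simp [L1], ?_⟩
    simp only [Finset.prod_empty, mul_one, Finset.card_empty, Nat.cast_zero, zero_mul]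
    refine ⟨le_rfl, 0, le_rfl, fun r _ => ?_⟩
    have : Ad (ortAct (ι → Bool)) (hp (OG (ι → Bool))) (hp (OG (ι → Bool) × OG (ι → Bool)))
        (volume : Measure (Mat (ι → Bool))) f r (nd (fun x => Y0 + D x))
        (nd (fun x => Y0 + D x)) = 0 := by
      unfold Ad; simp
    rw [this]
    exact bot_le
  | insert j A' hjA' ih =>
    intro R D hdis hind hcard hM
    rw [Finset.card_insert_of_notMem hjA'] at hcard hM ⊢
    have hjR : j ∉ R := by
      intro h
      exact (Finset.disjoint_left.mp hdis (Finset.mem_insert_self j A')) h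
    have hdis' : Disjoint A' R := Finset.disjoint_of_subset_left (Finset.subset_insert _ _) hdis
    -- the product function
    set P : (ι → Bool) → ℝ := fun x => D x * ∏ i ∈ A', (1 + sn i x) with hP
    have hPind : Indep (insert j R) P := by
      intro i hi x
      have hi2 : i ∈ insert j A' ∪ R := by
        rw [Finset.mem_union, Finset.mem_insert]
        rcases Finset.mem_insert.mp hi with h | h
        · exact Or.inl (Or.inl h)
        · exact Or.inr h
      simp only [hP]
      rw [hind i hi2]
      congr 1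
      refine Finset.prod_congr rfl fun k hk => ?_
      rw [sn_fl_ne]
      rintro rfl
      rcases Finset.mem_insert.mp hi with h | h
      · exact hjA' (h ▸ hk)
      · exact (Finset.disjoint_left.mp hdis' hk) h
    have hPL : L1 P ≤ 2 ^ A'.card * L1 D := by
      have h2 : (2 : ℝ) ^ A'.card * L1 D = L1 (fun x => 2 ^ A'.card * D x) := by
        rw [L1_smul, abs_of_pos (by positivity)]
      rw [h2]
      refine L1_mono fun x => ?_
      simp only [hP]
      rw [abs_mul, abs_mul, mul_comm |(2 : ℝ) ^ A'.card|]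
      refine mul_le_mul_of_nonneg_left ?_ (abs_nonneg _)
      rw [Finset.abs_prod, abs_of_pos (by positivity : (0 : ℝ) < 2 ^ A'.card),
        ← Finset.prod_const]
      refine Finset.prod_le_prod (fun _ _ => abs_nonneg _) fun i _ => ?_
      unfold sn
      split <;> norm_num
    have hYP : L1 (fun x => Y0 + P x) + L1 P ≤ M := by
      have h3 : L1 (fun x => Y0 + P x) ≤ |Y0| + L1 P := by
        have := L1_add_le (fun _ : ι → Bool => Y0) P
        rwa [L1_const] at this
      have h4 : (2 : ℝ) ^ (A'.card + 1) * L1 D = 2 * (2 ^ A'.card * L1 D) := by ring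
      rw [h4] at hM
      linarith
    have hYPind : Indep (insert j R) (fun x => Y0 + P x) := (Indep.const Y0).add hPind
    obtain ⟨g, R', hR', hjR', hcard', hg, hgL, hclose⟩ :=
      iter hG hS hT0 hT hy0 hp1 K (Finset.mem_insert_self j R) hYPind hn0 (by
        rw [Finset.card_insert_of_notMem hjR]
        have : (K + 1) * (A'.card + 1 + 1) = (K + 1) * (A'.card + 1) + (K + 1) := by ring
        omega)
    have h1 := hclose P M hPind hYP
    -- the new coefficient
    set D1 : (ι → Bool) → ℝ := fun x => D x * (1 + g x * sn j x) with hD1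
    have hkK1 : kap ^ K ≤ 1 := pow_le_one₀ kap_pos.le kap_lt.le
    have hkK0 : 0 ≤ kap ^ K := (pow_pos kap_pos K).le
    have hLD := L1_nonneg D
    have hdiff : L1 (fun x => D1 x - D x) ≤ kap ^ K * L1 D := by
      refine le_trans (L1_mono (e := fun x => D x * g x) fun x => ?_)
        (hgL D (hind.mono (by
          intro i hi
          rw [Finset.mem_union, Finset.mem_insert]
          rcases Finset.mem_insert.mp hi with h | h
          · exact Or.inl (Or.inl h)
          · exact Or.inr h)))
      simp only [hD1]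
      have : D x * (1 + g x * sn j x) - D x = D x * g x * sn j x := by ring
      rw [this, abs_mul, abs_sn, mul_one]
    have hD1L : L1 D1 ≤ (1 + kap ^ K) * L1 D := by
      have h3 := L1_add_le D (fun x => D1 x - D x)
      have h4 : (fun x => D x + (D1 x - D x)) = D1 := by funext x; ring
      rw [h4] at h3
      linarith
    have hD1ind : Indep (A' ∪ R'.erase j) D1 := by
      intro i hi x
      have hij : i ≠ j := by
        rintro rfl
        rcases Finset.mem_union.mp hi with h | h
        · exact hjA' h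
        · exact Finset.notMem_erase _ _ h
      have hi2 : i ∈ insert j A' ∪ R := by
        rw [Finset.mem_union, Finset.mem_insert]
        rcases Finset.mem_union.mp hi with h | h
        · exact Or.inl (Or.inr h)
        · have := hR' (Finset.mem_of_mem_erase h)
          rcases Finset.mem_insert.mp this with h' | h'
          · exact absurd h' hij
          · exact Or.inr h'
      have hi3 : i ∈ (insert j R \ R')ᶜ := by
        rw [Finset.mem_compl, Finset.mem_sdiff, not_and, not_not]
        intro h'
        rcases Finset.mem_union.mp hi with h | h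
        · rcases Finset.mem_insert.mp h' with h'' | h''
          · exact absurd h'' hij
          · exact absurd h'' (Finset.disjoint_left.mp hdis' h)
        · exact Finset.mem_of_mem_erase h
      simp only [hD1]
      rw [hind i hi2, hg i hi3, sn_fl_ne hij.symm]
    obtain ⟨D', hD'L, hD'close⟩ := ih (R'.erase j) D1
      (by
        rw [Finset.disjoint_left]
        intro i hi hi'
        have := hR' (Finset.mem_of_mem_erase hi')
        rcases Finset.mem_insert.mp this with h | h
        · exact hjA' (h ▸ hi)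
        · exact (Finset.disjoint_left.mp hdis' hi) h)
      hD1ind
      (by
        rw [Finset.card_erase_of_mem hjR', hcard', Finset.card_insert_of_notMem hjR]
        have : (K + 1) * (A'.card + 1 + 1) = (K + 1) * (A'.card + 1) + (K + 1) := by ring
        omega)
      (by
        refine le_trans ?_ hM
        have h4 : (2 : ℝ) ^ (A'.card + 1) * L1 D = 2 ^ A'.card * (2 * L1 D) := by ring
        rw [h4]
        have h5 : L1 D1 ≤ 2 * L1 D := by nlinarith
        have h6 : (0 : ℝ) < 2 ^ A'.card := by positivity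
        have := mul_le_mul_of_nonneg_left h5 h6.le
        linarith)
    refine ⟨D', ?_, ?_⟩
    · have h3 := L1_add_le (fun x => D' x - D1 x) (fun x => D1 x - D x)
      have h4 : (fun x => D' x - D1 x + (D1 x - D x)) = fun x => D' x - D x := by funext x; ring
      rw [h4] at h3
      have h5 : 0 ≤ (1 + kap ^ K) ^ A'.card - 1 := by
        have : (1 : ℝ) ≤ (1 + kap ^ K) ^ A'.card := one_le_pow₀ (by linarith)
        linarith
      calc L1 (fun x => D' x - D x)
          ≤ ((1 + kap ^ K) ^ A'.card - 1) * L1 D1 + kap ^ K * L1 D := by linarith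
        _ ≤ ((1 + kap ^ K) ^ A'.card - 1) * ((1 + kap ^ K) * L1 D) + kap ^ K * L1 D := by
            have := mul_le_mul_of_nonneg_left hD1L h5
            linarith
        _ = ((1 + kap ^ K) ^ (A'.card + 1) - 1) * L1 D := by ring
    · have h3 : (fun x => Y0 + D x * ∏ i ∈ insert j A', (1 + sn i x))
          = fun x => (Y0 + P x) + P x * sn j x := by
        funext x
        rw [Finset.prod_insert hjA']
        simp only [hP]
        ring
      have h4 : (fun x => (Y0 + P x) + P x * g x * sn j x)
          = fun x => Y0 + D1 x * ∏ i ∈ A', (1 + sn i x) := by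
        funext x
        simp only [hP, hD1]
        ring
      rw [h4] at h1
      rw [h3]
      have h5 := Close.trans hG.f_cont h1 hD'close
      have e1 : ((A'.card + 1 : ℕ) : ℝ) * K * (4 * T * (n0 : ℝ) ^ (1 / p - 1) * Bf M)
          = K * (4 * T * (n0 : ℝ) ^ (1 / p - 1) * Bf M)
            + A'.card * K * (4 * T * (n0 : ℝ) ^ (1 / p - 1) * Bf M) := by
        push_cast; ring
      rw [e1]
      exact h5

end

end Helper34.TraceClass
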