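import Pool.Agent.Helper34.TypeDefs

/-!
# Averages over a compact group and over large balls
-/

set_option linter.unusedSectionVars false

namespace Helper34.TraceClass

open MeasureTheory Metric
open scoped ENNReal

/-- A compact group `K` acting linearly on `V`, with a subgroup parametrised by `U`. -/
structure Act (V K U : Type*) [NormedAddCommGroup V] [Group K] [TopologicalSpace K]
    [Group U] [TopologicalSpace U] where
  act : K → V → V
  act_mul : ∀ k l x, act (k * l) x = act k (act l x)
  act_add : ∀ k x y, act k (x + y) = act k x + act k y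
  act_cont : Continuous fun q : K × V => act q.1 q.2
  del : U → K
  del_mul : ∀ a b, del (a * b) = del a * del b
  del_cont : Continuous del

section

variable {V Y K U : Type*}
  [NormedAddCommGroup V] [NormedSpace ℝ V] [FiniteDimensional ℝ V] [MeasurableSpace V]
  [BorelSpace V]
  [NormedAddCommGroup Y] [NormedSpace ℝ Y] [CompleteSpace Y]
  [Group K] [TopologicalSpace K] [IsTopologicalGroup K] [CompactSpace K]
  [SecondCountableTopology K] [MeasurableSpace K] [BorelSpace K]
  [Group U] [TopologicalSpace U] [IsTopologicalGroup U] [CompactSpace U]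
  [SecondCountableTopology U] [MeasurableSpace U] [BorelSpace U]

lemma shift_le (μ : Measure V) [μ.IsAddHaarMeasure] (φ : V → ℝ≥0∞) (z : V) (R s : ℝ)
    (hz : ‖z‖ ≤ s) :
    ∫⁻ v in closedBall (0 : V) R, φ (v + z) ∂μ ≤ ∫⁻ v in closedBall (0 : V) (R + s), φ v ∂μ := by
  rw [← lintegral_indicator measurableSet_closedBall,
    ← lintegral_indicator measurableSet_closedBall,
    ← lintegral_add_right_eq_self (μ := μ) ((closedBall (0 : V) (R + s)).indicator φ) z]
  refine lintegral_mono fun v => ?_
  by_cases hv : v ∈ closedBall (0 : V) R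
  · have hv' : v + z ∈ closedBall (0 : V) (R + s) := by
      rw [mem_closedBall_zero_iff] at hv ⊢
      exact (norm_add_le _ _).trans (add_le_add hv hz)
    rw [Set.indicator_of_mem hv, Set.indicator_of_mem hv']
  · rw [Set.indicator_of_notMem hv]
    exact bot_le

variable (S : Act V K U) (mU : Measure U) [IsProbabilityMeasure mU]
  (m : Measure K) [IsProbabilityMeasure m] [m.IsMulRightInvariant]
  (μ : Measure V) [μ.IsAddHaarMeasure]

include S in
lemma avg_le (Φ : K × V → ℝ≥0∞) (hΦ : Measurable Φ) (w : K) (y : V) (R s : ℝ)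
    (hs : ∀ k, ‖S.act k y‖ ≤ s) :
    ∫⁻ k, ∫⁻ v in closedBall (0 : V) R,
        ∫⁻ u, Φ (k * S.del u * w, v + S.act (k * S.del u) y) ∂mU ∂μ ∂m
      ≤ ∫⁻ k, ∫⁻ v in closedBall (0 : V) (R + s), Φ (k, v) ∂μ ∂m := by
  have hc : Continuous fun q : (K × V) × U =>
      ((q.1.1 * S.del q.2 * w, q.1.2 + S.act (q.1.1 * S.del q.2) y) : K × V) := by
    have h1 : Continuous fun q : (K × V) × U => q.1.1 * S.del q.2 :=
      (continuous_fst.comp continuous_fst).mul (S.del_cont.comp continuous_snd)
    refine Continuous.prodMk (h1.mul continuous_const) ?_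
    refine (continuous_snd.comp continuous_fst).add ?_
    exact S.act_cont.comp (h1.prodMk continuous_const)
  have hm : Measurable fun q : (K × V) × U =>
      Φ (q.1.1 * S.del q.2 * w, q.1.2 + S.act (q.1.1 * S.del q.2) y) :=
    hΦ.comp hc.measurable
  calc ∫⁻ k, ∫⁻ v in closedBall (0 : V) R,
        ∫⁻ u, Φ (k * S.del u * w, v + S.act (k * S.del u) y) ∂mU ∂μ ∂m
      = ∫⁻ k, ∫⁻ u, ∫⁻ v in closedBall (0 : V) R,
          Φ (k * S.del u * w, v + S.act (k * S.del u) y) ∂μ ∂mU ∂m := by
        refine lintegral_congr fun k => ?_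
        refine lintegral_lintegral_swap ?_
        refine Measurable.aemeasurable ?_
        exact hm.comp (g := fun q : (K × V) × U =>
          Φ (q.1.1 * S.del q.2 * w, q.1.2 + S.act (q.1.1 * S.del q.2) y))
          (f := fun q : V × U => (((k, q.1), q.2) : (K × V) × U))
          ((measurable_const.prodMk measurable_fst).prodMk measurable_snd)
    _ = ∫⁻ u, ∫⁻ k, ∫⁻ v in closedBall (0 : V) R,
          Φ (k * S.del u * w, v + S.act (k * S.del u) y) ∂μ ∂m ∂mU := by
        refine lintegral_lintegral_swap ?_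
        refine Measurable.aemeasurable ?_
        have h2 : Measurable fun q : (K × U) × V =>
            Φ (q.1.1 * S.del q.1.2 * w, q.2 + S.act (q.1.1 * S.del q.1.2) y) :=
          hm.comp (g := fun q : (K × V) × U =>
            Φ (q.1.1 * S.del q.2 * w, q.1.2 + S.act (q.1.1 * S.del q.2) y))
            (f := fun q : (K × U) × V => (((q.1.1, q.2), q.1.2) : (K × V) × U))
            (((measurable_fst.comp measurable_fst).prodMk measurable_snd).prodMk
              (measurable_snd.comp measurable_fst))
        exact h2.lintegral_prod_right'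
    _ ≤ ∫⁻ u, ∫⁻ k, ∫⁻ v in closedBall (0 : V) (R + s),
          Φ (k * S.del u * w, v) ∂μ ∂m ∂mU := by
        refine lintegral_mono fun u => lintegral_mono fun k => ?_
        exact shift_le μ (fun v => Φ (k * S.del u * w, v)) _ R s (hs _)
    _ = ∫⁻ u, ∫⁻ k, ∫⁻ v in closedBall (0 : V) (R + s), Φ (k, v) ∂μ ∂m ∂mU := by
        refine lintegral_congr fun u => ?_
        have := lintegral_mul_right_eq_self (μ := m)
          (fun k => ∫⁻ v in closedBall (0 : V) (R + s), Φ (k, v) ∂μ) (S.del u * w)
        simpa only [mul_assoc] using this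
    _ = ∫⁻ k, ∫⁻ v in closedBall (0 : V) (R + s), Φ (k, v) ∂μ ∂m := by
        rw [lintegral_const, measure_univ, mul_one]

/-- The average of `f` over the `U`-orbit. -/
noncomputable def Fav (f : V → Y) (C : V) (k : K) (v : V) : Y :=
  ∫ u, f (v + S.act (k * S.del u) C) ∂mU

/-- The pseudo-distance. -/
noncomputable def Ad (f : V → Y) (R : ℝ) (C C' : V) : ℝ≥0∞ :=
  ∫⁻ k, ∫⁻ v in closedBall (0 : V) R, ‖Fav S mU f C k v - Fav S mU f C' k v‖ₑ ∂μ ∂m

/-- The integral of the weight. -/
noncomputable def Jw (W : V → ℝ) (R : ℝ) : ℝ≥0∞ :=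
  ∫⁻ v in closedBall (0 : V) R, ENNReal.ofReal (W v) ∂μ

lemma Jw_mono (W : V → ℝ) {R R' : ℝ} (h : R ≤ R') : Jw μ W R ≤ Jw μ W R' :=
  lintegral_mono_set (closedBall_subset_closedBall h)

lemma cont_arg (f : V → Y) (hf : Continuous f) (C : V) :
    Continuous fun q : (K × V) × U => f (q.1.2 + S.act (q.1.1 * S.del q.2) C) := by
  refine hf.comp ((continuous_snd.comp continuous_fst).add ?_)
  exact S.act_cont.comp (((continuous_fst.comp continuous_fst).mul
    (S.del_cont.comp continuous_snd)).prodMk continuous_const)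

lemma Fav_meas (f : V → Y) (hf : Continuous f) (C : V) :
    StronglyMeasurable fun q : K × V => Fav S mU f C q.1 q.2 :=
  StronglyMeasurable.integral_prod_right' (ν := mU)
    (f := fun q : (K × V) × U => f (q.1.2 + S.act (q.1.1 * S.del q.2) C))
    (cont_arg S f hf C).stronglyMeasurable

lemma Fav_integrable (f : V → Y) (hf : Continuous f) (C : V) (k : K) (v : V) :
    Integrable (fun u => f (v + S.act (k * S.del u) C)) mU := by
  have hc : Continuous fun u : U => f (v + S.act (k * S.del u) C) :=
    (cont_arg S f hf C).comp (g := fun q : (K × V) × U => f (q.1.2 + S.act (q.1.1 * S.del q.2) C))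
      (f := fun u : U => (((k, v), u) : (K × V) × U)) (by fun_prop)
  exact hc.integrable_of_hasCompactSupport (HasCompactSupport.of_compactSpace _)

lemma Ad_symm (f : V → Y) (R : ℝ) (C C' : V) : Ad S mU m μ f R C C' = Ad S mU m μ f R C' C := by
  unfold Ad
  simp only [← edist_eq_enorm_sub, edist_comm]

lemma Ad_triangle (f : V → Y) (hf : Continuous f) (R : ℝ) (C C' C'' : V) :
    Ad S mU m μ f R C C'' ≤ Ad S mU m μ f R C C' + Ad S mU m μ f R C' C'' := by
  unfold Ad
  have hm : ∀ D D' : V, Measurable fun q : K × V =>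
      ‖Fav S mU f D q.1 q.2 - Fav S mU f D' q.1 q.2‖ₑ := fun D D' =>
    ((Fav_meas S mU f hf D).sub (Fav_meas S mU f hf D')).enorm
  have h1 : ∀ k, Measurable fun v : V =>
      ‖Fav S mU f C k v - Fav S mU f C' k v‖ₑ := fun k =>
    (hm C C').comp (measurable_const.prodMk measurable_id)
  have h2 : Measurable fun k : K => ∫⁻ v in closedBall (0 : V) R,
      ‖Fav S mU f C k v - Fav S mU f C' k v‖ₑ ∂μ := (hm C C').lintegral_prod_right'
  rw [← lintegral_add_left h2]
  refine lintegral_mono fun k => ?_
  dsimp only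
  rw [← lintegral_add_left (h1 k)]
  refine lintegral_mono fun v => ?_
  simp only [← edist_eq_enorm_sub]
  exact edist_triangle _ _ _

lemma Fav_conj [mU.IsMulRightInvariant] (f : V → Y) (C : V) (r : U) (k : K) (v : V) :
    Fav S mU f (S.act (S.del r) C) k v = Fav S mU f C k v := by
  unfold Fav
  have := integral_mul_right_eq_self (μ := mU)
    (fun u => f (v + S.act (k * S.del u) C)) r
  rw [← this]
  refine integral_congr_ae (Filter.Eventually.of_forall fun u => ?_)
  simp only [S.del_mul, ← S.act_mul, mul_assoc]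

end

end Helper34.TraceClass
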