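import Pool.Agent.Helper34.Growth

/-!
# The orthogonal group acting on real matrices
-/

set_option linter.unusedSectionVars false

namespace Helper34.TraceClass

open MeasureTheory Metric Filter Topology
open scoped ENNReal

/-- The orthogonal group of real matrices indexed by `Λ`. -/
def OG (Λ : Type) [Fintype Λ] [DecidableEq Λ] : Type := unitary (Matrix Λ Λ ℝ)

/-- Real square matrices with the supremum norm of the entries. -/
abbrev Mat (Λ : Type) : Type := Λ → Λ → ℝ

section

variable {Λ : Type} [Fintype Λ] [DecidableEq Λ]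

noncomputable instance : Group (OG Λ) := inferInstanceAs (Group (unitary (Matrix Λ Λ ℝ)))

noncomputable instance : TopologicalSpace (OG Λ) :=
  inferInstanceAs (TopologicalSpace (unitary (Matrix Λ Λ ℝ)))

instance : IsTopologicalGroup (OG Λ) :=
  inferInstanceAs (IsTopologicalGroup (unitary (Matrix Λ Λ ℝ)))

noncomputable instance : MeasurableSpace (OG Λ) := borel _

instance : BorelSpace (OG Λ) := ⟨rfl⟩

instance : SecondCountableTopology (Matrix Λ Λ ℝ) :=
  inferInstanceAs (SecondCountableTopology (Λ → Λ → ℝ))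

instance : SecondCountableTopology (OG Λ) :=
  TopologicalSpace.Subtype.secondCountableTopology (unitary (Matrix Λ Λ ℝ) : Set (Matrix Λ Λ ℝ))

instance : T2Space (OG Λ) :=
  inferInstanceAs (T2Space (Subtype fun x : Matrix Λ Λ ℝ => x ∈ unitary _))

/-- The underlying matrix. -/
def OG.mat (k : OG Λ) : Matrix Λ Λ ℝ := k.1

lemma OG.mat_mul (k l : OG Λ) : (k * l).mat = k.mat * l.mat := rfl

lemma OG.mat_one : (1 : OG Λ).mat = 1 := rfl

lemma OG.mul_transpose (k : OG Λ) : k.mat * k.mat.transpose = 1 := by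
  have := (Unitary.mem_iff.mp k.2).2
  rwa [Matrix.star_eq_conjTranspose, Matrix.conjTranspose_eq_transpose_of_trivial] at this

lemma OG.transpose_mul (k : OG Λ) : k.mat.transpose * k.mat = 1 := by
  have := (Unitary.mem_iff.mp k.2).1
  rwa [Matrix.star_eq_conjTranspose, Matrix.conjTranspose_eq_transpose_of_trivial] at this

lemma OG.continuous_mat : Continuous (OG.mat : OG Λ → Matrix Λ Λ ℝ) := continuous_subtype_val

/-- Constructor. -/
def OG.mk' (r : Matrix Λ Λ ℝ) (h : r * r.transpose = 1) : OG Λ :=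
  ⟨r, by
    rw [Unitary.mem_iff, Matrix.star_eq_conjTranspose,
      Matrix.conjTranspose_eq_transpose_of_trivial]
    exact ⟨mul_eq_one_comm.mp h, h⟩⟩

@[simp] lemma OG.mk'_mat (r : Matrix Λ Λ ℝ) (h : r * r.transpose = 1) : (OG.mk' r h).mat = r := rfl

instance : CompactSpace (OG Λ) := by
  have h1 : IsClosed (unitary (Matrix Λ Λ ℝ) : Set (Matrix Λ Λ ℝ)) := isClosed_unitary
  have h2 : IsCompact (Set.pi Set.univ (fun _ : Λ => Set.pi Set.univ
      (fun _ : Λ => Set.Icc (-1 : ℝ) 1)) : Set (Λ → Λ → ℝ)) :=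
    isCompact_univ_pi fun _ => isCompact_univ_pi fun _ => isCompact_Icc
  have h3 : (unitary (Matrix Λ Λ ℝ) : Set (Matrix Λ Λ ℝ)) ⊆
      (Set.pi Set.univ (fun _ : Λ => Set.pi Set.univ
      (fun _ : Λ => Set.Icc (-1 : ℝ) 1)) : Set (Λ → Λ → ℝ)) := by
    intro x hx a _ b _
    have := entry_norm_bound_of_unitary (𝕜 := ℝ) (U := x) hx a b
    rw [Real.norm_eq_abs, abs_le] at this
    exact this
  have h4 : IsCompact (unitary (Matrix Λ Λ ℝ) : Set (Matrix Λ Λ ℝ)) :=
    IsCompact.of_isClosed_subset h2 h1 h3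
  exact isCompact_iff_compactSpace.mp h4

/-- The action of a pair of orthogonal matrices by left and right multiplication. -/
def lr (k : OG Λ × OG Λ) (x : Mat Λ) : Mat Λ :=
  (k.1.mat * (Matrix.of x) * k.2.mat.transpose : Matrix Λ Λ ℝ)

lemma of_lr (k : OG Λ × OG Λ) (x : Mat Λ) :
    Matrix.of (lr k x) = k.1.mat * (Matrix.of x) * k.2.mat.transpose := rfl

lemma lr_mul (k l : OG Λ × OG Λ) (x : Mat Λ) : lr (k * l) x = lr k (lr l x) := by
  apply Matrix.of.injective
  rw [of_lr, of_lr, of_lr, Prod.fst_mul, Prod.snd_mul, OG.mat_mul, OG.mat_mul,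
    Matrix.transpose_mul]
  simp only [Matrix.mul_assoc]

lemma lr_add (k : OG Λ × OG Λ) (x y : Mat Λ) : lr k (x + y) = lr k x + lr k y := by
  apply Matrix.of.injective
  rw [of_lr]
  change _ = Matrix.of (lr k x) + Matrix.of (lr k y)
  rw [of_lr, of_lr]
  change _ * (Matrix.of x + Matrix.of y) * _ = _
  rw [Matrix.mul_add, Matrix.add_mul]

lemma lr_smul (k : OG Λ × OG Λ) (t : ℝ) (x : Mat Λ) : lr k (t • x) = t • lr k x := by
  apply Matrix.of.injective
  rw [of_lr]
  change _ = t • Matrix.of (lr k x)
  rw [of_lr]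
  change _ * (t • Matrix.of x) * _ = _
  rw [Matrix.mul_smul, Matrix.smul_mul]

lemma lr_one (x : Mat Λ) : lr (1 : OG Λ × OG Λ) x = x := by
  apply Matrix.of.injective
  rw [of_lr]
  simp [OG.mat_one]

lemma lr_cont : Continuous fun q : (OG Λ × OG Λ) × Mat Λ => lr q.1 q.2 := by
  have h1 : Continuous fun q : (OG Λ × OG Λ) × Mat Λ => q.1.1.mat :=
    OG.continuous_mat.comp (continuous_fst.comp continuous_fst)
  have h2 : Continuous fun q : (OG Λ × OG Λ) × Mat Λ => q.1.2.mat.transpose :=
    (OG.continuous_mat.comp (continuous_snd.comp continuous_fst)).matrix_transpose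
  have h3 : Continuous fun q : (OG Λ × OG Λ) × Mat Λ => (Matrix.of q.2 : Matrix Λ Λ ℝ) :=
    continuous_snd
  exact (h1.matrix_mul h3).matrix_mul h2

/-- The action data used in the averaging argument. -/
noncomputable def ortAct (Λ : Type) [Fintype Λ] [DecidableEq Λ] :
    Act (Mat Λ) (OG Λ × OG Λ) (OG Λ) where
  act := lr
  act_mul := lr_mul
  act_add := lr_add
  act_cont := lr_cont
  del := fun u => (u, u)
  del_mul := fun _ _ => rfl
  del_cont := continuous_id.prodMk continuous_id

/-- Haar probability measure on a compact group. -/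
noncomputable def hp (G : Type) [Group G] [TopologicalSpace G] [IsTopologicalGroup G]
    [CompactSpace G] [MeasurableSpace G] [BorelSpace G] : Measure G :=
  Measure.haarMeasure ⊤

instance (G : Type) [Group G] [TopologicalSpace G] [IsTopologicalGroup G]
    [CompactSpace G] [MeasurableSpace G] [BorelSpace G] : IsProbabilityMeasure (hp G) := by
  constructor
  have := Measure.haarMeasure_self (K₀ := (⊤ : TopologicalSpace.PositiveCompacts G))
  change (Measure.haarMeasure ⊤ : Measure G) Set.univ = 1
  simpa using this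

instance (G : Type) [Group G] [TopologicalSpace G] [IsTopologicalGroup G]
    [CompactSpace G] [MeasurableSpace G] [BorelSpace G] : (hp G).IsHaarMeasure :=
  inferInstanceAs (Measure.IsHaarMeasure (Measure.haarMeasure ⊤))

instance (G : Type) [Group G] [TopologicalSpace G] [IsTopologicalGroup G]
    [CompactSpace G] [MeasurableSpace G] [BorelSpace G] : (hp G).IsMulRightInvariant := by
  constructor
  intro g
  have h1 : IsProbabilityMeasure (Measure.map (· * g) (hp G)) :=
    Measure.isProbabilityMeasure_map (continuous_mul_const g).measurable.aemeasurable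
  exact Measure.isHaarMeasure_eq_of_isProbabilityMeasure _ _

end

end Helper34.TraceClass
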