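import Pool.Agent.Helper34.S1Embed

/-!
# The three reductions to the master theorem
-/

set_option linter.unusedSectionVars false

namespace Helper34.TraceClass

open Filter Topology Metric MeasureTheory

section

variable {𝕜 : Type} [RCLike 𝕜] {Y : Type*} [NormedAddCommGroup Y] [NormedSpace ℝ Y]
  [CompleteSpace Y]

/-- There are two points of the trace class at distance one. -/
lemma exists_one : ∃ x y : S1 𝕜, x ≠ y ∧ S1.d x y = 1 := by
  have hS : SNorm (nuM 𝕜 : Mat (Fin 1 → Bool) → ℝ) := nuM_snorm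
  have h1 := hS.scal 1 zero_le_one
  have h2 : S1.d (emb 𝕜 (nd fun _ : Fin 1 → Bool => (1 : ℝ))) (emb 𝕜 (0 : Mat (Fin 1 → Bool))) = 1 := by
    rw [d_emb, sub_zero]; exact h1
  refine ⟨_, _, ?_, h2⟩
  intro h
  rw [h, d_emb, sub_zero] at h2
  have h3 := hS.scal 0 le_rfl
  rw [nd_zero] at h3
  rw [h3] at h2
  exact zero_ne_one h2

lemma exists_ne_zero {f : S1 𝕜 → Y} (hf : Function.Injective f) : ∃ y0 : Y, y0 ≠ 0 := by
  obtain ⟨x, y, hxy, -⟩ := exists_one (𝕜 := 𝕜)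
  exact ⟨f x - f y, sub_ne_zero.mpr (hf.ne hxy)⟩

theorem no_uniform {p : ℝ} (hp : 1 < p) (hY : HasType Y p) (f : S1 𝕜 → Y) :
    ¬ IsUniformEmb S1.d f := by
  rintro ⟨hinj, huc, hinv⟩
  obtain ⟨T, hT0, hT⟩ := hY.general hp.le
  obtain ⟨y0, hy0⟩ := exists_ne_zero hinj
  obtain ⟨δ, hδ, hδ'⟩ := hinv 1 one_pos
  obtain ⟨δ1, hδ1, hδ1'⟩ := huc (δ / 4) (by positivity)
  obtain ⟨L, hL⟩ := master hp hT0 hT hy0
    (fun t => ((⌊t / δ1⌋₊ : ℝ) + 1) / 4) (c := 1) (t0 := δ1 / 2) one_pos (by positivity) (by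
      have h1 : ⌊δ1 / 2 / δ1⌋₊ = 0 := by
        rw [Nat.floor_eq_zero]
        rw [div_div, div_lt_one (by positivity)]
        linarith
      simp only [h1]
      norm_num)
  have hS : SNorm (nuM 𝕜 : Mat (Fin L → Bool) → ℝ) := nuM_snorm
  refine hL (nuM 𝕜) (fun x => f (emb 𝕜 x)) (fun _ => δ) hS ?_ (fun _ => hδ) δ 0 (fun v => by simp)
  refine ⟨?_, continuous_const, fun _ => hδ.le, fun t _ => by positivity, ?_, hS.nonneg, ?_, ?_⟩
  · refine cont_of_small (𝕜 := 𝕜) fun y ε hε => ?_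
    obtain ⟨δ2, hδ2, hδ2'⟩ := huc ε hε
    exact ⟨δ2, hδ2, fun x hx => hδ2' _ _ (by rw [d_emb]; exact hx)⟩
  · intro s t _ hst
    have h1 : ⌊s / δ1⌋₊ ≤ ⌊t / δ1⌋₊ := Nat.floor_mono (by gcongr)
    have h2 : ((⌊s / δ1⌋₊ : ℕ) : ℝ) ≤ ⌊t / δ1⌋₊ := by exact_mod_cast h1
    linarith
  · intro x y
    have := uniform_steps hδ1 hδ1' x y
    calc _ ≤ _ := this
      _ = _ := by ring
  · intro x y hxy
    by_contra hcon
    push Not at hcon
    have := hδ' _ _ hcon
    rw [d_emb, hxy] at this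
    exact lt_irrefl _ this

theorem no_coarse {p : ℝ} (hp : 1 < p) (hY : HasType Y p) (f : S1 𝕜 → Y) :
    ¬ IsCoarseEmb S1.d f := by
  rintro ⟨α, β, h0, hα, hβ, hlim, hab⟩
  obtain ⟨T, hT0, hT⟩ := hY.general hp.le
  -- choice of the scale
  obtain ⟨c, hc1, hc⟩ : ∃ c : ℝ, 1 ≤ c ∧ 8 * β 1 < α c := by
    have h1 := hlim.eventually (eventually_gt_atTop (8 * β 1))
    obtain ⟨c, h2, h3⟩ := (h1.and (eventually_ge_atTop (1 : ℝ))).exists
    exact ⟨c, h3, h2⟩
  have hc0 : 0 < c := by linarith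
  have hβ1 : 0 ≤ β 1 := (h0 1 zero_le_one).2
  set w : ℝ := α c - 2 * β 1 with hw
  have hw0 : 0 < w := by rw [hw]; linarith
  have hw6 : 6 * β 1 < w := by rw [hw]; linarith
  -- `Y` is nontrivial
  have hy : ∃ y0 : Y, y0 ≠ 0 := by
    have hS : SNorm (nuM 𝕜 : Mat (Fin 1 → Bool) → ℝ) := nuM_snorm
    have h1 := hS.scal c hc0.le
    have h2 : S1.d (emb 𝕜 (nd fun _ : Fin 1 → Bool => c)) (emb 𝕜 (0 : Mat (Fin 1 → Bool))) = c := by
      rw [d_emb, sub_zero]; exact h1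
    refine ⟨f (emb 𝕜 (nd fun _ : Fin 1 → Bool => c)) - f (emb 𝕜 (0 : Mat (Fin 1 → Bool))), fun h => ?_⟩
    have h3 := (hab (emb 𝕜 (nd fun _ : Fin 1 → Bool => c)) (emb 𝕜 (0 : Mat (Fin 1 → Bool)))).1
    rw [h2, h, norm_zero] at h3
    linarith
  obtain ⟨y0, hy0⟩ := hy
  obtain ⟨L, hL⟩ := master hp hT0 hT hy0
    (fun t => (β t + 2 * β 1) / w) (c := c) (t0 := 1) hc0 one_pos (by
      rw [div_lt_iff₀ hw0]; linarith)
  have hS : SNorm (nuM 𝕜 : Mat (Fin L → Bool) → ℝ) := nuM_snorm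
  -- a continuous approximation
  obtain ⟨g, hg⟩ := exists_continuous_forall_mem_convex_of_local_const
    (t := fun x : Mat (Fin L → Bool) => closedBall (f (emb 𝕜 x)) (β 1))
    (fun x => convex_closedBall _ _) (fun x => by
      refine ⟨f (emb 𝕜 x), ?_⟩
      have h1 : ∀ᶠ y in 𝓝 x, nuM 𝕜 (x - y) < 1 := by
        rw [Metric.eventually_nhds_iff]
        refine ⟨1 / ((Fintype.card (Fin L → Bool) : ℝ) ^ 3 + 1), by positivity, fun y hy => ?_⟩
        rw [dist_comm, dist_eq_norm, lt_div_iff₀ (by positivity)] at hy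
        refine (nuM_le _).trans_lt ?_
        have := norm_nonneg (x - y)
        nlinarith
      filter_upwards [h1] with y hy
      rw [mem_closedBall, dist_eq_norm]
      refine (hab _ _).2.trans ?_
      rw [d_emb]
      exact hβ _ _ (hS.nonneg _) hy.le)
  have hgf : ∀ x, ‖g x - f (emb 𝕜 x)‖ ≤ β 1 := fun x => by
    have := hg x
    rwa [mem_closedBall, dist_eq_norm] at this
  refine hL (nuM 𝕜) g (fun _ => w) hS ?_ (fun _ => hw0) w 0 (fun v => by simp)
  refine ⟨g.continuous, continuous_const, fun _ => hw0.le, fun t ht => ?_, ?_, hS.nonneg, ?_, ?_⟩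
  · have := (h0 t ht).2
    positivity
  · intro s t hs hst
    have := hβ s t hs hst
    gcongr
  · intro x y
    have h1 := (hab (emb 𝕜 x) (emb 𝕜 y)).2
    rw [d_emb] at h1
    have h2 := hgf x
    have h3 := hgf y
    have h4 : g x - g y = (g x - f (emb 𝕜 x)) + (f (emb 𝕜 x) - f (emb 𝕜 y))
        - (g y - f (emb 𝕜 y)) := by abel
    rw [div_mul_cancel₀ _ hw0.ne', h4]
    refine (norm_sub_le _ _).trans ?_
    have := norm_add_le (g x - f (emb 𝕜 x)) (f (emb 𝕜 x) - f (emb 𝕜 y))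
    linarith
  · intro x y hxy
    have h1 := (hab (emb 𝕜 x) (emb 𝕜 y)).1
    rw [d_emb, hxy] at h1
    have h2 := hgf x
    have h3 := hgf y
    have h4 : f (emb 𝕜 x) - f (emb 𝕜 y) = -(g x - f (emb 𝕜 x)) + (g x - g y)
        + (g y - f (emb 𝕜 y)) := by abel
    have h5 : ‖f (emb 𝕜 x) - f (emb 𝕜 y)‖ ≤ β 1 + ‖g x - g y‖ + β 1 := by
      rw [h4]
      refine (norm_add_le _ _).trans (add_le_add ((norm_add_le _ _).trans (add_le_add ?_ le_rfl)) h3)
      rwa [norm_neg]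
    rw [hw]; linarith

lemma S1_ext {x y : S1 𝕜} (h : x.op = y.op) : x = y := by
  cases x; cases y; simp only at h; subst h; rfl

lemma norm_eq_sval {H : Type*} [NormedAddCommGroup H] [InnerProductSpace 𝕜 H] (T : H →L[𝕜] H) :
    ‖T‖ ≤ sval 0 T := by
  refine le_sval fun R hR => ?_
  have h1 : (R : H →ₗ[𝕜] H) = 0 := by
    have h2 : Module.rank 𝕜 (LinearMap.range (R : H →ₗ[𝕜] H)) = 0 := by
      have : Module.rank 𝕜 (LinearMap.range (R : H →ₗ[𝕜] H)) ≤ ((0 : ℕ) : Cardinal) := hR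
      simpa using this
    rw [Submodule.rank_eq_zero, LinearMap.range_eq_bot] at h2
    exact h2
  have h3 : R = 0 := by
    ext x
    exact congrArg (fun φ : H →ₗ[𝕜] H => φ x) h1
  rw [h3, sub_zero]

lemma emb_eq_iff {Λ : Type} [Fintype Λ] [DecidableEq Λ] (x y : Mat Λ) :
    emb 𝕜 x = emb 𝕜 y ↔ nuM 𝕜 (x - y) = 0 := by
  constructor
  · intro h
    rw [← d_emb, h]
    unfold S1.d
    have : ∀ j, sval j ((emb 𝕜 y).op - (emb 𝕜 y).op) = 0 := fun j => by
      rw [sub_self]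
      exact sval_eq_zero (by
        change LinearMap.rank (0 : Ell2 𝕜 →ₗ[𝕜] Ell2 𝕜) ≤ _
        simp [LinearMap.rank_zero])
    simp only [this, tsum_zero]
  · intro h
    apply S1_ext
    have h1 : sval 0 (Tm 𝕜 (vv 𝕜 Λ) (Matrix.of (x - y))) ≤ nuM 𝕜 (x - y) :=
      (sval_Tm_summable (𝕜 := 𝕜) (v := vv 𝕜 Λ) (Matrix.of (x - y))).le_tsum 0
        (fun j _ => sval_nonneg _ _)
    have h2 := norm_eq_sval (Tm 𝕜 (vv 𝕜 Λ) (Matrix.of (x - y)))
    have h3 : ‖Tm 𝕜 (vv 𝕜 Λ) (Matrix.of (x - y))‖ = 0 :=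
      le_antisymm (by linarith) (norm_nonneg _)
    rw [norm_eq_zero] at h3
    have h4 : Tm 𝕜 (vv 𝕜 Λ) (Matrix.of (x - y)) = (emb 𝕜 x).op - (emb 𝕜 y).op :=
      Tm_sub (Matrix.of x) (Matrix.of y)
    rw [h4, sub_eq_zero] at h3
    exact h3

theorem no_qs {p : ℝ} (hp : 1 < p) (hY : HasType Y p) (f : S1 𝕜 → Y) :
    ¬ IsQSEmb S1.d f := by
  rintro ⟨hinj, η, hηpos, hηmono, hηlim, hη⟩
  obtain ⟨T, hT0, hT⟩ := hY.general hp.le
  obtain ⟨y0, hy0⟩ := exists_ne_zero hinj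
  set E : ℝ := η 1 + 1 with hE
  have hη1 : 0 < η 1 := hηpos 1 one_pos
  have hE1 : 1 ≤ E := by rw [hE]; linarith
  have hE0 : 0 < E := by linarith
  -- small scale
  obtain ⟨t0, ht0, ht0'⟩ : ∃ t0 : ℝ, (0 < t0 ∧ t0 < 1) ∧ E * η t0 < 1 / 2 := by
    have h1 : ∀ᶠ t in 𝓝[>] (0 : ℝ), η t < 1 / (2 * E) :=
      hηlim.eventually (gt_mem_nhds (by positivity))
    have h2 : ∀ᶠ t in 𝓝[>] (0 : ℝ), t < 1 :=
      (eventually_lt_nhds one_pos).filter_mono nhdsWithin_le_nhds
    have h3 : ∀ᶠ t in 𝓝[>] (0 : ℝ), 0 < t := eventually_mem_nhdsWithin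
    obtain ⟨t, ht1, ht2, ht3⟩ := (h1.and (h2.and h3)).exists
    refine ⟨t, ⟨ht3, ht2⟩, ?_⟩
    rw [lt_div_iff₀ (by positivity)] at ht1
    linarith
  set B : ℝ → ℝ := fun t => if t ≤ 0 then 0 else E * (η t + (if 1 ≤ t then 1 else 0)) with hB
  obtain ⟨L, hL⟩ := master hp hT0 hT hy0 B (c := 1) (t0 := t0) one_pos ht0.1 (by
    simp only [hB]
    rw [if_neg (not_le.mpr ht0.1), if_neg (not_le.mpr ht0.2), add_zero]
    exact ht0')
  have hS : SNorm (nuM 𝕜 : Mat (Fin L → Bool) → ℝ) := nuM_snorm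
  set h0 : Mat (Fin L → Bool) := nd (fun _ => 1) with hh0
  have hνh0 : nuM 𝕜 h0 = 1 := hS.scal 1 zero_le_one
  have hν0 : nuM 𝕜 (0 : Mat (Fin L → Bool)) = 0 := by
    have := hS.scal 0 le_rfl
    rwa [nd_zero] at this
  set F : Mat (Fin L → Bool) → Y := fun x => f (emb 𝕜 x) with hF
  have hone : ∀ v : Mat (Fin L → Bool), nuM 𝕜 (v + h0 - v) = 1 := fun v => by
    rw [add_sub_cancel_left]; exact hνh0
  have hh0ne : ∀ v : Mat (Fin L → Bool), emb 𝕜 (v + h0) ≠ emb 𝕜 v := fun v h => by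
    rw [emb_eq_iff, hone] at h
    exact one_ne_zero h
  -- the basic quasisymmetry inequality for matrices
  have hqs : ∀ a b z : Mat (Fin L → Bool), emb 𝕜 a ≠ emb 𝕜 b → emb 𝕜 b ≠ emb 𝕜 z →
      emb 𝕜 a ≠ emb 𝕜 z →
      ‖F a - F b‖ ≤ η (nuM 𝕜 (a - b) / nuM 𝕜 (a - z)) * ‖F a - F z‖ := by
    intro a b z hab hbz haz
    have h1 := hη (emb 𝕜 a) (emb 𝕜 b) (emb 𝕜 z) hab hbz haz
    rw [d_emb, d_emb] at h1
    have h2 : 0 < ‖F a - F z‖ := norm_pos_iff.mpr (sub_ne_zero.mpr (hinj.ne haz))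
    rwa [div_le_iff₀ h2] at h1
  set W : Mat (Fin L → Bool) → ℝ := fun v => ‖F (v + h0) - F v‖ / E with hW
  have hWpos : ∀ v, 0 < W v := fun v =>
    div_pos (norm_pos_iff.mpr (sub_ne_zero.mpr (hinj.ne (hh0ne v)))) hE0
  have hupper : ∀ x y, ‖F x - F y‖ ≤ B (nuM 𝕜 (x - y)) * W y := by
    intro x y
    by_cases h1 : nuM 𝕜 (x - y) = 0
    · have h2 : F x = F y := by
        have h3 := (emb_eq_iff x y).mpr h1
        simp only [hF, h3]
      rw [h2, sub_self, norm_zero, h1]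
      simp [hB]
    · have hpos : 0 < nuM 𝕜 (x - y) := lt_of_le_of_ne (hS.nonneg _) (Ne.symm h1)
      have hBt : B (nuM 𝕜 (x - y)) * W y
          = (η (nuM 𝕜 (x - y)) + (if 1 ≤ nuM 𝕜 (x - y) then 1 else 0)) * ‖F (y + h0) - F y‖ := by
        simp only [hB, hW]
        rw [if_neg (not_le.mpr hpos)]
        field_simp
      rw [hBt]
      by_cases h4 : emb 𝕜 x = emb 𝕜 (y + h0)
      · have h5 : nuM 𝕜 (x - y) = 1 := by
          rw [← d_emb, h4, d_emb, hone]
        have h6 : F x = F (y + h0) := by simp only [hF, h4]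
        rw [h5, h6, if_pos le_rfl]
        have := norm_nonneg (F (y + h0) - F y)
        nlinarith
      · have h7 := hqs y x (y + h0) (fun h => h1 (by
          rw [nuM_sub_comm, ← emb_eq_iff]; exact h)) h4 (Ne.symm (hh0ne y))
        rw [nuM_sub_comm y x, nuM_sub_comm y (y + h0), hone, div_one, norm_sub_rev,
          norm_sub_rev (F y)] at h7
        refine h7.trans (mul_le_mul_of_nonneg_right ?_ (norm_nonneg _))
        split <;> linarith
  have hlower : ∀ x y, nuM 𝕜 (x - y) = 1 → W y ≤ ‖F x - F y‖ := by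
    intro x y h1
    simp only [hW]
    rw [div_le_iff₀ hE0]
    by_cases h4 : emb 𝕜 x = emb 𝕜 (y + h0)
    · have h6 : F x = F (y + h0) := by simp only [hF, h4]
      rw [h6]
      have := norm_nonneg (F (y + h0) - F y)
      nlinarith
    · have h7 := hqs y (y + h0) x (Ne.symm (hh0ne y)) (Ne.symm h4) (fun h => by
        rw [emb_eq_iff, nuM_sub_comm, h1] at h
        exact one_ne_zero h)
      rw [nuM_sub_comm y x, nuM_sub_comm y (y + h0), hone, h1, div_one, norm_sub_rev,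
          norm_sub_rev (F y)] at h7
      refine h7.trans ?_
      rw [mul_comm]
      refine mul_le_mul_of_nonneg_left ?_ (norm_nonneg _)
      rw [hE]; linarith
  have hcont : Continuous F := by
    refine cont_of_small (𝕜 := 𝕜) fun y ε hε => ?_
    have h1 : ∀ᶠ t in 𝓝[>] (0 : ℝ), η t < ε / (E * W y) :=
      hηlim.eventually (gt_mem_nhds (div_pos hε (mul_pos hE0 (hWpos y))))
    rw [eventually_nhdsWithin_iff, Metric.eventually_nhds_iff] at h1
    obtain ⟨δ, hδ, hδ'⟩ := h1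
    refine ⟨min δ 1, lt_min hδ one_pos, fun x hx => ?_⟩
    refine (hupper x y).trans_lt ?_
    by_cases h2 : nuM 𝕜 (x - y) = 0
    · rw [h2]; simpa [hB] using hε
    · have hpos : 0 < nuM 𝕜 (x - y) := lt_of_le_of_ne (hS.nonneg _) (Ne.symm h2)
      have h3 : ¬ (1 ≤ nuM 𝕜 (x - y)) := not_le.mpr (hx.trans_le (min_le_right _ _))
      have h4 := hδ' (y := nuM 𝕜 (x - y)) (by
        rw [Real.dist_eq, sub_zero, abs_of_pos hpos]
        exact hx.trans_le (min_le_left _ _)) hpos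
      simp only [hB]
      rw [if_neg (not_le.mpr hpos), if_neg h3, add_zero]
      rw [lt_div_iff₀ (mul_pos hE0 (hWpos y))] at h4
      calc E * η (nuM 𝕜 (x - y)) * W y = η (nuM 𝕜 (x - y)) * (E * W y) := by ring
        _ < ε := h4
  -- polynomial growth
  have hpoly : ∃ (M : ℝ) (D : ℕ), ∀ v, W v ≤ M * (1 + ‖v‖) ^ D := by
    obtain ⟨A, hA⟩ := (isCompact_closedBall (0 : Mat (Fin L → Bool)) 1).exists_bound_of_continuousOn
      (f := fun v => F v - F 0) (hcont.sub continuous_const).continuousOn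
    have hA0 : 0 ≤ A := (norm_nonneg _).trans (hA 0 (by simp))
    obtain ⟨M, D, hM0, hM⟩ := poly_growth (g := fun v => ‖F v - F 0‖) (A := A)
      (G := max (η 2) 1) hA0 (le_max_right _ _)
      (fun v hv => hA v (by rwa [mem_closedBall_zero_iff])) (fun v => by
        by_cases h1 : nuM 𝕜 v = 0
        · have h2 : nuM 𝕜 ((2 : ℝ) • v) = 0 := by
            refine le_antisymm ((nuM_smul_le _ _).trans ?_) (hS.nonneg _)
            rw [h1]; simp
          have h3 : emb 𝕜 ((2 : ℝ) • v) = emb 𝕜 (0 : Mat (Fin L → Bool)) := by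
            rw [emb_eq_iff, sub_zero]; exact h2
          have h4 : F ((2 : ℝ) • v) = F 0 := by simp only [hF, h3]
          rw [h4, sub_self, norm_zero]
          positivity
        · have hpos : 0 < nuM 𝕜 v := lt_of_le_of_ne (hS.nonneg _) (Ne.symm h1)
          have h2 : 0 < nuM 𝕜 ((2 : ℝ) • v) := by
            have h3 := nuM_smul_le (𝕜 := 𝕜) (1 / 2) ((2 : ℝ) • v)
            rw [smul_smul] at h3
            norm_num at h3
            linarith
          have h4 : nuM 𝕜 ((2 : ℝ) • v) ≤ 2 * nuM 𝕜 v := by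
            have := nuM_smul_le (𝕜 := 𝕜) 2 v
            rwa [abs_of_pos two_pos] at this
          have h5 := hqs 0 ((2 : ℝ) • v) v
            (fun h => by
              rw [emb_eq_iff, zero_sub, nuM_neg] at h
              exact h2.ne' h)
            (fun h => by
              rw [emb_eq_iff, two_smul, add_sub_cancel_right] at h
              exact h1 h)
            (fun h => by
              rw [emb_eq_iff, zero_sub, nuM_neg] at h
              exact h1 h)
          rw [zero_sub, zero_sub, nuM_neg, nuM_neg, norm_sub_rev, norm_sub_rev (F 0)] at h5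
          refine h5.trans (mul_le_mul_of_nonneg_right ?_ (norm_nonneg _))
          refine le_trans (hηmono _ 2 (div_pos h2 hpos) ?_) (le_max_left _ _)
          rw [div_le_iff₀ hpos]
          exact h4)
    refine ⟨2 * M * (1 + ‖h0‖) ^ D, D, fun v => ?_⟩
    have h1 : W v ≤ ‖F (v + h0) - F 0‖ + ‖F v - F 0‖ := by
      simp only [hW]
      rw [div_le_iff₀ hE0]
      have h2 : F (v + h0) - F v = (F (v + h0) - F 0) - (F v - F 0) := by abel
      have h3 : ‖F (v + h0) - F v‖ ≤ ‖F (v + h0) - F 0‖ + ‖F v - F 0‖ := by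
        rw [h2]; exact norm_sub_le _ _
      have h4 := norm_nonneg (F (v + h0) - F 0)
      have h5 := norm_nonneg (F v - F 0)
      nlinarith
    have hv0 := norm_nonneg v
    have hh := norm_nonneg h0
    have h6 : (1 + ‖v + h0‖) ^ D ≤ ((1 + ‖h0‖) * (1 + ‖v‖)) ^ D := by
      refine pow_le_pow_left₀ (by positivity) ?_ _
      have := norm_add_le v h0
      nlinarith
    have h7 : (1 + ‖v‖) ^ D ≤ ((1 + ‖h0‖) * (1 + ‖v‖)) ^ D := by
      refine pow_le_pow_left₀ (by positivity) ?_ _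
      nlinarith
    rw [mul_pow] at h6 h7
    have h8 := hM (v + h0)
    have h9 := hM v
    calc W v ≤ M * (1 + ‖v + h0‖) ^ D + M * (1 + ‖v‖) ^ D := by linarith
      _ ≤ M * ((1 + ‖h0‖) ^ D * (1 + ‖v‖) ^ D) + M * ((1 + ‖h0‖) ^ D * (1 + ‖v‖) ^ D) :=
          add_le_add (mul_le_mul_of_nonneg_left h6 hM0) (mul_le_mul_of_nonneg_left h7 hM0)
      _ = _ := by ring
  obtain ⟨M, D, hM⟩ := hpoly
  refine hL (nuM 𝕜) F W hS ?_ hWpos M D hM
  refine ⟨hcont, ?_, fun v => (hWpos v).le, ?_, ?_, hS.nonneg, hupper, hlower⟩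
  · simp only [hW]
    exact (((hcont.comp (continuous_id.add continuous_const)).sub hcont).norm).div_const E
  · intro t ht
    simp only [hB]
    split
    · exact le_rfl
    · next h =>
      have := hηpos t (not_le.mp h)
      split <;> positivity
  · intro s t hs hst
    simp only [hB]
    by_cases h1 : s ≤ 0
    · rw [if_pos h1]
      split
      · exact le_rfl
      · next h =>
        have := hηpos t (not_le.mp h)
        split <;> positivity
    · have h1' := not_le.mp h1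
      have h2 : ¬ t ≤ 0 := not_le.mpr (h1'.trans_le hst)
      rw [if_neg h1, if_neg h2]
      refine mul_le_mul_of_nonneg_left (add_le_add (hηmono s t h1' hst) ?_) hE0.le
      by_cases h3 : 1 ≤ s
      · rw [if_pos h3, if_pos (h3.trans hst)]
      · rw [if_neg h3]
        split <;> norm_num

end

end Helper34.TraceClass
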