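import Pool.Agent.Helper34.Master

/-!
# The last link and the contradiction
-/

set_option linter.unusedSectionVars false

namespace Helper34.TraceClass

open Finset MeasureTheory Filter Topology

section

variable {ι : Type} [Fintype ι] [DecidableEq ι]

/-- exclusive or with a pattern on `A` -/
def xr (A : Finset ι) (i : {a // a ∈ A} → Bool) : Equiv.Perm (ι → Bool) where
  toFun := fun x k => if h : k ∈ A then xor (x k) (i ⟨k, h⟩) else x k
  invFun := fun x k => if h : k ∈ A then xor (x k) (i ⟨k, h⟩) else x k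
  left_inv := by
    intro x
    funext k
    by_cases h : k ∈ A
    · simp [h]
    · simp [h]
  right_inv := by
    intro x
    funext k
    by_cases h : k ∈ A
    · simp [h]
    · simp [h]

lemma xr_apply (A : Finset ι) (i : {a // a ∈ A} → Bool) (x : ι → Bool) (a : {a // a ∈ A}) :
    xr A i x a.1 = xor (x a.1) (i a) := by
  change (if h : a.1 ∈ A then xor (x a.1) (i ⟨a.1, h⟩) else x a.1) = _
  rw [dif_pos a.2]

lemma prod_xr (A : Finset ι) (i : {a // a ∈ A} → Bool) (x : ι → Bool)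
    (h : ∏ a ∈ A, (1 + sn a (xr A i x)) ≠ 0) : (fun a : {a // a ∈ A} => x a.1) = i := by
  by_contra hne
  obtain ⟨a, ha⟩ := Function.ne_iff.mp hne
  apply h
  refine Finset.prod_eq_zero a.2 ?_
  unfold sn
  rw [xr_apply]
  have : xor (x a.1) (i a) = true := by
    revert ha
    cases x a.1 <;> cases i a <;> simp
  rw [this]
  norm_num

lemma L1_prod (A : Finset ι) (t : ℝ) :
    L1 (fun x : ι → Bool => t * ∏ a ∈ A, (1 + sn a x)) = |t| := by
  induction A using Finset.induction_on with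
  | empty => simp [L1_const]
  | insert j A' hj ih =>
    rw [← ih]
    have h1 := L1_half (l := j) (d := fun x : ι → Bool => t * ∏ a ∈ A', (1 + sn a x)) (by
      intro x
      congr 1
      refine Finset.prod_congr rfl fun k hk => ?_
      rw [sn_fl_ne]
      rintro rfl
      exact hj hk)
    rw [← h1]
    congr 1
    funext x
    rw [Finset.prod_insert hj]
    ring

lemma sign_orth (w : (ι → Bool) → ℝ) (hw : ∀ x, w x * w x = 1) :
    (Matrix.diagonal w : Matrix (ι → Bool) (ι → Bool) ℝ) * (Matrix.diagonal w).transpose = 1 := by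
  rw [Matrix.diagonal_transpose, Matrix.diagonal_mul_diagonal]
  simp only [hw]
  exact Matrix.diagonal_one

lemma lr_sign (w : (ι → Bool) → ℝ) (hw : ∀ x, w x * w x = 1) (d : (ι → Bool) → ℝ) :
    lr (OG.mk' _ (sign_orth w hw), 1) (nd d) = nd (fun x => w x * d x) := by
  have h2 : lr (OG.mk' _ (sign_orth w hw), 1) (Matrix.diagonal d : Mat (ι → Bool))
      = (Matrix.diagonal (fun x => w x * d x) : Mat (ι → Bool)) := by
    apply Matrix.of.injective
    rw [of_lr]
    simp only [OG.mk'_mat, OG.mat_one, Matrix.transpose_one, mul_one]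
    change Matrix.diagonal w * Matrix.diagonal d = Matrix.diagonal _
    rw [Matrix.diagonal_mul_diagonal]
  have h3 := lr_smul (OG.mk' _ (sign_orth w hw), 1) (1 / (Fintype.card (ι → Bool) : ℝ))
    (Matrix.diagonal d : Mat (ι → Bool))
  rw [h2] at h3
  exact h3

lemma nd_add (d e : (ι → Bool) → ℝ) : nd d + nd e = nd (fun x => d x + e x) := by
  funext x y
  change (1 / (Fintype.card (ι → Bool) : ℝ)) * Matrix.diagonal d x y
    + (1 / (Fintype.card (ι → Bool) : ℝ)) * Matrix.diagonal e x y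
    = (1 / (Fintype.card (ι → Bool) : ℝ)) * Matrix.diagonal (fun x => d x + e x) x y
  by_cases h : x = y
  · subst h; simp [mul_add]
  · simp [Matrix.diagonal_apply_ne _ h]

lemma lr_scalar (u : OG (ι → Bool)) (c : ℝ) :
    lr (u, u) (nd fun _ : ι → Bool => c) = nd fun _ : ι → Bool => c := by
  have h2 : lr (u, u) (Matrix.diagonal (fun _ : ι → Bool => c) : Mat (ι → Bool))
      = (Matrix.diagonal (fun _ : ι → Bool => c) : Mat (ι → Bool)) := by
    apply Matrix.of.injective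
    rw [of_lr]
    change u.mat * Matrix.diagonal (fun _ => c) * u.mat.transpose = Matrix.diagonal fun _ => c
    have h0 : (Matrix.diagonal (fun _ : ι → Bool => c) : Matrix (ι → Bool) (ι → Bool) ℝ)
        = c • (1 : Matrix (ι → Bool) (ι → Bool) ℝ) := by
      ext x y
      by_cases h : x = y
      · subst h; simp
      · simp [h]
    rw [h0, Matrix.mul_smul, mul_one, Matrix.smul_mul, u.mul_transpose]
  have h3 := lr_smul (u, u) (1 / (Fintype.card (ι → Bool) : ℝ))
    (Matrix.diagonal (fun _ : ι → Bool => c) : Mat (ι → Bool))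
  rw [h2] at h3
  exact h3

lemma nd_zero : nd (fun _ : ι → Bool => (0 : ℝ)) = 0 := by
  funext x y
  change (1 / (Fintype.card (ι → Bool) : ℝ)) * Matrix.diagonal (fun _ => (0 : ℝ)) x y = 0
  rw [Matrix.diagonal_zero]
  simp

variable {Y : Type*} [NormedAddCommGroup Y] [NormedSpace ℝ Y] [CompleteSpace Y]
  {ν : Mat (ι → Bool) → ℝ} {f : Mat (ι → Bool) → Y} {W : Mat (ι → Bool) → ℝ} {Bf : ℝ → ℝ} {c : ℝ}

lemma stepC (hG : Good ν f W Bf c) (hS : SNorm ν) {T p : ℝ} (hT0 : 0 ≤ T)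
    (hT : TypeIneq Y T p) {y0 : Y} (hy0 : y0 ≠ 0) (A : Finset ι) (Y0 : ℝ) {lam : ℝ}
    (hlam : 0 ≤ lam) :
    CloseM f W (2 * T * ((2 ^ A.card : ℕ) : ℝ) ^ (1 / p - 1) * (Bf lam + Bf |Y0|))
      (nd (fun x => Y0 + lam * ∏ a ∈ A, (1 + sn a x)))
      (nd (fun x => Y0 + (-lam) * ∏ a ∈ A, (1 + sn a x))) := by
  have hcard : Fintype.card ({a // a ∈ A} → Bool) = 2 ^ A.card := by
    rw [Fintype.card_fun, Fintype.card_bool, Fintype.card_coe]
  let wf : (({a // a ∈ A} → Bool) → Bool) → (ι → Bool) → ℝ := fun ε x =>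
    sg (ε (fun a => x a.1))
  have hw : ∀ ε x, wf ε x * wf ε x = 1 := by
    intro ε x
    simp only [wf, sg]
    split <;> norm_num
  have key := link (S := ortAct (ι → Bool)) (mU := hp (OG (ι → Bool)))
    (m := hp (OG (ι → Bool) × OG (ι → Bool))) (μ := (volume : Measure (Mat (ι → Bool))))
    hG hS.inv hT0 hT hy0 (I := {a // a ∈ A} → Bool)
    (fun i => nd (fun x => lam * ∏ a ∈ A, (1 + sn a (xr A i x))))
    (fun ε => (OG.mk' _ (sign_orth (wf ε) (hw ε)), 1))
    (fun _ => nd (fun _ => Y0))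
    (nd (fun x => Y0 + lam * ∏ a ∈ A, (1 + sn a x)))
    (nd (fun x => Y0 + (-lam) * ∏ a ∈ A, (1 + sn a x))) (a := lam) (b := |Y0|)
    (fun i => by
      refine (hS.nd_le _).trans (le_of_eq ?_)
      rw [L1_perm (xr A i) (fun x => lam * ∏ a ∈ A, (1 + sn a x)), L1_prod, abs_of_nonneg hlam])
    (fun ε => by
      refine (hS.nd_le _).trans (le_of_eq ?_)
      rw [L1_const])
    (fun ε i => by
      change ∃ r : OG (ι → Bool), lr (OG.mk' _ (sign_orth (wf ε) (hw ε)), 1) (nd _) + _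
        = lr (r, r) _
      rw [lr_sign _ (hw ε), nd_add]
      have e1 : (if ε i = true then nd (fun x => Y0 + lam * ∏ a ∈ A, (1 + sn a x))
          else nd (fun x => Y0 + (-lam) * ∏ a ∈ A, (1 + sn a x)))
          = nd (fun x : ι → Bool => Y0 + sg (ε i) * (lam * ∏ a ∈ A, (1 + sn a x))) := by
        by_cases h : ε i = true
        · simp [h]
        · have h' : ε i = false := by simpa using h
          simp [h']
      have e2 : (fun x => wf ε x * (lam * ∏ a ∈ A, (1 + sn a (xr A i x))) + Y0)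
          = fun x => Y0 + sg (ε i) * (lam * ∏ a ∈ A, (1 + sn a (xr A i x))) := by
        funext x
        by_cases h : ∏ a ∈ A, (1 + sn a (xr A i x)) = 0
        · rw [h]; ring
        · have := prod_xr A i x h
          simp only [wf, this]
          ring
      rw [e1, e2]
      exact Cnj_perm (xr A i) (fun x => Y0 + sg (ε i) * (lam * ∏ a ∈ A, (1 + sn a x))))
  rw [hcard] at key
  exact key

omit [Fintype ι] [DecidableEq ι] [CompleteSpace Y] in
lemma pow_small {p : ℝ} (hp1 : 1 < p) (C : ℝ) {δ : ℝ} (hδ : 0 < δ) :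
    ∃ n0 : ℕ, ∀ n : ℕ, n0 ≤ n → C * (n : ℝ) ^ (1 / p - 1) < δ := by
  have h1 : 0 < 1 - 1 / p := by
    have : 1 / p < 1 := by
      rw [div_lt_one (by linarith)]; exact hp1
    linarith
  have h2 : Tendsto (fun n : ℕ => C * (n : ℝ) ^ (1 / p - 1)) atTop (𝓝 0) := by
    have h3 := (tendsto_rpow_neg_atTop h1).comp tendsto_natCast_atTop_atTop
    have h4 := h3.const_mul C
    rw [mul_zero] at h4
    refine h4.congr fun n => ?_
    simp only [Function.comp]
    rw [neg_sub]
  exact eventually_atTop.mp (h2.eventually (gt_mem_nhds hδ))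

end

/-- The master theorem: no continuous map with the listed properties exists on large matrix
algebras. -/
theorem master {Y : Type*} [NormedAddCommGroup Y] [NormedSpace ℝ Y] [CompleteSpace Y]
    {p T : ℝ} (hp1 : 1 < p) (hT0 : 0 ≤ T) (hT : TypeIneq Y T p) {y0 : Y} (hy0 : y0 ≠ 0)
    (Bf : ℝ → ℝ) {c t0 : ℝ} (hc : 0 < c) (ht0 : 0 < t0) (hB : Bf t0 < 1 / 2) :
    ∃ L : ℕ, ∀ (ν : Mat (Fin L → Bool) → ℝ) (f : Mat (Fin L → Bool) → Y)
      (W : Mat (Fin L → Bool) → ℝ), SNorm ν → Good ν f W Bf c → (∀ v, 0 < W v) →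
      ∀ (M : ℝ) (D : ℕ), (∀ v, W v ≤ M * (1 + ‖v‖) ^ D) → False := by
  set δ : ℝ := (1 - 2 * Bf t0) / 4 with hδ
  have hδ0 : 0 < δ := by rw [hδ]; linarith
  -- choice of `k`
  obtain ⟨k, hk⟩ := pow_small hp1 (2 * T * (Bf (c / 2) + Bf |c / 2|)) hδ0
  have hk1 : 2 * T * ((2 ^ k : ℕ) : ℝ) ^ (1 / p - 1) * (Bf (c / 2) + Bf |c / 2|) < δ := by
    have := hk (2 ^ k) (Nat.lt_two_pow_self).le
    calc _ = 2 * T * (Bf (c / 2) + Bf |c / 2|) * ((2 ^ k : ℕ) : ℝ) ^ (1 / p - 1) := by ring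
      _ < δ := this
  -- choice of `K`
  have hK : ∃ K : ℕ, ((1 + kap ^ K) ^ k - 1) * (c / 2) ≤ t0 := by
    have h1 : Tendsto (fun K : ℕ => ((1 + kap ^ K) ^ k - 1) * (c / 2)) atTop
        (𝓝 (((1 + 0) ^ k - 1) * (c / 2))) :=
      ((((tendsto_pow_atTop_nhds_zero_of_lt_one kap_pos.le kap_lt).const_add 1).pow k).sub_const
        1).mul_const _
    have h2 : ((1 + 0 : ℝ) ^ k - 1) * (c / 2) = 0 := by simp
    rw [h2] at h1
    obtain ⟨K, hK⟩ := (h1.eventually (gt_mem_nhds ht0)).exists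
    exact ⟨K, hK.le⟩
  obtain ⟨K, hK⟩ := hK
  set M : ℝ := |c / 2| + 2 ^ k * |c / 2| with hMdef
  -- choice of `n0`
  obtain ⟨n1, hn1⟩ := pow_small hp1 (k * K * (4 * T * Bf M)) hδ0
  set n0 := max n1 1 with hn0
  have hn0' : 1 ≤ n0 := le_max_right _ _
  have herr : k * K * (4 * T * (n0 : ℝ) ^ (1 / p - 1) * Bf M) < δ := by
    have := hn1 n0 (le_max_left _ _)
    calc _ = k * K * (4 * T * Bf M) * (n0 : ℝ) ^ (1 / p - 1) := by ring
      _ < δ := this
  set L := k + (n0 + (K + 1) * (k + 1)) with hL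
  refine ⟨L, fun ν f W hS hG hW M' D' hpoly => ?_⟩
  -- choice of bits
  obtain ⟨A, -, hA⟩ := Finset.exists_subset_card_eq (s := (Finset.univ : Finset (Fin L)))
    (n := k) (by rw [Finset.card_univ, Fintype.card_fin]; omega)
  have hR : n0 + (K + 1) * (A.card + 1) ≤ (Aᶜ).card := by
    rw [Finset.card_compl, Fintype.card_fin, hA]
    omega
  have hdis : Disjoint A Aᶜ := disjoint_compl_right
  have hch : ∀ t : ℝ, |t| = |c / 2| → ∃ D1 : (Fin L → Bool) → ℝ,
      L1 (fun x => D1 x - t) ≤ t0 ∧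
      CloseM f W (k * K * (4 * T * (n0 : ℝ) ^ (1 / p - 1) * Bf M))
        (nd (fun x => c / 2 + t * ∏ j ∈ A, (1 + sn j x))) (nd (fun x => c / 2 + D1 x)) := by
    intro t ht
    obtain ⟨D1, h1, h2⟩ := chain hG hS hT0 hT hy0 hp1 K hn0' (c / 2) M A Aᶜ (fun _ => t) hdis
      (Indep.const t) hR (by rw [L1_const, hA, ht])
    rw [hA] at h1 h2
    rw [L1_const, ht, abs_of_pos (by linarith : 0 < c / 2)] at h1
    exact ⟨D1, h1.trans hK, h2⟩
  obtain ⟨D1, hD1, hD1c⟩ := hch (c / 2) rfl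
  obtain ⟨D2, hD2, hD2c⟩ := hch (-(c / 2)) (abs_neg _)
  have hC := stepC hG hS hT0 hT hy0 A (c / 2) (lam := c / 2) (by linarith)
  rw [hA] at hC
  -- endpoints
  have hend : ∀ (t : ℝ) (D3 : (Fin L → Bool) → ℝ), L1 (fun x => D3 x - t) ≤ t0 →
      CloseM f W (Bf t0) (nd (fun x => c / 2 + D3 x)) (nd (fun _ => c / 2 + t)) := by
    intro t D3 h
    refine close_dist hG hS.inv ?_
    rw [nd_sub]
    refine (hS.nd_le _).trans (le_trans (le_of_eq ?_) h)
    congr 1
    funext x
    ring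
  have h1 := hend (c / 2) D1 hD1
  have h2 := hend (-(c / 2)) D2 hD2
  have hf := hG.f_cont
  have hfin : Close (ortAct (Fin L → Bool)) (hp (OG (Fin L → Bool)))
      (hp (OG (Fin L → Bool) × OG (Fin L → Bool)))
      (volume : Measure (Mat (Fin L → Bool))) f W _
      (nd fun _ => c / 2 + c / 2) (nd fun _ => c / 2 + -(c / 2)) :=
    ((((Close.symm h1).trans hf (Close.symm hD1c)).trans hf hC).trans hf hD2c).trans hf h2
  have e1 : (nd fun _ : Fin L → Bool => c / 2 + c / 2) = nd fun _ : Fin L → Bool => c := by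
    congr 1; funext x; ring
  have e2 : (nd fun _ : Fin L → Bool => c / 2 + -(c / 2)) = 0 := by
    rw [← nd_zero]; congr 1; funext x; ring
  rw [e1, e2] at hfin
  refine close_false hG hS.inv (hS.scal c hc.le) (fun u => lr_scalar u c) hW hpoly ?_ hfin
  rw [hδ] at herr hk1
  linarith

end Helper34.TraceClass
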