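import Pool.Agent.Helper34.SVal
import Pool.Agent.Helper34.StepC

/-!
# Embedding matrices in the trace class and the three reductions
-/

set_option linter.unusedSectionVars false

namespace Helper34.TraceClass

open Filter Topology Metric MeasureTheory

section

variable {𝕜 : Type} [RCLike 𝕜]

/-- the standard basis of `ℓ₂` -/
noncomputable def stdB (𝕜 : Type) [RCLike 𝕜] : HilbertBasis ℕ 𝕜 (Ell2 𝕜) :=
  HilbertBasis.ofRepr (LinearIsometryEquiv.refl 𝕜 (Ell2 𝕜))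

/-- an orthonormal family indexed by a finite type -/
noncomputable def vv (𝕜 : Type) [RCLike 𝕜] (Λ : Type) [Fintype Λ] (a : Λ) : Ell2 𝕜 :=
  stdB 𝕜 (Fintype.equivFin Λ a).val

lemma vv_orth (Λ : Type) [Fintype Λ] : Orthonormal 𝕜 (vv 𝕜 Λ) := by
  have h := (stdB 𝕜).orthonormal.comp (fun a : Λ => (Fintype.equivFin Λ a).val)
    (fun a b hab => (Fintype.equivFin Λ).injective (Fin.ext hab))
  exact h

/-- The matrix `x` as an element of the trace class. -/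
noncomputable def emb (𝕜 : Type) [RCLike 𝕜] {Λ : Type} [Fintype Λ] [DecidableEq Λ] (x : Mat Λ) :
    S1 𝕜 where
  op := Tm 𝕜 (vv 𝕜 Λ) (Matrix.of x)
  compact := Tm_compact _
  summable := sval_Tm_summable _

/-- The trace norm of a matrix. -/
noncomputable def nuM (𝕜 : Type) [RCLike 𝕜] {Λ : Type} [Fintype Λ] (x : Mat Λ) : ℝ :=
  nuv 𝕜 (vv 𝕜 Λ) (Matrix.of x)

variable {Λ : Type} [Fintype Λ] [DecidableEq Λ]

lemma d_emb (x y : Mat Λ) : S1.d (emb 𝕜 x) (emb 𝕜 y) = nuM 𝕜 (x - y) := by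
  unfold S1.d nuM nuv
  change ∑' j, sval j (Tm 𝕜 (vv 𝕜 Λ) (Matrix.of x) - Tm 𝕜 (vv 𝕜 Λ) (Matrix.of y)) = _
  rw [← Tm_sub]
  rfl

lemma nuM_snorm [Nonempty Λ] : SNorm (nuM 𝕜 : Mat Λ → ℝ) where
  nonneg := fun x => nuv_nonneg _
  inv := by
    have hle : ∀ (k : OG Λ × OG Λ) (x : Mat Λ), nuM 𝕜 (lr k x) ≤ nuM 𝕜 x := by
      intro k x
      unfold nuM
      rw [of_lr]
      exact nuv_mul_le (vv_orth Λ) _ _ _ k.1.transpose_mul (by
        rw [Matrix.transpose_transpose]; exact k.2.mul_transpose)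
    intro k x
    refine le_antisymm (hle k x) ?_
    have := hle k⁻¹ (lr k x)
    rwa [← lr_mul, inv_mul_cancel, lr_one] at this
  diag_le := fun d => nuv_diag_le (vv_orth Λ) d
  scal := by
    intro c hc
    have hN : (Fintype.card Λ : ℝ) ≠ 0 := by exact_mod_cast Fintype.card_ne_zero
    have h1 : Matrix.of (nd fun _ : Λ => c)
        = (Matrix.diagonal (fun _ : Λ => 1 / (Fintype.card Λ : ℝ) * c) : Matrix Λ Λ ℝ) := by
      ext x y
      change (1 / (Fintype.card Λ : ℝ)) * Matrix.diagonal (fun _ => c) x y = _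
      by_cases h : x = y
      · subst h; simp
      · simp [Matrix.diagonal_apply_ne _ h]
    unfold nuM
    rw [h1, nuv_scalar (vv_orth Λ) (by positivity)]
    field_simp

lemma sval_smul_le {H : Type*} [NormedAddCommGroup H] [InnerProductSpace 𝕜 H] (j : ℕ)
    (t : 𝕜) (T : H →L[𝕜] H) : sval j (t • T) ≤ ‖t‖ * sval j T := by
  unfold sval
  rw [Real.mul_iInf_of_nonneg (norm_nonneg t)]
  refine le_ciInf fun R => ?_
  have h1 : (((t • R.1 : H →L[𝕜] H)) : H →ₗ[𝕜] H).rank ≤ j := by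
    have h2 : (((t • R.1 : H →L[𝕜] H)) : H →ₗ[𝕜] H)
        = (LinearMap.lsmul 𝕜 H t).comp (R.1 : H →ₗ[𝕜] H) := by
      ext x; simp
    rw [h2]
    exact (LinearMap.rank_comp_le_right _ _).trans R.2
  refine (sval_le (t • T) (t • R.1) h1).trans (le_of_eq ?_)
  rw [← smul_sub, norm_smul]

lemma Tm_smul {H : Type} [NormedAddCommGroup H] [InnerProductSpace 𝕜 H] (v : Λ → H)
    (t : ℝ) (x : Matrix Λ Λ ℝ) : Tm 𝕜 v (t • x) = ((t : ℝ) : 𝕜) • Tm 𝕜 v x := by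
  unfold Tm
  rw [Finset.smul_sum]
  refine Finset.sum_congr rfl fun a _ => ?_
  rw [Finset.smul_sum]
  refine Finset.sum_congr rfl fun b _ => ?_
  rw [smul_smul, Matrix.smul_apply, smul_eq_mul, RCLike.ofReal_mul]

lemma nuM_smul_le (t : ℝ) (x : Mat Λ) : nuM 𝕜 (t • x) ≤ |t| * nuM 𝕜 x := by
  unfold nuM
  rw [nuv_eq, nuv_eq, Finset.mul_sum]
  refine Finset.sum_le_sum fun j _ => ?_
  change sval j (Tm 𝕜 _ (t • Matrix.of x)) ≤ _
  rw [Tm_smul]
  refine (sval_smul_le _ _ _).trans (le_of_eq ?_)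
  rw [RCLike.norm_ofReal]

lemma nuM_neg (x : Mat Λ) : nuM 𝕜 (-x) = nuM 𝕜 x := by
  have h : ∀ y : Mat Λ, nuM 𝕜 (-y) ≤ nuM 𝕜 y := by
    intro y
    have := nuM_smul_le (𝕜 := 𝕜) (-1) y
    simpa using this
  refine le_antisymm (h x) ?_
  have := h (-x)
  rwa [neg_neg] at this

lemma nuM_sub_comm (x y : Mat Λ) : nuM 𝕜 (x - y) = nuM 𝕜 (y - x) := by
  rw [← nuM_neg, neg_sub]

lemma nuM_le (x : Mat Λ) : nuM 𝕜 x ≤ (Fintype.card Λ : ℝ) ^ 3 * ‖x‖ := by
  unfold nuM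
  refine (nuv_le_norm _).trans ?_
  have h1 : ‖Tm 𝕜 (vv 𝕜 Λ) (Matrix.of x)‖ ≤ (Fintype.card Λ : ℝ) ^ 2 * ‖x‖ := by
    unfold Tm
    calc _ ≤ ∑ a : Λ, ∑ b : Λ, ‖x‖ := by
          refine (norm_sum_le _ _).trans (Finset.sum_le_sum fun a _ => ?_)
          refine (norm_sum_le _ _).trans (Finset.sum_le_sum fun b _ => ?_)
          rw [norm_smul, InnerProductSpace.norm_rankOne, (vv_orth Λ).norm_eq_one,
            (vv_orth Λ).norm_eq_one, mul_one, mul_one, RCLike.norm_ofReal]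
          change ‖x a b‖ ≤ ‖x‖
          exact (norm_le_pi_norm (x a) b).trans (norm_le_pi_norm x a)
      _ = (Fintype.card Λ : ℝ) ^ 2 * ‖x‖ := by
          simp only [Finset.sum_const, Finset.card_univ, nsmul_eq_mul]; ring
  calc (Fintype.card Λ : ℝ) * ‖Tm 𝕜 (vv 𝕜 Λ) (Matrix.of x)‖
      ≤ (Fintype.card Λ : ℝ) * ((Fintype.card Λ : ℝ) ^ 2 * ‖x‖) :=
        mul_le_mul_of_nonneg_left h1 (by positivity)
    _ = _ := by ring

variable {Y : Type*} [NormedAddCommGroup Y] [NormedSpace ℝ Y] [CompleteSpace Y]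

/-- number of steps needed -/
lemma uniform_steps {f : S1 𝕜 → Y} {δ1 ε : ℝ} (hδ1 : 0 < δ1)
    (h : ∀ x y, S1.d x y < δ1 → ‖f x - f y‖ < ε) (x y : Mat Λ) :
    ‖f (emb 𝕜 x) - f (emb 𝕜 y)‖ ≤ ((⌊nuM 𝕜 (x - y) / δ1⌋₊ : ℝ) + 1) * ε := by
  set n : ℕ := ⌊nuM 𝕜 (x - y) / δ1⌋₊ + 1 with hn
  have hnpos : (0 : ℝ) < n := by rw [hn]; positivity
  have hlt : nuM 𝕜 (x - y) / δ1 < n := by
    rw [hn]; push_cast; exact Nat.lt_floor_add_one _
  let z : ℕ → Mat Λ := fun i => y + ((i : ℝ) / n) • (x - y)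
  have hz0 : z 0 = y := by simp [z]
  have hzn : z n = x := by
    simp only [z]
    rw [div_self hnpos.ne', one_smul]; abel
  have hstep : ∀ i, ‖f (emb 𝕜 (z (i + 1))) - f (emb 𝕜 (z i))‖ < ε := by
    intro i
    apply h
    rw [d_emb]
    have h1 : z (i + 1) - z i = (1 / (n : ℝ)) • (x - y) := by
      simp only [z]
      rw [add_sub_add_left_eq_sub, ← sub_smul]
      congr 1
      push_cast
      ring
    rw [h1]
    refine (nuM_smul_le _ _).trans_lt ?_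
    rw [abs_of_pos (by positivity)]
    rw [div_lt_iff₀ hδ1] at hlt
    rw [one_div, inv_mul_lt_iff₀ hnpos]
    exact hlt
  have hsum : ∀ i : ℕ, ‖f (emb 𝕜 (z i)) - f (emb 𝕜 (z 0))‖ ≤ i * ε := by
    intro i
    induction i with
    | zero => simp
    | succ i ih =>
      have h2 : f (emb 𝕜 (z (i + 1))) - f (emb 𝕜 (z 0))
          = (f (emb 𝕜 (z (i + 1))) - f (emb 𝕜 (z i)))
            + (f (emb 𝕜 (z i)) - f (emb 𝕜 (z 0))) := by abel
      rw [h2]
      refine (norm_add_le _ _).trans ?_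
      have := (hstep i).le
      push_cast
      linarith
  have := hsum n
  rw [hz0, hzn] at this
  refine this.trans (le_of_eq ?_)
  rw [hn]; push_cast; ring

/-- Continuity criterion. -/
lemma cont_of_small {g : Mat Λ → Y} (h : ∀ y : Mat Λ, ∀ ε > 0, ∃ δ > 0, ∀ x : Mat Λ,
    nuM 𝕜 (x - y) < δ → ‖g x - g y‖ < ε) : Continuous g := by
  rw [Metric.continuous_iff]
  intro y ε hε
  obtain ⟨δ, hδ, hδ'⟩ := h y ε hε
  refine ⟨δ / ((Fintype.card Λ : ℝ) ^ 3 + 1), by positivity, fun x hx => ?_⟩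
  rw [dist_eq_norm]
  apply hδ'
  rw [dist_eq_norm, lt_div_iff₀ (by positivity)] at hx
  refine (nuM_le _).trans_lt ?_
  have := norm_nonneg (x - y)
  nlinarith

/-- Polynomial growth. -/
lemma poly_growth {g : Mat Λ → ℝ} {A G : ℝ} (hA : 0 ≤ A) (hG : 1 ≤ G)
    (h1 : ∀ v, ‖v‖ ≤ 1 → g v ≤ A) (h2 : ∀ v : Mat Λ, g ((2 : ℝ) • v) ≤ G * g v) :
    ∃ (M : ℝ) (D : ℕ), 0 ≤ M ∧ ∀ v, g v ≤ M * (1 + ‖v‖) ^ D := by
  have hind : ∀ n : ℕ, ∀ v : Mat Λ, ‖v‖ ≤ 2 ^ n → g v ≤ G ^ n * A := by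
    intro n
    induction n with
    | zero => intro v hv; simpa using h1 v (by simpa using hv)
    | succ n ih =>
      intro v hv
      have hv2 : v = (2 : ℝ) • ((1 / 2 : ℝ) • v) := by rw [smul_smul]; norm_num
      have h3 := h2 ((1 / 2 : ℝ) • v)
      rw [← hv2] at h3
      have h4 := ih ((1 / 2 : ℝ) • v) (by
        rw [norm_smul]
        rw [pow_succ] at hv
        norm_num
        linarith)
      calc g v ≤ G * g ((1 / 2 : ℝ) • v) := h3
        _ ≤ G * (G ^ n * A) := mul_le_mul_of_nonneg_left h4 (by linarith)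
        _ = G ^ (n + 1) * A := by ring
  obtain ⟨D, hD⟩ := pow_unbounded_of_one_lt G (one_lt_two (α := ℝ))
  refine ⟨2 ^ D * A, D, by positivity, fun v => ?_⟩
  obtain ⟨n, hn1, hn2⟩ := exists_nat_pow_near (show (1 : ℝ) ≤ 1 + ‖v‖ by
    have := norm_nonneg v; linarith) (one_lt_two (α := ℝ))
  have h3 := hind (n + 1) v (by linarith)
  refine h3.trans ?_
  have h4 : G ^ (n + 1) ≤ (2 * (1 + ‖v‖)) ^ D := by
    calc G ^ (n + 1) ≤ (2 ^ D) ^ (n + 1) := pow_le_pow_left₀ (by linarith) hD.le _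
      _ = (2 ^ (n + 1)) ^ D := by rw [← pow_mul, ← pow_mul, mul_comm]
      _ ≤ (2 * (1 + ‖v‖)) ^ D := by
          refine pow_le_pow_left₀ (by positivity) ?_ _
          rw [pow_succ]; linarith
  calc G ^ (n + 1) * A ≤ (2 * (1 + ‖v‖)) ^ D * A := mul_le_mul_of_nonneg_right h4 hA
    _ = 2 ^ D * A * (1 + ‖v‖) ^ D := by rw [mul_pow]; ring

end

end Helper34.TraceClass
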