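import Pool.Agent.Helper34.SVal

/-!
# The difference of two elements of the trace class is in the trace class
-/

namespace Helper34.TraceClass

section

variable {𝕜 H : Type*} [RCLike 𝕜] [NormedAddCommGroup H] [InnerProductSpace 𝕜 H]

lemma sval_sub_le (i j : ℕ) (S T : H →L[𝕜] H) : sval (i + j) (S - T) ≤ sval i S + sval j T := by
  refine le_of_forall_pos_lt_add fun ε hε => ?_
  obtain ⟨R, hR⟩ := exists_lt_of_ciInf_lt
    (show sval i S < sval i S + ε / 2 by linarith)
  obtain ⟨Q, hQ⟩ := exists_lt_of_ciInf_lt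
    (show sval j T < sval j T + ε / 2 by linarith)
  have h1 : ((R.1 - Q.1 : H →L[𝕜] H) : H →ₗ[𝕜] H).rank ≤ ((i + j : ℕ) : Cardinal) := by
    have h2 : ((R.1 - Q.1 : H →L[𝕜] H) : H →ₗ[𝕜] H)
        = (R.1 : H →ₗ[𝕜] H) + (-1 : 𝕜) • (Q.1 : H →ₗ[𝕜] H) := by
      ext x; simp [sub_eq_add_neg]
    have h3 : ((-1 : 𝕜) • (Q.1 : H →ₗ[𝕜] H)).rank ≤ j := by
      have h4 : ((-1 : 𝕜) • (Q.1 : H →ₗ[𝕜] H))
          = (LinearMap.lsmul 𝕜 H (-1 : 𝕜)).comp (Q.1 : H →ₗ[𝕜] H) := by
        ext x; simp
      rw [h4]
      exact (LinearMap.rank_comp_le_right _ _).trans Q.2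
    rw [h2]
    refine (LinearMap.rank_add_le _ _).trans ((add_le_add R.2 h3).trans (le_of_eq ?_))
    push_cast
    rfl
  have h2 := sval_le (S - T) (R.1 - Q.1) h1
  have h3 : (S - T) - (R.1 - Q.1) = (S - R.1) - (T - Q.1) := by abel
  rw [h3] at h2
  have h4 := norm_sub_le (S - R.1) (T - Q.1)
  linarith

lemma sval_antitone (T : H →L[𝕜] H) : Antitone fun j => sval j T := by
  intro i j hij
  refine le_sval fun R hR => sval_le T R (hR.trans ?_)
  exact_mod_cast hij

lemma summable_even_odd {g : ℕ → ℝ} (he : Summable fun j => g (2 * j))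
    (ho : Summable fun j => g (2 * j + 1)) : Summable g :=
  (he.hasSum.even_add_odd ho.hasSum).summable

/-- The singular values of the difference of two trace class operators are summable, so that the
sum defining `S1.d` converges. -/
theorem S1.summable_sub {𝕜 : Type} [RCLike 𝕜] (x y : S1 𝕜) :
    Summable fun j => sval j (x.op - y.op) := by
  have hxy : Summable fun j => sval j x.op + sval j y.op := x.summable.add y.summable
  have he : Summable fun j => sval (2 * j) (x.op - y.op) := by
    refine Summable.of_nonneg_of_le (fun _ => sval_nonneg _ _) (fun j => ?_) hxy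
    rw [two_mul]
    exact sval_sub_le j j _ _
  have ho : Summable fun j => sval (2 * j + 1) (x.op - y.op) := by
    refine Summable.of_nonneg_of_le (fun _ => sval_nonneg _ _) (fun j => ?_) he
    exact sval_antitone _ (Nat.le_succ _)
  exact summable_even_odd (g := fun j => sval j (x.op - y.op)) he ho

/-- The difference of two elements of the trace class, as an element of the trace class. -/
noncomputable def S1.sub {𝕜 : Type} [RCLike 𝕜] (x y : S1 𝕜) : S1 𝕜 where
  op := x.op - y.op
  compact := x.compact.sub y.compact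
  summable := S1.summable_sub x y

end

end Helper34.TraceClass
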