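import Pool.Agent.Helper34.TraceDefs

/-!
# Elementary properties of approximation numbers, and matrix units in a Hilbert space
-/

set_option linter.unusedSectionVars false

namespace Helper34.TraceClass

open InnerProductSpace

section

variable {𝕜 H : Type*} [RCLike 𝕜] [NormedAddCommGroup H] [InnerProductSpace 𝕜 H]

lemma sval_bdd (j : ℕ) (T : H →L[𝕜] H) :
    BddBelow (Set.range fun R : {R : H →L[𝕜] H // (R : H →ₗ[𝕜] H).rank ≤ j} => ‖T - R.1‖) :=
  ⟨0, by rintro _ ⟨R, rfl⟩; exact norm_nonneg _⟩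

lemma sval_le {j : ℕ} (T R : H →L[𝕜] H) (hR : (R : H →ₗ[𝕜] H).rank ≤ j) : sval j T ≤ ‖T - R‖ :=
  ciInf_le (sval_bdd j T) ⟨R, hR⟩

instance (j : ℕ) : Nonempty {R : H →L[𝕜] H // (R : H →ₗ[𝕜] H).rank ≤ j} :=
  ⟨⟨0, by simp [LinearMap.rank_zero]⟩⟩

lemma le_sval {j : ℕ} {T : H →L[𝕜] H} {c : ℝ}
    (h : ∀ R : H →L[𝕜] H, (R : H →ₗ[𝕜] H).rank ≤ j → c ≤ ‖T - R‖) : c ≤ sval j T :=
  le_ciInf fun R => h R.1 R.2

lemma sval_nonneg (j : ℕ) (T : H →L[𝕜] H) : 0 ≤ sval j T := le_sval fun _ _ => norm_nonneg _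

lemma sval_le_norm (j : ℕ) (T : H →L[𝕜] H) : sval j T ≤ ‖T‖ := by
  have := sval_le (j := j) T 0 (by simp [LinearMap.rank_zero])
  rwa [sub_zero] at this

lemma sval_eq_zero {j : ℕ} {T : H →L[𝕜] H} (hT : (T : H →ₗ[𝕜] H).rank ≤ j) : sval j T = 0 := by
  refine le_antisymm ?_ (sval_nonneg _ _)
  have := sval_le (j := j) T T hT
  rwa [sub_self, norm_zero] at this

lemma sval_comp_le (j : ℕ) (A T B : H →L[𝕜] H) (hA : ‖A‖ ≤ 1) (hB : ‖B‖ ≤ 1) :
    sval j (A.comp (T.comp B)) ≤ sval j T := by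
  refine le_ciInf fun R => ?_
  have h1 : ((A.comp (R.1.comp B) : H →L[𝕜] H) : H →ₗ[𝕜] H).rank ≤ j := by
    change ((A : H →ₗ[𝕜] H).comp ((R.1 : H →ₗ[𝕜] H).comp (B : H →ₗ[𝕜] H))).rank ≤ j
    exact (LinearMap.rank_comp_le_right _ _).trans ((LinearMap.rank_comp_le_left _ _).trans R.2)
  refine (sval_le _ _ h1).trans ?_
  have h2 : A.comp (T.comp B) - A.comp (R.1.comp B) = A.comp ((T - R.1).comp B) := by
    ext x; simp
  rw [h2]
  calc ‖A.comp ((T - R.1).comp B)‖ ≤ ‖A‖ * (‖T - R.1‖ * ‖B‖) :=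
        (ContinuousLinearMap.opNorm_comp_le _ _).trans
          (mul_le_mul_of_nonneg_left (ContinuousLinearMap.opNorm_comp_le _ _) (norm_nonneg _))
    _ ≤ 1 * (‖T - R.1‖ * 1) := by
        gcongr
    _ = ‖T - R.1‖ := by ring

end

section Units

variable {𝕜 H : Type} [RCLike 𝕜] [NormedAddCommGroup H] [InnerProductSpace 𝕜 H] [CompleteSpace H]
  {Λ : Type} [Fintype Λ] [DecidableEq Λ] {v : Λ → H}

/-- The operator with matrix `x` with respect to the orthonormal family `v`. -/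
noncomputable def Tm (𝕜 : Type*) {H : Type*} [RCLike 𝕜] [NormedAddCommGroup H]
    [InnerProductSpace 𝕜 H] {Λ : Type} [Fintype Λ] (v : Λ → H) (x : Matrix Λ Λ ℝ) : H →L[𝕜] H :=
  ∑ a, ∑ b, ((x a b : ℝ) : 𝕜) • rankOne 𝕜 (v a) (v b)

lemma Tm_apply (x : Matrix Λ Λ ℝ) (ξ : H) :
    Tm 𝕜 v x ξ = ∑ a, (∑ b, ((x a b : ℝ) : 𝕜) * inner 𝕜 (v b) ξ) • v a := by
  unfold Tm
  simp only [sum_apply, smul_apply, rankOne_apply,
    Finset.sum_smul, smul_smul]

lemma Tm_add (x y : Matrix Λ Λ ℝ) : Tm 𝕜 v (x + y) = Tm 𝕜 v x + Tm 𝕜 v y := by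
  unfold Tm
  simp only [Matrix.add_apply, RCLike.ofReal_add, add_smul, Finset.sum_add_distrib]

lemma Tm_sub (x y : Matrix Λ Λ ℝ) : Tm 𝕜 v (x - y) = Tm 𝕜 v x - Tm 𝕜 v y := by
  unfold Tm
  simp only [Matrix.sub_apply, RCLike.ofReal_sub, sub_smul, Finset.sum_sub_distrib]

lemma Tm_mul (hv : Orthonormal 𝕜 v) (x y : Matrix Λ Λ ℝ) :
    Tm 𝕜 v (x * y) = (Tm 𝕜 v x).comp (Tm 𝕜 v y) := by
  ext ξ
  rw [ContinuousLinearMap.comp_apply, Tm_apply, Tm_apply, Tm_apply]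
  refine Finset.sum_congr rfl fun a _ => ?_
  congr 1
  have h1 : ∀ b, inner 𝕜 (v b) (∑ c, (∑ d, ((y c d : ℝ) : 𝕜) * inner 𝕜 (v d) ξ) • v c)
      = ∑ d, ((y b d : ℝ) : 𝕜) * inner 𝕜 (v d) ξ := fun b =>
    hv.inner_right_fintype _ b
  simp only [h1, Matrix.mul_apply, RCLike.ofReal_sum, RCLike.ofReal_mul, Finset.sum_mul,
    Finset.mul_sum]
  rw [Finset.sum_comm]
  refine Finset.sum_congr rfl fun b _ => Finset.sum_congr rfl fun c _ => ?_
  ring

lemma Tm_adjoint (x : Matrix Λ Λ ℝ) :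
    ContinuousLinearMap.adjoint (Tm 𝕜 v x) = Tm 𝕜 v x.transpose := by
  unfold Tm
  simp only [map_sum, map_smulₛₗ, InnerProductSpace.adjoint_rankOne, RCLike.conj_ofReal,
    Matrix.transpose_apply]
  rw [Finset.sum_comm]

lemma Tm_one_norm (hv : Orthonormal 𝕜 v) : ‖Tm 𝕜 v (1 : Matrix Λ Λ ℝ)‖ ≤ 1 := by
  have h1 : (ContinuousLinearMap.adjoint (Tm 𝕜 v (1 : Matrix Λ Λ ℝ))).comp
      (Tm 𝕜 v (1 : Matrix Λ Λ ℝ)) = Tm 𝕜 v (1 : Matrix Λ Λ ℝ) := by
    rw [Tm_adjoint, Matrix.transpose_one, ← Tm_mul hv, mul_one]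
  have h2 := ContinuousLinearMap.norm_adjoint_comp_self (Tm 𝕜 v (1 : Matrix Λ Λ ℝ))
  rw [h1] at h2
  by_contra h
  push Not at h
  nlinarith

lemma Tm_orth_norm (hv : Orthonormal 𝕜 v) {k : Matrix Λ Λ ℝ} (hk : k.transpose * k = 1) :
    ‖Tm 𝕜 v k‖ ≤ 1 := by
  have h1 : (ContinuousLinearMap.adjoint (Tm 𝕜 v k)).comp (Tm 𝕜 v k)
      = Tm 𝕜 v (1 : Matrix Λ Λ ℝ) := by
    rw [Tm_adjoint, ← Tm_mul hv, hk]
  have h2 := ContinuousLinearMap.norm_adjoint_comp_self (Tm 𝕜 v k)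
  rw [h1] at h2
  have h3 := Tm_one_norm hv
  by_contra h
  push Not at h
  nlinarith

lemma Tm_rank (x : Matrix Λ Λ ℝ) : ((Tm 𝕜 v x : H →L[𝕜] H) : H →ₗ[𝕜] H).rank
    ≤ (Fintype.card Λ : ℕ) := by
  have h1 : LinearMap.range ((Tm 𝕜 v x : H →L[𝕜] H) : H →ₗ[𝕜] H)
      ≤ Submodule.span 𝕜 (Set.range v) := by
    rintro _ ⟨ξ, rfl⟩
    change Tm 𝕜 v x ξ ∈ _
    rw [Tm_apply]
    exact Submodule.sum_mem _ fun a _ => Submodule.smul_mem _ _
      (Submodule.subset_span ⟨a, rfl⟩)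
  refine (Submodule.rank_mono h1).trans ((rank_span_le _).trans ?_)
  have := Cardinal.mk_range_le (f := v)
  simpa using this

lemma norm_sum_sq (hv : Orthonormal 𝕜 v) (c : Λ → 𝕜) :
    ‖∑ a, c a • v a‖ ^ 2 = ∑ a, ‖c a‖ ^ 2 := by
  have h1 := hv.inner_sum c c Finset.univ
  have h2 : ((‖∑ a, c a • v a‖ : ℝ) : 𝕜) ^ 2 = ∑ a, (((‖c a‖ : ℝ) : 𝕜)) ^ 2 := by
    rw [← inner_self_eq_norm_sq_to_K (𝕜 := 𝕜), h1]
    refine Finset.sum_congr rfl fun a _ => ?_
    rw [RCLike.conj_mul]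
  exact_mod_cast h2

lemma Tm_diag_norm (hv : Orthonormal 𝕜 v) (d : Λ → ℝ) {M : ℝ} (hM : 0 ≤ M) (h : ∀ a, |d a| ≤ M) :
    ‖Tm 𝕜 v (Matrix.diagonal d)‖ ≤ M := by
  refine ContinuousLinearMap.opNorm_le_bound _ hM fun ξ => ?_
  refine le_of_sq_le_sq ?_ (by positivity)
  rw [Tm_apply, norm_sum_sq hv, mul_pow]
  have h1 : ∀ a, ‖∑ b, ((Matrix.diagonal d a b : ℝ) : 𝕜) * inner 𝕜 (v b) ξ‖ ^ 2
      ≤ M ^ 2 * ‖inner 𝕜 (v a) ξ‖ ^ 2 := by
    intro a
    rw [Finset.sum_eq_single a (fun b _ hb => by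
      rw [Matrix.diagonal_apply_ne _ hb.symm]; simp) (fun ha => absurd (Finset.mem_univ a) ha),
      Matrix.diagonal_apply_eq, norm_mul, mul_pow, RCLike.norm_ofReal]
    have := h a
    have h0 := abs_nonneg (d a)
    gcongr
  refine (Finset.sum_le_sum fun a _ => h1 a).trans ?_
  rw [← Finset.mul_sum]
  exact mul_le_mul_of_nonneg_left (hv.sum_inner_products_le (s := Finset.univ) ξ) (by positivity)

/-- The trace norm of the operator with matrix `x`. -/
noncomputable def nuv (𝕜 : Type) {H : Type} [RCLike 𝕜] [NormedAddCommGroup H]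
    [InnerProductSpace 𝕜 H] {Λ : Type} [Fintype Λ] (v : Λ → H) (x : Matrix Λ Λ ℝ) : ℝ :=
  ∑' j, sval j (Tm 𝕜 v x)

lemma sval_Tm_eq_zero (x : Matrix Λ Λ ℝ) {j : ℕ} (hj : Fintype.card Λ ≤ j) :
    sval j (Tm 𝕜 v x) = 0 :=
  sval_eq_zero ((Tm_rank x).trans (by exact_mod_cast hj))

lemma sval_Tm_summable (x : Matrix Λ Λ ℝ) : Summable fun j => sval j (Tm 𝕜 v x) := by
  refine summable_of_ne_finset_zero (s := Finset.range (Fintype.card Λ)) fun j hj => ?_
  rw [Finset.mem_range, not_lt] at hj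
  exact sval_Tm_eq_zero x hj

lemma nuv_eq (x : Matrix Λ Λ ℝ) :
    nuv 𝕜 v x = ∑ j ∈ Finset.range (Fintype.card Λ), sval j (Tm 𝕜 v x) := by
  refine tsum_eq_sum fun j hj => ?_
  rw [Finset.mem_range, not_lt] at hj
  exact sval_Tm_eq_zero x hj

lemma nuv_nonneg (x : Matrix Λ Λ ℝ) : 0 ≤ nuv 𝕜 v x := tsum_nonneg fun _ => sval_nonneg _ _

lemma nuv_le_norm (x : Matrix Λ Λ ℝ) : nuv 𝕜 v x ≤ Fintype.card Λ * ‖Tm 𝕜 v x‖ := by
  rw [nuv_eq]
  calc _ ≤ ∑ j ∈ Finset.range (Fintype.card Λ), ‖Tm 𝕜 v x‖ :=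
        Finset.sum_le_sum fun j _ => sval_le_norm _ _
    _ = _ := by simp

lemma nuv_mul_le (hv : Orthonormal 𝕜 v) (x k l : Matrix Λ Λ ℝ) (hk : k.transpose * k = 1)
    (hl : l.transpose * l = 1) : nuv 𝕜 v (k * x * l) ≤ nuv 𝕜 v x := by
  rw [nuv_eq, nuv_eq]
  refine Finset.sum_le_sum fun j _ => ?_
  rw [Matrix.mul_assoc, Tm_mul hv, Tm_mul hv]
  exact sval_comp_le j _ _ _ (Tm_orth_norm hv hk) (Tm_orth_norm hv hl)

lemma Tm_diag_rank (d : Λ → ℝ) (s : Finset Λ) (hs : ∀ a, a ∉ s → d a = 0) :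
    ((Tm 𝕜 v (Matrix.diagonal d) : H →L[𝕜] H) : H →ₗ[𝕜] H).rank ≤ (s.card : ℕ) := by
  have h1 : LinearMap.range ((Tm 𝕜 v (Matrix.diagonal d) : H →L[𝕜] H) : H →ₗ[𝕜] H)
      ≤ Submodule.span 𝕜 (v '' (s : Set Λ)) := by
    rintro _ ⟨ξ, rfl⟩
    change Tm 𝕜 v (Matrix.diagonal d) ξ ∈ _
    rw [Tm_apply]
    refine Submodule.sum_mem _ fun a _ => ?_
    by_cases ha : a ∈ s
    · exact Submodule.smul_mem _ _ (Submodule.subset_span ⟨a, ha, rfl⟩)
    · have : ∑ b, ((Matrix.diagonal d a b : ℝ) : 𝕜) * inner 𝕜 (v b) ξ = 0 := by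
        refine Finset.sum_eq_zero fun b _ => ?_
        by_cases hab : a = b
        · subst hab; rw [Matrix.diagonal_apply_eq, hs a ha]; simp
        · rw [Matrix.diagonal_apply_ne _ hab]; simp
      rw [this, zero_smul]
      exact Submodule.zero_mem _
  refine (Submodule.rank_mono h1).trans ((rank_span_le _).trans ?_)
  refine Cardinal.mk_image_le.trans ?_
  simp

lemma nuv_diag_le (hv : Orthonormal 𝕜 v) (d : Λ → ℝ) :
    nuv 𝕜 v (Matrix.diagonal d) ≤ ∑ a, |d a| := by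
  classical
  -- sort the entries
  set N := Fintype.card Λ with hN
  let e : Λ ≃ Fin N := Fintype.equivFin Λ
  let g : Fin N → ℝ := fun i => -|d (e.symm i)|
  let σ : Fin N ≃ Λ := (Tuple.sort g).trans e.symm
  have hmono : ∀ i j : Fin N, i ≤ j → |d (σ j)| ≤ |d (σ i)| := by
    intro i j hij
    have := Tuple.monotone_sort g hij
    simp only [Function.comp, g] at this
    change |d (e.symm (Tuple.sort g j))| ≤ |d (e.symm (Tuple.sort g i))|
    linarith
  rw [nuv_eq, ← Equiv.sum_comp σ (fun a => |d a|), Finset.sum_range]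
  refine Finset.sum_le_sum fun j _ => ?_
  -- the first `j` entries
  set s : Finset Λ := (Finset.univ.filter (fun i : Fin N => i < j)).map σ.toEmbedding with hs
  have hcard : s.card = j := by
    rw [hs, Finset.card_map]
    have : (Finset.univ.filter (fun i : Fin N => i < j)) = Finset.Iio j := by
      ext i; simp
    rw [this, Fin.card_Iio]
  have hmem : ∀ a, a ∈ s ↔ σ.symm a < j := by
    intro a
    rw [hs, Finset.mem_map]
    constructor
    · rintro ⟨i, hi, rfl⟩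
      simpa using hi
    · intro h
      exact ⟨σ.symm a, by simpa using h, by simp⟩
  have h1 := sval_le (j := (j : ℕ)) (Tm 𝕜 v (Matrix.diagonal d))
    (Tm 𝕜 v (Matrix.diagonal fun a => if a ∈ s then d a else 0)) (by
      refine (Tm_diag_rank _ s (fun a ha => by simp [ha])).trans ?_
      rw [hcard])
  refine h1.trans ?_
  rw [← Tm_sub, Matrix.diagonal_sub]
  refine Tm_diag_norm hv _ (abs_nonneg _) fun a => ?_
  by_cases ha : a ∈ s
  · simp [ha]
  · simp only [ha, if_false, sub_zero]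
    rw [hmem, not_lt] at ha
    have := hmono j (σ.symm a) ha
    simpa using this

lemma nuv_scalar (hv : Orthonormal 𝕜 v) {c : ℝ} (hc : 0 ≤ c) :
    nuv 𝕜 v (Matrix.diagonal fun _ : Λ => c) = Fintype.card Λ * c := by
  refine le_antisymm ?_ ?_
  · refine (nuv_diag_le hv _).trans (le_of_eq ?_)
    simp [abs_of_nonneg hc]
  · rw [nuv_eq]
    have h1 : ∀ j ∈ Finset.range (Fintype.card Λ), c ≤ sval j
        (Tm 𝕜 v (Matrix.diagonal fun _ : Λ => c)) := by
      intro j hj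
      rw [Finset.mem_range] at hj
      refine le_sval fun R hR => ?_
      -- a vector in the kernel
      let L : (Λ → 𝕜) →ₗ[𝕜] H :=
        { toFun := fun c => ∑ a, c a • v a
          map_add' := fun x y => by simp [add_smul, Finset.sum_add_distrib]
          map_smul' := fun t x => by simp [Finset.smul_sum, smul_smul] }
      have hrank : ((R : H →ₗ[𝕜] H).comp L).rank ≤ (j : ℕ) := by
        exact (LinearMap.rank_comp_le_left L (R : H →ₗ[𝕜] H)).trans hR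
      have hex : ∃ x : Λ → 𝕜, x ≠ 0 ∧ ((R : H →ₗ[𝕜] H).comp L) x = 0 := by
        by_contra hcon
        push Not at hcon
        have hinj : Function.Injective ((R : H →ₗ[𝕜] H).comp L) := by
          rw [← LinearMap.ker_eq_bot, LinearMap.ker_eq_bot']
          intro x hx
          by_contra hne
          exact hcon x hne hx
        have h2 : ((R : H →ₗ[𝕜] H).comp L).rank = Module.rank 𝕜 (Λ → 𝕜) := by
          exact rank_range_of_injective _ hinj
        rw [h2, rank_fun'] at hrank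
        have : Fintype.card Λ ≤ j := by exact_mod_cast hrank
        omega
      obtain ⟨x, hx, hRx⟩ := hex
      have hL : L x ≠ 0 := by
        intro h0
        have h3 : ‖L x‖ ^ 2 = ∑ a, ‖x a‖ ^ 2 := norm_sum_sq hv x
        rw [h0, norm_zero] at h3
        apply hx
        funext a
        have h4 : ∑ a, ‖x a‖ ^ 2 = 0 := by rw [← h3]; norm_num
        rw [Finset.sum_eq_zero_iff_of_nonneg (fun _ _ => by positivity)] at h4
        have := h4 a (Finset.mem_univ a)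
        simpa using this
      have hT : Tm 𝕜 v (Matrix.diagonal fun _ : Λ => c) (L x) = (c : 𝕜) • L x := by
        rw [Tm_apply]
        change _ = (c : 𝕜) • ∑ a, x a • v a
        rw [Finset.smul_sum]
        refine Finset.sum_congr rfl fun a _ => ?_
        rw [smul_smul]
        congr 1
        rw [Finset.sum_eq_single a (fun b _ hb => by
          rw [Matrix.diagonal_apply_ne _ hb.symm]; simp)
          (fun ha => absurd (Finset.mem_univ a) ha), Matrix.diagonal_apply_eq]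
        congr 1
        exact hv.inner_right_fintype x a
      have h5 : (Tm 𝕜 v (Matrix.diagonal fun _ : Λ => c) - R) (L x) = (c : 𝕜) • L x := by
        rw [sub_apply, hT]
        have : R (L x) = 0 := hRx
        rw [this, sub_zero]
      have h6 := (Tm 𝕜 v (Matrix.diagonal fun _ : Λ => c) - R).le_opNorm (L x)
      rw [h5, norm_smul, RCLike.norm_ofReal, abs_of_nonneg hc] at h6
      exact le_of_mul_le_mul_right h6 (norm_pos_iff.mpr hL)
    calc (Fintype.card Λ : ℝ) * c = ∑ _j ∈ Finset.range (Fintype.card Λ), c := by simp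
      _ ≤ _ := Finset.sum_le_sum h1

lemma rankOne_compact (a b : H) : IsCompactOperator (rankOne 𝕜 a b : H →L[𝕜] H) := by
  rw [rankOne_def']
  have h1 : IsCompactOperator (ContinuousLinearMap.toSpanSingleton 𝕜 a : 𝕜 →L[𝕜] H) :=
    isCompactOperator_of_locallyCompactSpace_rng _
  exact h1.comp_clm (innerSL 𝕜 b)

lemma Tm_compact (x : Matrix Λ Λ ℝ) : IsCompactOperator (Tm 𝕜 v x) := by
  classical
  have h0 : IsCompactOperator ((0 : H →L[𝕜] H)) := isCompactOperator_zero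
  unfold Tm
  have hs : ∀ (s : Finset Λ) (g : Λ → (H →L[𝕜] H)), (∀ a, IsCompactOperator (g a)) →
      IsCompactOperator ((∑ a ∈ s, g a : H →L[𝕜] H)) := by
    intro s g hg
    induction s using Finset.induction_on with
    | empty => simpa using h0
    | insert a s ha ih =>
      rw [Finset.sum_insert ha]
      exact (hg a).add ih
  refine hs _ _ fun a => hs _ _ fun b => ?_
  exact (rankOne_compact _ _).smul _

end Units

end Helper34.TraceClass
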