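import Mathlib

/-!
# The trace class `S₁`, Rademacher type, and the three notions of embedding

All definitions used in the statement of the hand-in `MP_230ab6_an.TraceClassNoEmbedding`.
-/

namespace Helper34.TraceClass

open scoped ENNReal

/-- The Hilbert space `ℓ₂` of square summable sequences over `𝕜 = ℝ` or `ℂ`. -/
abbrev Ell2 (𝕜 : Type) [RCLike 𝕜] : Type := lp (fun _ : ℕ => 𝕜) 2

/-- The `j`-th singular value (`j = 0, 1, 2, …`) of a bounded operator `T` on a Hilbert space, as an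
approximation number: the distance of `T` from the operators of rank at most `j`.  For a compact
operator this is the `(j+1)`-st largest eigenvalue of `(T* T)^(1/2)`, counted with multiplicity. -/
noncomputable def sval {𝕜 H : Type*} [RCLike 𝕜] [NormedAddCommGroup H] [InnerProductSpace 𝕜 H]
    (j : ℕ) (T : H →L[𝕜] H) : ℝ :=
  ⨅ R : {R : H →L[𝕜] H // (R : H →ₗ[𝕜] H).rank ≤ j}, ‖T - R.1‖

/-- The trace class `S₁`: the compact operators on `ℓ₂` with summable singular values. -/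
structure S1 (𝕜 : Type) [RCLike 𝕜] where
  /-- the operator -/
  op : Ell2 𝕜 →L[𝕜] Ell2 𝕜
  compact : IsCompactOperator op
  summable : Summable fun j => sval j op

/-- The trace norm distance of `S₁`: the sum of the singular values of the difference. -/
noncomputable def S1.d {𝕜 : Type} [RCLike 𝕜] (x y : S1 𝕜) : ℝ := ∑' j, sval j (x.op - y.op)

/-- A (real or complex) normed space `Y` has Rademacher type `p` if there is a finite constant `T`
with `𝔼 ‖∑ εᵢ yᵢ‖ ≤ T (∑ ‖yᵢ‖ ^ p) ^ (1 / p)` for all finite families `y₁, …, yₙ`; the expectation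
is over independent uniform signs, i.e. the average over all `ε : Fin n → Bool`. -/
def HasType (Y : Type*) [NormedAddCommGroup Y] (p : ℝ) : Prop :=
  ∃ T : ℝ, ∀ (n : ℕ) (y : Fin n → Y),
    (∑ ε : Fin n → Bool, ‖∑ i, (if ε i then y i else -y i)‖) / 2 ^ n
      ≤ T * (∑ i, ‖y i‖ ^ p) ^ (1 / p)

/-- `f` is a uniform embedding of `X` (with distance `d`) into `Y`: it is injective, and `f` and its
inverse (defined on the image) are uniformly continuous. -/
def IsUniformEmb {X Y : Type*} (d : X → X → ℝ) [NormedAddCommGroup Y] (f : X → Y) : Prop :=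
  Function.Injective f ∧
  (∀ ε > 0, ∃ δ > 0, ∀ x y, d x y < δ → ‖f x - f y‖ < ε) ∧
  (∀ ε > 0, ∃ δ > 0, ∀ x y, ‖f x - f y‖ < δ → d x y < ε)

/-- `f` is a coarse embedding of `X` (with distance `d`) into `Y`. -/
def IsCoarseEmb {X Y : Type*} (d : X → X → ℝ) [NormedAddCommGroup Y] (f : X → Y) : Prop :=
  ∃ α β : ℝ → ℝ, (∀ t, 0 ≤ t → 0 ≤ α t ∧ 0 ≤ β t) ∧
    (∀ s t, 0 ≤ s → s ≤ t → α s ≤ α t) ∧ (∀ s t, 0 ≤ s → s ≤ t → β s ≤ β t) ∧
    Filter.Tendsto α Filter.atTop Filter.atTop ∧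
    ∀ x y, α (d x y) ≤ ‖f x - f y‖ ∧ ‖f x - f y‖ ≤ β (d x y)

/-- `f` is a quasisymmetric embedding of `X` (with distance `d`) into `Y`: it is injective and there
is a non-decreasing `η : (0, ∞) → (0, ∞)` with `η(t) → 0` as `t → 0` and
`‖f x - f y‖ / ‖f x - f z‖ ≤ η (d x y / d x z)` for all distinct `x, y, z`. -/
def IsQSEmb {X Y : Type*} (d : X → X → ℝ) [NormedAddCommGroup Y] (f : X → Y) : Prop :=
  Function.Injective f ∧
  ∃ η : ℝ → ℝ, (∀ t, 0 < t → 0 < η t) ∧ (∀ s t, 0 < s → s ≤ t → η s ≤ η t) ∧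
    Filter.Tendsto η (nhdsWithin 0 (Set.Ioi 0)) (nhds 0) ∧
    ∀ x y z, x ≠ y → y ≠ z → x ≠ z →
      ‖f x - f y‖ / ‖f x - f z‖ ≤ η (d x y / d x z)

end Helper34.TraceClass
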