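import Pool.Agent.Helper34.TraceDefs

/-!
# Rademacher type
-/

namespace Helper34.TraceClass

open Finset

variable {Y : Type*} [NormedAddCommGroup Y] [NormedSpace ℝ Y]

/-- The real sign of a Boolean. -/
def sg (b : Bool) : ℝ := if b then 1 else -1

@[simp] lemma sg_true : sg true = 1 := rfl
@[simp] lemma sg_false : sg false = -1 := rfl

lemma sg_smul (b : Bool) (y : Y) : sg b • y = if b then y else -y := by
  cases b <;> simp [sg]

lemma HasType.general {p : ℝ} (hp : 1 ≤ p) (h : HasType Y p) :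
    ∃ T : ℝ, 0 ≤ T ∧ ∀ (I : Type) [Fintype I] [DecidableEq I] (y : I → Y) (a : ℝ),
      (∀ i, ‖y i‖ ≤ a) →
      ∑ ε : I → Bool, ‖∑ i, sg (ε i) • y i‖
        ≤ 2 ^ (Fintype.card I) * (T * (Fintype.card I : ℝ) ^ (1 / p) * a) := by
  obtain ⟨T, hT⟩ := h
  refine ⟨max T 0, le_max_right _ _, fun I _ _ y a hy => ?_⟩
  have hp0 : 0 < p := by linarith
  set n := Fintype.card I with hn
  let e : I ≃ Fin n := Fintype.equivFin I
  have h1 := hT n (fun j => y (e.symm j))
  have h2 : ∑ ε : I → Bool, ‖∑ i, sg (ε i) • y i‖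
      = ∑ ε : Fin n → Bool, ‖∑ j, (if ε j then y (e.symm j) else -y (e.symm j))‖ := by
    refine Fintype.sum_equiv (e.arrowCongr (Equiv.refl Bool)) _ _ (fun ε => ?_)
    congr 1
    refine Fintype.sum_equiv e _ _ (fun i => ?_)
    simp [Equiv.arrowCongr, sg_smul]
  rw [h2]
  have hpow : (0 : ℝ) < 2 ^ n := by positivity
  rw [div_le_iff₀ hpow] at h1
  refine h1.trans ?_
  rw [mul_comm]
  refine mul_le_mul_of_nonneg_left ?_ hpow.le
  rcases Nat.eq_zero_or_pos n with h0 | hpos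
  · have hz : (∑ j : Fin n, ‖y (e.symm j)‖ ^ p) = 0 := by
      apply Finset.sum_eq_zero
      intro j _
      exact absurd j.2 (by omega)
    rw [hz, h0]
    simp [Real.zero_rpow (inv_ne_zero hp0.ne')]
  · have ha : 0 ≤ a := (norm_nonneg _).trans (hy (e.symm ⟨0, hpos⟩))
    have hs0 : 0 ≤ ∑ j : Fin n, ‖y (e.symm j)‖ ^ p :=
      Finset.sum_nonneg fun j _ => Real.rpow_nonneg (norm_nonneg _) _
    have hs : (∑ j : Fin n, ‖y (e.symm j)‖ ^ p) ≤ (n : ℝ) * a ^ p := by
      calc (∑ j : Fin n, ‖y (e.symm j)‖ ^ p) ≤ ∑ j : Fin n, a ^ p :=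
            Finset.sum_le_sum fun j _ => Real.rpow_le_rpow (norm_nonneg _) (hy _) hp0.le
        _ = (n : ℝ) * a ^ p := by simp
    calc T * (∑ j : Fin n, ‖y (e.symm j)‖ ^ p) ^ (1 / p)
        ≤ max T 0 * (∑ j : Fin n, ‖y (e.symm j)‖ ^ p) ^ (1 / p) :=
          mul_le_mul_of_nonneg_right (le_max_left _ _) (Real.rpow_nonneg hs0 _)
      _ ≤ max T 0 * ((n : ℝ) * a ^ p) ^ (1 / p) :=
          mul_le_mul_of_nonneg_left (Real.rpow_le_rpow hs0 hs (by positivity)) (le_max_right _ _)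
      _ = max T 0 * (n : ℝ) ^ (1 / p) * a := by
          rw [Real.mul_rpow (by positivity) (Real.rpow_nonneg ha _), ← Real.rpow_mul ha,
            mul_one_div_cancel hp0.ne', Real.rpow_one, mul_assoc]

lemma sum_sign_eval {I : Type*} [Fintype I] [DecidableEq I] (i : I) (g : Bool → Y) :
    ∑ ε : I → Bool, g (ε i) = (2 : ℝ) ^ (Fintype.card I - 1) • (g true + g false) := by
  classical
  have h1 : ∑ ε : I → Bool, g (ε i) = ∑ x : Bool × ({j : I // j ≠ i} → Bool), g x.1 := by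
    refine Fintype.sum_equiv (Equiv.piSplitAt i (fun _ => Bool)) _ _ (fun ε => rfl)
  rw [h1, Fintype.sum_prod_type]
  simp only [Finset.sum_const, Finset.card_univ, Fintype.card_pi, Finset.prod_const,
    Fintype.card_bool, Fintype.sum_bool]
  have hc : (Fintype.card {j : I // j ≠ i}) = Fintype.card I - 1 := by
    simp [Fintype.card_subtype_compl]
  rw [hc, ← smul_add, ← Nat.cast_smul_eq_nsmul ℝ]
  simp

end Helper34.TraceClass
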